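import Pool.Agent.Y142.SelfDual

/-!
# A set of primes of positive density without isotropic factors
-/

set_option autoImplicit false

namespace Pool.Agent.Y142

open NumberField Filter Topology Polynomial Module
open Pool.Agent.W401.Cheb

/-- density of a conjugation invariant set of Frobenius elements -/
theorem dens_class (L : Type) [Field L] [NumberField L] [IsGalois ℚ L] (C : Set Gal(L/ℚ))
    (hC : ∀ σ ∈ C, ∀ τ : Gal(L/ℚ), τ⁻¹ * σ * τ ∈ C) {D : ℕ} (hD : 0 < D) :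
    Tendsto (fun N : ℕ => (Nat.card {p : ℕ // p ≤ N ∧ p.Prime ∧ ¬ p ∣ D ∧ ∃ σ ∈ C, xp L σ p ≠ 0} : ℝ) /
      (Nat.primeCounting N : ℝ)) atTop (𝓝 ((Nat.card C : ℝ) / (Nat.card Gal(L/ℚ) : ℝ))) := by
  classical
  obtain ⟨D', hD', htor⟩ := torsor L
  have hG : (0 : ℝ) < (Nat.card Gal(L/ℚ) : ℝ) := by exact_mod_cast Nat.card_pos
  have hfin : Fintype C := Fintype.ofFinite _
  set a : ℕ → ℝ := fun p => if ¬ p ∣ D ∧ ∃ σ ∈ C, xp L σ p ≠ 0 then 1 else 0 with ha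
  have h1 : ∀ N : ℕ, (Nat.card {p : ℕ // p ≤ N ∧ p.Prime ∧ ¬ p ∣ D ∧ ∃ σ ∈ C, xp L σ p ≠ 0} : ℝ) /
      (Nat.primeCounting N : ℝ) = M a N := by
    intro N
    unfold M
    congr 1
    rw [Finset.sum_ite, Finset.sum_const_zero, add_zero, Finset.sum_const, nsmul_eq_mul, mul_one]
    congr 1
    refine Nat.subtype_card _ fun p => ?_
    rw [Finset.mem_filter, mem_pr]
    tauto
  simp only [h1]
  refine M_congr (D := D * D') (Nat.mul_pos hD hD')
    (b := fun p => (Nat.card Gal(L/ℚ) : ℝ)⁻¹ * ∑ σ : C, (xp L σ.1 p : ℝ)) ?_ ?_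
  · intro p hp hpD
    have hp1 : ¬ p ∣ D := fun h => hpD (h.mul_right _)
    have hp2 : ¬ p ∣ D' := fun h => hpD (h.mul_left _)
    have hfact : Fact p.Prime := ⟨hp⟩
    have hT := htor p hp2
    have hfh := finite_hom hT
    have hxp : ∀ σ : Gal(L/ℚ), xp L σ p =
        Nat.card {φ : 𝓞 L →+* AlgebraicClosure (ZMod p) // HasFrob p φ σ} := by
      intro σ
      unfold xp
      rw [dif_pos hp]
    by_cases hex : ∃ σ ∈ C, xp L σ p ≠ 0
    · have ha1 : a p = 1 := by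
        rw [ha]
        exact if_pos ⟨hp1, hex⟩
      rw [ha1]
      obtain ⟨σ₀, hσ₀, hx⟩ := hex
      rw [hxp] at hx
      obtain ⟨⟨φ₀, hφ₀⟩⟩ := (Nat.card_ne_zero.1 hx).1
      have h2 : Nat.card {φ : 𝓞 L →+* AlgebraicClosure (ZMod p) // ∃ ρ, HasFrob p φ ρ ∧ ρ ∈ C} =
          Nat.card Gal(L/ℚ) := by
        rw [card_frob hT hφ₀ (fun ρ => ρ ∈ C)]
        exact Nat.card_congr (Equiv.subtypeUnivEquiv fun σ => hC σ₀ hσ₀ σ)
      have h3 : ∑ σ : C, Nat.card {φ : 𝓞 L →+* AlgebraicClosure (ZMod p) // HasFrob p φ σ.1} =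
          Nat.card {φ : 𝓞 L →+* AlgebraicClosure (ZMod p) // ∃ ρ, HasFrob p φ ρ ∧ ρ ∈ C} := by
        rw [← Nat.card_sigma]
        refine Nat.card_eq_of_bijective (fun x => ⟨x.2.1, x.1.1, x.2.2, x.1.2⟩) ⟨?_, ?_⟩
        · rintro ⟨⟨σ, hσ⟩, ⟨φ, hφ⟩⟩ ⟨⟨σ', hσ'⟩, ⟨φ', hφ'⟩⟩ h
          have h4 : φ = φ' := congrArg Subtype.val h
          subst h4
          have h5 : σ = σ' := frob_unique hT hφ hφ'
          subst h5
          rfl
        · rintro ⟨φ, ρ, hρ, hρC⟩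
          exact ⟨⟨⟨ρ, hρC⟩, ⟨φ, hρ⟩⟩, rfl⟩
      have h4 : (∑ σ : C, (xp L σ.1 p : ℝ)) = (Nat.card Gal(L/ℚ) : ℝ) := by
        rw [← Nat.cast_sum, ← h2, ← h3]
        congr 1
        exact Finset.sum_congr rfl fun σ _ => hxp σ.1
      rw [h4, inv_mul_cancel₀ hG.ne']
    · have ha1 : a p = 0 := by
        rw [ha]
        exact if_neg fun h => hex h.2
      rw [ha1]
      push Not at hex
      have h4 : (∑ σ : C, (xp L σ.1 p : ℝ)) = 0 :=
        Finset.sum_eq_zero fun σ _ => by rw [hex σ.1 σ.2, Nat.cast_zero]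
      rw [h4, mul_zero]
  · have h2 : (fun N => M (fun p => (Nat.card Gal(L/ℚ) : ℝ)⁻¹ * ∑ σ : C, (xp L σ.1 p : ℝ)) N) =
        fun N => (Nat.card Gal(L/ℚ) : ℝ)⁻¹ * ∑ σ : C, M (fun p => (xp L σ.1 p : ℝ)) N := by
      funext N
      rw [M_smul, M_sum]
    rw [show M (fun p => (Nat.card Gal(L/ℚ) : ℝ)⁻¹ * ∑ σ : C, (xp L σ.1 p : ℝ)) =
      fun N => (Nat.card Gal(L/ℚ) : ℝ)⁻¹ * ∑ σ : C, M (fun p => (xp L σ.1 p : ℝ)) N from h2]
    have h3 : ∀ σ : C, Tendsto (M fun p => (xp L σ.1 p : ℝ)) atTop (𝓝 1) := fun σ =>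
      chebotarev L σ.1
    have h4 := (tendsto_finsetSum (Finset.univ : Finset C) fun σ _ => h3 σ).const_mul
      ((Nat.card Gal(L/ℚ) : ℝ)⁻¹)
    refine h4.trans (le_of_eq ?_)
    congr 1
    rw [Finset.sum_const, Finset.card_univ, nsmul_eq_mul, mul_one,
      Nat.card_eq_fintype_card (α := C), div_eq_inv_mul]

/-- the automorphisms all of whose orbits on the roots of `P` are stable under `z ↦ s / z` -/
def selfDual (P : ℤ[X]) (s : ℕ) (L : Type) [Field L] [NumberField L] : Set Gal(L/ℚ) :=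
  {σ | ∀ z : L, aeval z P = 0 → ∃ m : ℕ, (σ ^ m) z * z = s}

theorem aeval_gal {L : Type} [Field L] [NumberField L] (τ : Gal(L/ℚ)) {P : ℤ[X]} {z : L}
    (hz : aeval z P = 0) : aeval (τ z) P = 0 := by
  have h := Polynomial.aeval_algHom_apply (τ : L →+* L).toIntAlgHom z P
  have h1 : aeval (τ z) P = τ (aeval z P) := h
  rw [h1, hz, map_zero]

theorem selfDual_conj {P : ℤ[X]} {s : ℕ} {L : Type} [Field L] [NumberField L] :
    ∀ σ ∈ selfDual P s L, ∀ τ : Gal(L/ℚ), τ⁻¹ * σ * τ ∈ selfDual P s L := by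
  intro σ hσ τ z hz
  obtain ⟨m, hm⟩ := hσ (τ z) (aeval_gal τ hz)
  refine ⟨m, ?_⟩
  have h1 : (τ⁻¹ * σ * τ) ^ m = τ⁻¹ * σ ^ m * τ := by
    have := conj_pow (a := τ⁻¹) (b := σ) (i := m)
    rwa [inv_inv] at this
  rw [h1, AlgEquiv.mul_apply, AlgEquiv.mul_apply]
  apply τ.injective
  rw [map_mul, map_natCast, ← AlgEquiv.mul_apply, mul_inv_cancel, AlgEquiv.one_apply]
  exact hm

/-- complex conjugation -/
theorem selfDual_nonempty {P : ℤ[X]} {s : ℕ} (hroots : ∀ z : ℂ, aeval z P = 0 → ‖z‖ ^ 2 = s)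
    (L : Type) [Field L] [NumberField L] [IsGalois ℚ L] : 0 < Nat.card (selfDual P s L) := by
  obtain ⟨φ⟩ : Nonempty (L →+* ℂ) := inferInstance
  obtain ⟨σ, hσ⟩ := NumberField.ComplexEmbedding.exists_comp_symm_eq_of_comp_eq (k := ℚ) φ
    (NumberField.ComplexEmbedding.conjugate φ) (RingHom.ext fun x => by simp)
  have hmem : σ⁻¹ ∈ selfDual P s L := by
    intro z hz
    refine ⟨1, ?_⟩
    apply φ.injective
    have h1 := RingHom.congr_fun hσ z
    rw [RingHom.comp_apply] at h1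
    have h2 : φ (σ⁻¹ z) = (starRingEnd ℂ) (φ z) := h1
    rw [pow_one, map_mul, map_natCast, h2]
    have h3 : aeval (φ z) P = 0 := by
      have h := Polynomial.aeval_algHom_apply φ.toIntAlgHom z P
      have h4 : aeval (φ z) P = φ (aeval z P) := h
      rw [h4, hz, map_zero]
    have h5 := hroots _ h3
    rw [mul_comm, Complex.mul_conj, Complex.normSq_eq_norm_sq, h5]
    simp
  have : Nonempty (selfDual P s L) := ⟨⟨_, hmem⟩⟩
  exact Nat.card_pos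

/-- bad primes for the reduction of `P` -/
theorem exists_disc {P : ℤ[X]} (hP : P.Monic) (hsq : Squarefree (P.map (Int.castRingHom ℚ)))
    {L : Type} [Field L] [NumberField L] (hL : (P.map (algebraMap ℤ L)).Splits) :
    ∃ D : ℕ, 0 < D ∧ ∀ (ℓ : ℕ) [Fact ℓ.Prime], ¬ ℓ ∣ D →
      ∀ φ : 𝓞 L →+* AlgebraicClosure (ZMod ℓ), ∀ z : 𝓞 L, aeval z P = 0 →
        φ (aeval z (derivative P)) ≠ 0 := by
  obtain ⟨T, hT⟩ := exists_integral_roots hP hL
  have hsep : (P.map (Int.castRingHom ℚ)).Separable := PerfectField.separable_iff_squarefree.2 hsq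
  have hder : ∀ z : 𝓞 L, aeval z P = 0 → aeval z (derivative P) ≠ 0 := by
    intro z hz hz'
    have h1 : aeval (z : L) P = 0 := by rw [aeval_algebraMap_apply, hz, map_zero]
    have h2 : aeval (z : L) (derivative P) = 0 := by rw [aeval_algebraMap_apply, hz', map_zero]
    obtain ⟨a, b, hab⟩ := hsep
    have h3 := congrArg (aeval (z : L)) hab
    have h4 : aeval (z : L) (P.map (Int.castRingHom ℚ)) = 0 := by
      have := aeval_map_algebraMap ℚ (z : L) P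
      rw [h1] at this
      exact this
    have h5 : aeval (z : L) (derivative (P.map (Int.castRingHom ℚ))) = 0 := by
      rw [derivative_map]
      have := aeval_map_algebraMap ℚ (z : L) (derivative P)
      rw [h2] at this
      exact this
    rw [map_add, map_mul, map_mul, h4, h5, mul_zero, mul_zero, add_zero, map_one] at h3
    exact zero_ne_one h3
  have hmem : ∀ z : 𝓞 L, aeval z P = 0 ↔ z ∈ T := by
    intro z
    rw [← eval_map_algebraMap, hT, eval_multiset_prod, Multiset.prod_eq_zero_iff, Multiset.map_map,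
      Multiset.mem_map]
    constructor
    · rintro ⟨t, ht, h⟩
      simp only [Function.comp_apply, eval_sub, eval_X, eval_C] at h
      rw [sub_eq_zero.1 h]
      exact ht
    · intro h
      exact ⟨z, h, by simp⟩
  set δ : 𝓞 L := (T.map fun z => aeval z (derivative P)).prod with hδ
  have hδ0 : δ ≠ 0 := by
    rw [hδ, Ne, Multiset.prod_eq_zero_iff, Multiset.mem_map]
    rintro ⟨z, hz, h⟩
    exact hder z ((hmem z).2 hz) h
  refine ⟨Ideal.absNorm (Ideal.span {δ}), ?_, ?_⟩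
  · rw [Nat.pos_iff_ne_zero, Ne, Ideal.absNorm_eq_zero_iff, Ideal.span_singleton_eq_bot]
    exact hδ0
  · intro ℓ _ hℓ φ z hz h0
    apply hℓ
    have h1 := Ideal.absNorm_mem (Ideal.span {δ})
    rw [Ideal.mem_span_singleton] at h1
    have h2 : aeval z (derivative P) ∣ δ :=
      Multiset.dvd_prod (Multiset.mem_map.2 ⟨z, (hmem z).1 hz, rfl⟩)
    obtain ⟨y, hy⟩ := h2.trans h1
    have h3 := congrArg φ hy
    rw [map_mul, h0, zero_mul, map_natCast] at h3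
    have hchar : CharP (AlgebraicClosure (ZMod ℓ)) ℓ :=
      charP_of_injective_algebraMap (algebraMap (ZMod ℓ) (AlgebraicClosure (ZMod ℓ))).injective ℓ
    exact (CharP.cast_eq_zero_iff _ ℓ _).1 h3

theorem semisimple_B {P : ℤ[X]} (hP : P.Monic) (hsq : Squarefree (P.map (Int.castRingHom ℚ)))
    {s : ℕ} (hs : 0 < s) (L : Type) [Field L] [NumberField L] [IsGalois ℚ L]
    (hL : (P.map (algebraMap ℤ L)).Splits) :
    ∃ Λ : Set ℕ, (∀ ℓ ∈ Λ, ℓ.Prime) ∧ (∀ ℓ ∈ Λ, ¬ ℓ ∣ s) ∧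
      Tendsto (fun N : ℕ => (Nat.card {ℓ : ℕ // ℓ ≤ N ∧ ℓ ∈ Λ} : ℝ) / (Nat.primeCounting N : ℝ))
        atTop (𝓝 ((Nat.card (selfDual P s L) : ℝ) / (Nat.card Gal(L/ℚ) : ℝ))) ∧
      ∀ ℓ ∈ Λ, ∀ _ : Fact ℓ.Prime, ∀ (Γ V : Type) [Group Γ] [AddCommGroup V] [Module ℚ_[ℓ] V]
        [FiniteDimensional ℚ_[ℓ] V] (ρ : Γ →* (V →ₗ[ℚ_[ℓ]] V)) (B : LinearMap.BilinForm ℚ_[ℓ] V)
        (χ : Γ → ℚ_[ℓ]), B.Nondegenerate → B.IsRefl →
        (∀ (g : Γ) (x y : V), B (ρ g x) (ρ g y) = χ g * B x y) →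
        ∀ g₀ : Γ, (ρ g₀).charpoly = P.map (algebraMap ℤ ℚ_[ℓ]) → χ g₀ = s →
        ∀ U : Submodule ℚ_[ℓ] V, (∀ g, U ≤ U.comap (ρ g)) →
          IsCompl U (B.orthogonal U) ∧ ∀ g, B.orthogonal U ≤ (B.orthogonal U).comap (ρ g) := by
  classical
  obtain ⟨D, hD, hdisc⟩ := exists_disc hP hsq hL
  refine ⟨{ℓ | ℓ.Prime ∧ ¬ ℓ ∣ s * D ∧ ∃ σ ∈ selfDual P s L, xp L σ ℓ ≠ 0}, fun ℓ h => h.1,
    fun ℓ h h' => h.2.1 (h'.mul_right _), ?_, ?_⟩
  · exact dens_class L (selfDual P s L) selfDual_conj (Nat.mul_pos hs hD)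
  · rintro ℓ ⟨hℓ, hℓD, σ, hσ, hx⟩ _ Γ V _ _ _ _ ρ B χ hB hB₀ hχ g₀ hg₀ hχ₀ U hU
    have hxp : xp L σ ℓ = Nat.card {φ : 𝓞 L →+* AlgebraicClosure (ZMod ℓ) // HasFrob ℓ φ σ} := by
      unfold xp
      rw [dif_pos hℓ]
    rw [hxp] at hx
    obtain ⟨⟨φ, hφ⟩⟩ := (Nat.card_ne_zero.1 hx).1
    refine isCompl_of_no_isotropic ρ χ hB₀ hχ ?_ U hU
    intro W hW hiso
    by_contra hW0
    have hd : 0 < finrank ℚ_[ℓ] W := by
      rw [Nat.pos_iff_ne_zero]
      intro h0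
      exact hW0 (Submodule.finrank_eq_zero.1 h0)
    have hs0 : (s : ℚ_[ℓ]) ≠ 0 := by exact_mod_cast hs.ne'
    have h1 := charpoly_mul_dual_dvd hB (e := ρ g₀) (s := χ g₀) (by rw [hχ₀]; exact hs0) (hχ g₀)
      (hW g₀) hiso
    rw [hg₀, hχ₀] at h1
    exact no_isotropic_factor hP (fun h => hℓD (h.mul_right _)) hL φ hφ
      (hdisc ℓ (fun h => hℓD (h.mul_left _)) φ) hσ (LinearMap.charpoly_monic _)
      (by rw [LinearMap.charpoly_natDegree]; exact hd) h1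

end Pool.Agent.Y142
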