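import Mathlib

/-!
# Algebraic integers all of whose conjugates have the same absolute value
-/

set_option autoImplicit false

namespace Pool.Agent.Y142

open Polynomial Module

variable {F : Type*} [Field F] [CharZero F]

/-- `y` is an algebraic integer all of whose complex conjugates have absolute value `√c` -/
def Pure (c : ℝ) (y : F) : Prop :=
  ∃ P : ℤ[X], P.Monic ∧ aeval y P = 0 ∧ ∀ z : ℂ, aeval z P = 0 → ‖z‖ ^ 2 = c

theorem pure_iff {c : ℝ} {y : F} : Pure c y ↔ IsIntegral ℤ y ∧
    ∀ z : ℂ, aeval z (minpoly ℚ y) = 0 → ‖z‖ ^ 2 = c := by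
  constructor
  · rintro ⟨P, hP, h1, h2⟩
    have hint : IsIntegral ℤ y := ⟨P, hP, by rw [← aeval_def]; exact h1⟩
    refine ⟨hint, fun z hz => h2 z ?_⟩
    obtain ⟨R, hR⟩ := minpoly.isIntegrallyClosed_dvd hint h1
    rw [hR, map_mul]
    have h3 : aeval z (minpoly ℤ y) = 0 := by
      rw [minpoly.isIntegrallyClosed_eq_field_fractions' ℚ hint, aeval_map_algebraMap] at hz
      exact hz
    rw [h3, zero_mul]
  · rintro ⟨hint, h⟩
    refine ⟨minpoly ℤ y, minpoly.monic hint, minpoly.aeval ℤ y, fun z hz => h z ?_⟩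
    rw [minpoly.isIntegrallyClosed_eq_field_fractions' ℚ hint, aeval_map_algebraMap]
    exact hz

theorem pure_one : Pure 1 (1 : F) :=
  ⟨X - 1, by rw [← C_1]; exact monic_X_sub_C 1, by simp, fun z hz => by
    have : z = 1 := by simpa [sub_eq_zero] using hz
    rw [this]; simp⟩

theorem Pure.mul {c c' : ℝ} {y y' : F} (h : Pure c y) (h' : Pure c' y') :
    Pure (c * c') (y * y') := by
  rw [pure_iff] at h h' ⊢
  refine ⟨h.1.mul h'.1, fun z hz => ?_⟩
  have hs : ∀ s ∈ ({y, y'} : Set F), IsIntegral ℚ s ∧ ((minpoly ℚ s).map (algebraMap ℚ ℂ)).Splits := by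
    intro s hs
    refine ⟨?_, IsAlgClosed.splits _⟩
    rcases hs with rfl | rfl
    · exact h.1.tower_top
    · exact h'.1.tower_top
  have hy : y ∈ IntermediateField.adjoin ℚ ({y, y'} : Set F) :=
    IntermediateField.subset_adjoin ℚ _ (Or.inl rfl)
  have hy' : y' ∈ IntermediateField.adjoin ℚ ({y, y'} : Set F) :=
    IntermediateField.subset_adjoin ℚ _ (Or.inr rfl)
  obtain ⟨φ, hφ⟩ := IntermediateField.exists_algHom_adjoin_of_splits_of_aeval hs
    (mul_mem hy hy') hz
  have h1 : φ ⟨y, hy⟩ * φ ⟨y', hy'⟩ = z := by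
    rw [← map_mul, ← hφ]
    rfl
  have key : ∀ (x : F) (hx : x ∈ IntermediateField.adjoin ℚ ({y, y'} : Set F)),
      aeval (φ ⟨x, hx⟩) (minpoly ℚ x) = 0 := by
    intro x hx
    rw [aeval_algHom_apply]
    have h2 : aeval (⟨x, hx⟩ : IntermediateField.adjoin ℚ ({y, y'} : Set F)) (minpoly ℚ x) = 0 := by
      apply Subtype.val_injective
      have h3 := aeval_algebraMap_apply F (⟨x, hx⟩ : IntermediateField.adjoin ℚ ({y, y'} : Set F))
        (minpoly ℚ x)
      rw [IntermediateField.algebraMap_apply, minpoly.aeval] at h3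
      exact h3.symm
    rw [h2, map_zero]
  rw [← h1, norm_mul, mul_pow, h.2 _ (key y hy), h'.2 _ (key y' hy')]

theorem Pure.multiset_prod {c : ℝ} {s : Multiset F} (h : ∀ y ∈ s, Pure c y) :
    Pure (c ^ Multiset.card s) s.prod := by
  induction s using Multiset.induction_on with
  | empty => simpa using pure_one
  | cons a s ih =>
    rw [Multiset.prod_cons, Multiset.card_cons, pow_succ']
    exact (h a (Multiset.mem_cons_self _ _)).mul (ih fun y hy => h y (Multiset.mem_cons_of_mem hy))

theorem Pure.prod {ι : Type*} {s : Finset ι} {c : ι → ℝ} {f : ι → F}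
    (h : ∀ i ∈ s, Pure (c i) (f i)) : Pure (∏ i ∈ s, c i) (∏ i ∈ s, f i) := by
  classical
  induction s using Finset.induction_on with
  | empty => simpa using pure_one
  | insert a s ha ih =>
    rw [Finset.prod_insert ha, Finset.prod_insert ha]
    exact (h a (Finset.mem_insert_self _ _)).mul (ih fun i hi => h i (Finset.mem_insert_of_mem hi))

theorem pure_algebraMap {E : Type*} [Field E] [CharZero E] [Algebra F E] {c : ℝ} {y : F} :
    Pure c (algebraMap F E y) ↔ Pure c y := by
  have h : ∀ P : ℤ[X], aeval (algebraMap F E y) P = 0 ↔ aeval y P = 0 := by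
    intro P
    rw [aeval_algebraMap_apply]
    exact map_eq_zero _
  simp only [Pure, h]

/-- the constant term of a factor of a polynomial with all roots of absolute value `√c` -/
theorem pure_coeff_zero {c : ℝ} {P : ℤ[X]} (hP : P.Monic)
    (hc : ∀ z : ℂ, aeval z P = 0 → ‖z‖ ^ 2 = c) {Q : F[X]} (hQ : Q.Monic)
    (hQP : Q ∣ P.map (algebraMap ℤ F)) :
    Pure (c ^ Q.natDegree) ((-1) ^ Q.natDegree * Q.coeff 0) := by
  have hchar : CharZero (AlgebraicClosure F) := charZero_of_injective_algebraMap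
    (algebraMap F (AlgebraicClosure F)).injective
  rw [← pure_algebraMap (E := AlgebraicClosure F)]
  have hsp : (Q.map (algebraMap F (AlgebraicClosure F))).Splits := IsAlgClosed.splits _
  have h1 : algebraMap F (AlgebraicClosure F) ((-1) ^ Q.natDegree * Q.coeff 0) =
      (Q.map (algebraMap F (AlgebraicClosure F))).roots.prod := by
    have h2 := hsp.coeff_zero_eq_prod_roots_of_monic (hQ.map _)
    rw [natDegree_map, coeff_map] at h2
    rw [map_mul, map_pow, map_neg, map_one, h2, ← mul_assoc, ← mul_pow]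
    simp
  have h3 : Q.natDegree = Multiset.card (Q.map (algebraMap F (AlgebraicClosure F))).roots := by
    rw [← hsp.natDegree_eq_card_roots, natDegree_map]
  rw [h1, h3]
  apply Pure.multiset_prod
  intro y hy
  refine ⟨P, hP, ?_, hc⟩
  have h4 : aeval y Q = 0 := by
    have := (mem_roots'.1 hy).2
    rwa [IsRoot.def, eval_map_algebraMap] at this
  obtain ⟨R, hR⟩ := hQP
  have h5 : aeval y (P.map (algebraMap ℤ F)) = 0 := by rw [hR, map_mul, h4, zero_mul]
  rwa [aeval_map_algebraMap] at h5

end Pool.Agent.Y142
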