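import Pool.Agent.Y142.Iso
import Pool.Agent.Y142.Pure

/-!
# Isotropic relations between the roots of polynomials
-/

set_option autoImplicit false

namespace Pool.Agent.Y142

open Polynomial Module

theorem map_dualPoly {E E' : Type*} [Field E] [Field E'] (f : E →+* E') (s : E) (Q : E[X]) :
    (dualPoly s Q).map f = dualPoly (f s) (Q.map f) := by
  rw [dualPoly, dualPoly, Polynomial.map_mul, map_C, map_inv₀]
  have h1 : ∀ p : E[X], p.reverse.map f = (p.map f).reverse := by
    intro p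
    rw [reverse, reverse, reflect_map, natDegree_map]
  have h2 : (Q.map f).eval 0 = f (Q.eval 0) := by
    rw [← coeff_zero_eq_eval_zero, ← coeff_zero_eq_eval_zero, coeff_map]
  rw [h1, Polynomial.map_comp, Polynomial.map_mul, map_C, map_X, h2]

theorem dualPoly_mul {E : Type*} [Field E] (s : E) (Q R : E[X]) :
    dualPoly s (Q * R) = dualPoly s Q * dualPoly s R := by
  rw [dualPoly, dualPoly, dualPoly, mul_comp, reverse_mul_of_domain, eval_mul, mul_inv, C_mul]
  ring

theorem dualPoly_X_sub_C {E : Type*} [Field E] [Infinite E] {s α : E} (hs : s ≠ 0) (hα : α ≠ 0) :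
    dualPoly s (X - C α) = X - C (s / α) := by
  apply Polynomial.eq_of_infinite_eval_eq
  refine Set.Infinite.mono (s := ({0} : Set E)ᶜ) ?_ (Set.finite_singleton 0).infinite_compl
  intro t ht
  have ht0 : t ≠ 0 := ht
  rw [Set.mem_ofPred_eq, eval_dualPoly hs _ ht0, natDegree_X_sub_C]
  simp only [eval_sub, eval_X, eval_C]
  field_simp
  ring

theorem dualPoly_one {E : Type*} [Field E] (s : E) : dualPoly s (1 : E[X]) = 1 := by
  have h : (1 : E[X]).reverse = 1 := by rw [← C_1, reverse_C]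
  rw [dualPoly]
  simp [h]

theorem dualPoly_prod {E : Type*} [Field E] [Infinite E] {s : E} (hs : s ≠ 0) {T : Multiset E}
    (hT : ∀ α ∈ T, α ≠ 0) : dualPoly s (T.map fun α => X - C α).prod =
      ((T.map fun α => s / α).map fun α => X - C α).prod := by
  induction T using Multiset.induction_on with
  | empty => simpa using dualPoly_one s
  | cons a T ih =>
    rw [Multiset.map_cons, Multiset.prod_cons, dualPoly_mul, Multiset.map_cons, Multiset.map_cons,
      Multiset.prod_cons, dualPoly_X_sub_C hs (hT a (Multiset.mem_cons_self _ _)),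
      ih fun α hα => hT α (Multiset.mem_cons_of_mem hα)]

theorem aroots_dualPoly {E Ω : Type*} [Field E] [Field Ω] [Algebra E Ω] [IsAlgClosed Ω] {s : E}
    (hs : s ≠ 0) {Q : E[X]} (hQ : Q.Monic) (hQ0 : Q.eval 0 ≠ 0) :
    (dualPoly s Q).aroots Ω = (Q.aroots Ω).map fun α => algebraMap E Ω s / α := by
  have hinf : Infinite Ω := IsAlgClosed.instInfinite
  have h1 : Q.map (algebraMap E Ω) = ((Q.aroots Ω).map fun α => X - C α).prod :=
    (IsAlgClosed.splits _).eq_prod_roots_of_monic (hQ.map _)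
  have h2 : ∀ α ∈ Q.aroots Ω, α ≠ 0 := by
    intro α hα h0
    rw [h0, mem_aroots] at hα
    have h3 : aeval (0 : Ω) Q = algebraMap E Ω (Q.eval 0) := by
      rw [← map_zero (algebraMap E Ω), aeval_algebraMap_apply, coe_aeval_eq_eval]
    rw [h3] at hα
    exact hQ0 ((map_eq_zero _).1 hα.2)
  rw [aroots_def, map_dualPoly, h1, dualPoly_prod ((_root_.map_ne_zero _).2 hs) h2,
    roots_multiset_prod_X_sub_C]

/-- **Isotropic relations.**  `P i` is a finite family of polynomials with integer coefficients, and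
`s` and `d` are natural numbers.  An isotropic relation of size `d` over `F` is a family `Q i` of
monic polynomials of degree `d` over `F` such that the roots of `Q i` together with the numbers
`s / z`, for `z` a root of `Q i`, are (with multiplicities) among the roots of `P i`, and such that
the product of all roots of all `Q i` is, up to a root of unity, the square root of `s ^ (d * m)`. -/
def IsoRel (F Ω : Type) [Field F] [Field Ω] [Algebra F Ω] {m : ℕ} (P : Fin m → ℤ[X]) (s d : ℕ) :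
    Prop :=
  ∃ (Q : Fin m → F[X]) (n : ℕ), 0 < n ∧
    (∀ i, (Q i).Monic ∧ (Q i).natDegree = d ∧
      (Q i).aroots Ω + ((Q i).aroots Ω).map (fun z => (s : Ω) / z) ≤ (P i).aroots Ω) ∧
    (∏ i, ((Q i).aroots Ω).prod) ^ (2 * n) = (s : Ω) ^ (d * m * n)

theorem aroots_prod_sq {E Ω : Type*} [Field E] [Field Ω] [Algebra E Ω] [IsAlgClosed Ω] {Q : E[X]}
    (hQ : Q.Monic) : (Q.aroots Ω).prod ^ 2 = algebraMap E Ω (Q.eval 0) ^ 2 := by
  have hsp : (Q.map (algebraMap E Ω)).Splits := IsAlgClosed.splits _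
  have h2 := hsp.coeff_zero_eq_prod_roots_of_monic (hQ.map _)
  rw [natDegree_map, coeff_map, coeff_zero_eq_eval_zero] at h2
  rw [h2, mul_pow, ← pow_mul, mul_comm _ 2, pow_mul, neg_one_sq, one_pow, one_mul]

theorem isoRel_of_dvd {F Ω : Type} [Field F] [CharZero F] [Field Ω] [Algebra F Ω] [IsAlgClosed Ω]
    {m : ℕ} {P : Fin m → ℤ[X]} {s d : ℕ} (hs : s ≠ 0) (hP : ∀ i, (P i).Monic)
    (hP0 : ∀ i, (P i).eval 0 ≠ 0) {Q : Fin m → F[X]} {n : ℕ} (hn : 0 < n)
    (hQ : ∀ i, (Q i).Monic ∧ (Q i).natDegree = d ∧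
      Q i * dualPoly (s : F) (Q i) ∣ (P i).map (algebraMap ℤ F))
    (hprod : (∏ i, (Q i).eval 0) ^ (2 * n) = (s : F) ^ (d * m * n)) : IsoRel F Ω P s d := by
  have hs' : (s : F) ≠ 0 := by exact_mod_cast hs
  refine ⟨Q, n, hn, fun i => ⟨(hQ i).1, (hQ i).2.1, ?_⟩, ?_⟩
  · have hne : (P i).map (algebraMap ℤ F) ≠ 0 := ((hP i).map _).ne_zero
    have hne2 : ((P i).map (algebraMap ℤ F)).map (algebraMap F Ω) ≠ 0 :=
      (((hP i).map _).map _).ne_zero
    have hQ0 : (Q i).eval 0 ≠ 0 := by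
      intro h0
      obtain ⟨R, hR⟩ := (hQ i).2.2
      have h1 : ((P i).map (algebraMap ℤ F)).eval 0 = 0 := by
        rw [hR, eval_mul, eval_mul, h0, zero_mul, zero_mul]
      rw [← coeff_zero_eq_eval_zero, coeff_map, coeff_zero_eq_eval_zero] at h1
      exact hP0 i ((map_eq_zero_iff _ (algebraMap ℤ F).injective_int).1 h1)
    have h1 := aroots_dualPoly (Ω := Ω) hs' (hQ i).1 hQ0
    rw [map_natCast] at h1
    rw [← h1, aroots_def, aroots_def, ← roots_mul, ← Polynomial.map_mul]
    · have h2 : (P i).aroots Ω = (((P i).map (algebraMap ℤ F)).map (algebraMap F Ω)).roots := by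
        rw [aroots_def, Polynomial.map_map]
        congr 2
        exact RingHom.ext_int _ _
      rw [h2]
      exact roots.le_of_dvd hne2 (Polynomial.map_dvd _ (hQ i).2.2)
    · intro h3
      rw [← Polynomial.map_mul] at h3
      obtain ⟨R, hR⟩ := (hQ i).2.2
      apply hne2
      rw [hR, Polynomial.map_mul, h3, zero_mul]
  · rw [pow_mul, ← Finset.prod_pow, Finset.prod_congr rfl fun i _ => aroots_prod_sq (hQ i).1,
      Finset.prod_pow, ← map_prod, ← pow_mul, ← map_pow, hprod, map_pow, map_natCast]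

theorem exists_hom (k Ω : Type) [Field k] [Field Ω] [Algebra k Ω] [IsAlgClosed Ω] :
    Nonempty (AlgebraicClosure k →+* Ω) :=
  ⟨(IsAlgClosed.lift : AlgebraicClosure k →ₐ[k] Ω).toRingHom⟩

/-- isotropic relations over any algebraically closed field of characteristic zero give isotropic
relations over the complex numbers -/
theorem isoRel_complex {F Ω : Type} [Field F] [Field Ω] [CharZero Ω] [Algebra F Ω] [IsAlgClosed Ω]
    {m : ℕ} {P : Fin m → ℤ[X]} {s d : ℕ} (h : IsoRel F Ω P s d) :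
    IsoRel ℂ ℂ P s d := by
  classical
  obtain ⟨Q, n, hn, hQ, hprod⟩ := h
  obtain ⟨ι⟩ : Nonempty (AlgebraicClosure ℚ →+* Ω) := exists_hom ℚ Ω
  obtain ⟨j⟩ : Nonempty (AlgebraicClosure ℚ →+* ℂ) := exists_hom ℚ ℂ
  have hι : Function.Injective ι := ι.injective
  have hR : ∀ (E : Type) [Field E] [CharZero E] (f : AlgebraicClosure ℚ →+* E) (i : Fin m),
      (P i).aroots E = ((P i).aroots (AlgebraicClosure ℚ)).map f := by
    intro E _ _ f i
    have h1 : ((P i).map (algebraMap ℤ (AlgebraicClosure ℚ))).Splits := IsAlgClosed.splits _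
    have h2 := h1.roots_map f
    rw [Polynomial.map_map] at h2
    rw [aroots_def, aroots_def]
    have h3 : f.comp (algebraMap ℤ (AlgebraicClosure ℚ)) = algebraMap ℤ E :=
      RingHom.ext_int _ _
    rw [h3] at h2
    exact h2
  obtain ⟨T, hT⟩ : ∃ T : Fin m → Multiset (AlgebraicClosure ℚ),
      ∀ i, (T i).map ι = (Q i).aroots Ω := by
    refine ⟨fun i => ((Q i).aroots Ω).map (Function.invFun ι), fun i => ?_⟩
    rw [Multiset.map_map]
    conv_rhs => rw [← Multiset.map_id ((Q i).aroots Ω)]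
    apply Multiset.map_congr rfl
    intro z hz
    have h1 : z ∈ (P i).aroots Ω :=
      Multiset.mem_of_le (hQ i).2.2 (Multiset.mem_add.2 (Or.inl hz))
    rw [hR Ω ι i] at h1
    obtain ⟨y, -, hy⟩ := Multiset.mem_map.1 h1
    exact Function.invFun_eq ⟨y, hy⟩
  have hTle : ∀ i, T i + (T i).map (fun z => (s : AlgebraicClosure ℚ) / z) ≤
      (P i).aroots (AlgebraicClosure ℚ) := by
    intro i
    rw [← Multiset.map_le_map_iff hι, ← hR Ω ι i, Multiset.map_add, hT, Multiset.map_map]
    refine le_trans (le_of_eq ?_) (hQ i).2.2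
    congr 1
    conv_rhs => rw [← hT i, Multiset.map_map]
    apply Multiset.map_congr rfl
    intro z _
    simp
  have hprodT : (∏ i, (T i).prod) ^ (2 * n) = (s : AlgebraicClosure ℚ) ^ (d * m * n) := by
    apply hι
    rw [map_pow, map_prod, map_pow, map_natCast, ← hprod]
    congr 1
    refine Finset.prod_congr rfl fun i _ => ?_
    rw [map_multiset_prod, hT]
  have hroots : ∀ i, ((((T i).map j).map fun z => X - C z).prod).aroots ℂ = (T i).map j := by
    intro i
    rw [aroots_def, Algebra.algebraMap_self, Polynomial.map_id, roots_multiset_prod_X_sub_C]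
  refine ⟨fun i => (((T i).map j).map fun z => X - C z).prod, n, hn, fun i => ⟨?_, ?_, ?_⟩, ?_⟩
  · exact monic_multisetProd_X_sub_C _
  · rw [natDegree_multiset_prod_X_sub_C_eq_card, Multiset.card_map]
    have h1 := congrArg Multiset.card (hT i)
    rw [Multiset.card_map] at h1
    rw [h1, aroots_def, ← (IsAlgClosed.splits _).natDegree_eq_card_roots, natDegree_map, (hQ i).2.1]
  · rw [hroots, hR ℂ j i]
    have h1 := (Multiset.map_le_map_iff j.injective).2 (hTle i)
    rw [Multiset.map_add] at h1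
    refine le_trans (le_of_eq ?_) h1
    congr 1
    rw [Multiset.map_map, Multiset.map_map]
    apply Multiset.map_congr rfl
    intro z _
    simp
  · simp only [hroots]
    have h1 := congrArg j hprodT
    rw [map_pow, map_prod, map_pow, map_natCast] at h1
    rw [← h1]
    congr 1
    refine Finset.prod_congr rfl fun i _ => ?_
    rw [map_multiset_prod]

/-- a criterion for the absence of isotropic relations -/
theorem not_isoRel_of_signs {m : ℕ} {P : Fin m → ℤ[X]} {s : ℕ} (hs : s ≠ 0) (i₀ : Fin m)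
    (hsq : ((P i₀).aroots ℂ).Nodup)
    (hz : ∀ z ∈ (P i₀).aroots ℂ, (∀ n : ℕ, 0 < n → (z ^ 2 / s) ^ n ≠ 1) ∧
      (∀ j ≠ i₀, z ∉ (P j).aroots ℂ) ∧
      ∃ τ : ℂ ≃+* ℂ, τ z = s / z ∧ ∀ j, ∀ y ∈ (P j).aroots ℂ, y ≠ z → y ≠ s / z → τ y = y)
    {d : ℕ} (hd : 0 < d) : ¬ IsoRel ℂ ℂ P s d := by
  classical
  rintro ⟨Q, n, hn, hQ, hprod⟩
  have hs' : (s : ℂ) ≠ 0 := by exact_mod_cast hs
  have hcard : Multiset.card ((Q i₀).aroots ℂ) = d := by
    rw [← (hQ i₀).2.1, aroots_def, ← (IsAlgClosed.splits _).natDegree_eq_card_roots, natDegree_map]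
  obtain ⟨z, hzT⟩ : ∃ z, z ∈ (Q i₀).aroots ℂ := by
    rw [← Multiset.card_pos_iff_exists_mem, hcard]
    exact hd
  have hzP : z ∈ (P i₀).aroots ℂ :=
    Multiset.mem_of_le (hQ i₀).2.2 (Multiset.mem_add.2 (Or.inl hzT))
  obtain ⟨hroot, hother, τ, hτz, hτ⟩ := hz z hzP
  have hz0 : z ≠ 0 := by
    intro h0
    have h1 := (hz z hzP).1
    have h2 : s / z ∈ (P i₀).aroots ℂ := Multiset.mem_of_le (hQ i₀).2.2
      (Multiset.mem_add.2 (Or.inr (Multiset.mem_map.2 ⟨z, hzT, rfl⟩)))
    rw [h0, div_zero] at h2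
    have h3 : (0 : ℂ) ∈ (Q i₀).aroots ℂ := h0 ▸ hzT
    have h4 : (0 : ℂ) ∈ ((Q i₀).aroots ℂ).map (fun z => (s : ℂ) / z) :=
      Multiset.mem_map.2 ⟨0, h3, div_zero _⟩
    have h5 := Multiset.nodup_of_le (hQ i₀).2.2 hsq
    exact Multiset.disjoint_left.1 (Multiset.nodup_add.1 h5).2.2 h3 h4
  have hnd := Multiset.nodup_add.1 (Multiset.nodup_of_le (hQ i₀).2.2 hsq)
  have hsz : s / z ∉ (Q i₀).aroots ℂ := fun h =>
    Multiset.disjoint_left.1 hnd.2.2 h (Multiset.mem_map.2 ⟨z, hzT, rfl⟩)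
  -- the effect of `τ`
  have h1 : ∀ j ≠ i₀, ((Q j).aroots ℂ).map τ = (Q j).aroots ℂ := by
    intro j hj
    conv_rhs => rw [← Multiset.map_id ((Q j).aroots ℂ)]
    apply Multiset.map_congr rfl
    intro y hy
    have hyP : y ∈ (P j).aroots ℂ :=
      Multiset.mem_of_le (hQ j).2.2 (Multiset.mem_add.2 (Or.inl hy))
    refine hτ j y hyP ?_ ?_
    · rintro rfl
      exact hother j hj hyP
    · rintro rfl
      apply hother j hj
      refine Multiset.mem_of_le (hQ j).2.2
        (Multiset.mem_add.2 (Or.inr (Multiset.mem_map.2 ⟨_, hy, ?_⟩)))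
      rw [div_div_cancel₀ hs']
  obtain ⟨T, hT⟩ := Multiset.exists_cons_of_mem hzT
  have hzT' : z ∉ T := by
    have := hnd.1
    rw [hT, Multiset.nodup_cons] at this
    exact this.1
  have h2 : T.map τ = T := by
    conv_rhs => rw [← Multiset.map_id T]
    apply Multiset.map_congr rfl
    intro y hy
    have hyQ : y ∈ (Q i₀).aroots ℂ := by
      rw [hT]
      exact Multiset.mem_cons_of_mem hy
    have hyP : y ∈ (P i₀).aroots ℂ :=
      Multiset.mem_of_le (hQ i₀).2.2 (Multiset.mem_add.2 (Or.inl hyQ))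
    refine hτ i₀ y hyP ?_ ?_
    · rintro rfl
      exact hzT' hy
    · rintro rfl
      exact hsz hyQ
  have h3 : τ (∏ i, ((Q i).aroots ℂ).prod) = (∏ i, ((Q i).aroots ℂ).prod) * ((s / z) / z) := by
    rw [map_prod, ← Finset.mul_prod_erase Finset.univ _ (Finset.mem_univ i₀),
      ← Finset.mul_prod_erase Finset.univ (fun i => ((Q i).aroots ℂ).prod) (Finset.mem_univ i₀)]
    have h4 : ∏ x ∈ Finset.univ.erase i₀, τ ((Q x).aroots ℂ).prod =
        ∏ x ∈ Finset.univ.erase i₀, ((Q x).aroots ℂ).prod := by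
      refine Finset.prod_congr rfl fun j hj => ?_
      rw [map_multiset_prod, h1 j (Finset.ne_of_mem_erase hj)]
    rw [h4, map_multiset_prod, hT, Multiset.map_cons, Multiset.prod_cons, Multiset.prod_cons, h2,
      hτz]
    field_simp
  have h4 := congrArg τ hprod
  rw [map_pow, h3, map_pow, map_natCast, mul_pow, hprod] at h4
  have h5 : ((s : ℂ) / z / z) ^ (2 * n) = 1 := by
    have h6 : (s : ℂ) ^ (d * m * n) ≠ 0 := pow_ne_zero _ hs'
    exact mul_left_cancel₀ h6 (by rw [h4, mul_one])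
  apply hroot (2 * n) (by omega)
  have h6 : (z ^ 2 / s : ℂ) = ((s : ℂ) / z / z)⁻¹ := by
    field_simp
  rw [h6, inv_pow, h5, inv_one]

end Pool.Agent.Y142
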