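import Pool.Agent.Y142.Core
import Pool.Agent.Y142.Rel

/-!
# Semisimplicity of pure polarized `ℓ`-adic representations without isotropic relations
-/

set_option autoImplicit false

namespace Pool.Agent.Y142

open NumberField Filter Topology IsDedekindDomain Polynomial Module
open Pool.Agent.W401.Cheb

variable {K : Type} [Field K] [NumberField K] {ℓ : ℕ} [hℓ : Fact ℓ.Prime]

theorem two_mul_finrank_le {F V : Type*} [Field F] [AddCommGroup V] [Module F V]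
    [FiniteDimensional F V] {B : LinearMap.BilinForm F V} (hB : B.Nondegenerate)
    {W : Submodule F V} (hW : W ≤ B.orthogonal W) : 2 * finrank F W ≤ finrank F V := by
  have h1 := LinearMap.BilinForm.finrank_orthogonal hB W
  have h2 := Submodule.finrank_mono hW
  have h3 := Submodule.finrank_le W
  omega

theorem semisimple_A {Γ : Type*} [Group Γ] (θ : GK K →* Γ)
    {V : Type*} [AddCommGroup V] [Module ℚ_[ℓ] V] [FiniteDimensional ℚ_[ℓ] V]
    (ρ : Γ →* (V →ₗ[ℚ_[ℓ]] V))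
    (hc : ∀ (φ : Dual ℚ_[ℓ] V) (x : V), Continuous fun g => φ (ρ (θ g) x))
    (B : LinearMap.BilinForm ℚ_[ℓ] V) (hB : B.Nondegenerate) (hB₀ : B.IsRefl)
    (χ : Γ → ℚ_[ℓ]) (hχ : ∀ g x y, B (ρ g x) (ρ g y) = χ g * B x y)
    {w : ℕ} (hw : 0 < w) {S : Set (HeightOneSpectrum (𝓞 K))} (hS : S.Finite)
    (P : HeightOneSpectrum (𝓞 K) → ℤ[X])
    (hP : ∀ v ∉ S, (P v).Monic ∧
      (∀ z : ℂ, aeval z (P v) = 0 → ‖z‖ ^ 2 = (Ideal.absNorm v.asIdeal : ℝ) ^ w) ∧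
      ∀ σ : GK K, IsFrob v σ → (ρ (θ σ⁻¹)).charpoly = (P v).map (algebraMap ℤ ℚ_[ℓ]) ∧
        χ (θ σ⁻¹) = (Ideal.absNorm v.asIdeal : ℚ_[ℓ]) ^ w)
    (hno : ∀ d : ℕ, 0 < d → 2 * d ≤ finrank ℚ_[ℓ] V → Even (w * d * finrank ℚ K) → ∃ (p : ℕ)
      (v : Fin (finrank ℚ K) → HeightOneSpectrum (𝓞 K)), p.Prime ∧ Function.Injective v ∧
      (∀ i, (p : 𝓞 K) ∈ (v i).asIdeal ∧ v i ∉ S) ∧
      ¬ (IsoRel ℂ ℂ (fun i => P (v i)) (p ^ w) d ∧
        IsoRel ℚ_[ℓ] (AlgebraicClosure ℚ_[ℓ]) (fun i => P (v i)) (p ^ w) d))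
    (U : Submodule ℚ_[ℓ] V) (hU : ∀ g, U ≤ U.comap (ρ g)) :
    IsCompl U (B.orthogonal U) ∧ ∀ g, B.orthogonal U ≤ (B.orthogonal U).comap (ρ g) := by
  refine isCompl_of_no_isotropic ρ χ hB₀ hχ ?_ U hU
  intro W hW hiso
  by_contra hW0
  have hd : 0 < finrank ℚ_[ℓ] W := by
    rw [Nat.pos_iff_ne_zero]
    intro h0
    exact hW0 (Submodule.finrank_eq_zero.1 h0)
  obtain ⟨heven, hcore⟩ := isotropic_core (ρ.comp θ) hc B hB (fun g => χ (θ g))
    (fun g x y => hχ (θ g) x y) hw hS P hP W (fun g => hW (θ g)) hiso hW0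
  obtain ⟨p, v, hp, hv, hpv, hnot⟩ := hno (finrank ℚ_[ℓ] W) hd (two_mul_finrank_le hB hiso) heven
  obtain ⟨Q, n, hn, hQ, hprod⟩ := hcore p hp v hv hpv
  have h1 : IsoRel ℚ_[ℓ] (AlgebraicClosure ℚ_[ℓ]) (fun i => P (v i)) (p ^ w)
      (finrank ℚ_[ℓ] W) := by
    have hchar : CharZero (AlgebraicClosure ℚ_[ℓ]) := charZero_of_injective_algebraMap
      (algebraMap ℚ_[ℓ] (AlgebraicClosure ℚ_[ℓ])).injective
    refine isoRel_of_dvd (pow_ne_zero _ hp.ne_zero) (fun i => (hP _ (hpv i).2).1) (fun i => ?_) hn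
      (Q := Q) (fun i => ?_) ?_
    · intro h0
      have h2 := (hP _ (hpv i).2).2.1 0 (by
        have h3 : aeval (0 : ℂ) (P (v i)) = algebraMap ℤ ℂ ((P (v i)).eval 0) := by
          rw [← map_zero (algebraMap ℤ ℂ), aeval_algebraMap_apply, coe_aeval_eq_eval]
        rw [h3, h0, map_zero])
      rw [norm_zero, zero_pow (by norm_num)] at h2
      have h4 : (0 : ℝ) < (Ideal.absNorm (v i).asIdeal : ℝ) ^ w := by
        have : 0 < Ideal.absNorm (v i).asIdeal := by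
          rw [Nat.pos_iff_ne_zero]
          intro h5
          exact (v i).ne_bot (Ideal.absNorm_eq_zero_iff.1 h5)
        positivity
      exact absurd h2 h4.ne
    · rw [Nat.cast_pow]
      exact hQ i
    · rw [Nat.cast_pow]
      exact hprod
  exact hnot ⟨isoRel_complex h1, h1⟩

end Pool.Agent.Y142
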