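import Mathlib

/-!
# Stable isotropic subspaces for a group of similitudes
-/

set_option autoImplicit false

namespace Pool.Agent.Y142

open Polynomial Module

variable {F : Type*} [Field F]

/-- for monic `Q` with roots `α`, the monic polynomial with roots `s / α` -/
noncomputable def dualPoly (s : F) (Q : F[X]) : F[X] :=
  C (Q.eval 0)⁻¹ * (Q.comp (C s * X)).reverse

theorem eval_dualPoly {s : F} (hs : s ≠ 0) (Q : F[X]) {t : F} (ht : t ≠ 0) :
    (dualPoly s Q).eval t = (Q.eval 0)⁻¹ * (t ^ Q.natDegree * Q.eval (s / t)) := by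
  rw [dualPoly, eval_mul, eval_C]
  congr 1
  have hinv : Invertible (t⁻¹) := invertibleOfNonzero (inv_ne_zero ht)
  have h1 := eval₂_reverse_mul_pow (RingHom.id F) (t⁻¹) (Q.comp (C s * X))
  have h2 : ⅟(t⁻¹) = t := by rw [invOf_eq_inv, inv_inv]
  have h3 : (Q.comp (C s * X)).natDegree = Q.natDegree := by
    rw [natDegree_comp, natDegree_C_mul hs, natDegree_X, mul_one]
  rw [h2, h3, ← eval, ← eval] at h1
  have h4 : (t⁻¹) ^ Q.natDegree ≠ 0 := pow_ne_zero _ (inv_ne_zero ht)
  apply mul_right_cancel₀ h4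
  rw [h1, eval_comp, eval_mul, eval_C, eval_X, ← div_eq_mul_inv, inv_pow]
  field_simp

theorem charpoly_eq_mul {V : Type*} [AddCommGroup V] [Module F V] [FiniteDimensional F V]
    [Infinite F] {W : Submodule F V} {e : V →ₗ[F] V} (he : W ≤ W.comap e) :
    e.charpoly = (e.restrict he).charpoly * (W.mapQ W e he).charpoly := by
  apply Polynomial.funext
  intro t
  rw [eval_mul, LinearMap.eval_charpoly, LinearMap.eval_charpoly, LinearMap.eval_charpoly]
  have h1 : W ≤ W.comap (algebraMap F (End F V) t - e) := by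
    intro x hx
    rw [Submodule.mem_comap, LinearMap.sub_apply, Module.algebraMap_end_apply]
    exact W.sub_mem (W.smul_mem _ hx) (he hx)
  rw [LinearMap.det_eq_det_mul_det W _ h1]
  congr 2
  apply LinearMap.ext
  intro x
  obtain ⟨x, rfl⟩ := W.mkQ_surjective x
  simp

theorem charpoly_dvd_of_surjective {V V' : Type*} [AddCommGroup V] [Module F V]
    [FiniteDimensional F V] [AddCommGroup V'] [Module F V'] [FiniteDimensional F V'] [Infinite F]
    {e : V →ₗ[F] V} {e' : V' →ₗ[F] V'} (π : V →ₗ[F] V') (hπ : Function.Surjective π)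
    (hc : ∀ x, π (e x) = e' (π x)) : e'.charpoly ∣ e.charpoly := by
  have he : LinearMap.ker π ≤ (LinearMap.ker π).comap e := by
    intro x hx
    rw [Submodule.mem_comap, LinearMap.mem_ker, hc, LinearMap.mem_ker.1 hx, map_zero]
  rw [charpoly_eq_mul he]
  have h1 : e'.charpoly = ((LinearMap.ker π).mapQ (LinearMap.ker π) e he).charpoly := by
    rw [← LinearEquiv.charpoly_conj (π.quotKerEquivOfSurjective hπ)]
    congr 1
    apply LinearMap.ext
    intro y
    obtain ⟨x, rfl⟩ := hπ y
    rw [LinearEquiv.conj_apply_apply]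
    have h2 : (π.quotKerEquivOfSurjective hπ).symm (π x) = (LinearMap.ker π).mkQ x := by
      rw [LinearEquiv.symm_apply_eq]
      rfl
    rw [h2, Submodule.mkQ_apply, Submodule.mapQ_apply]
    exact (hc x).symm
  rw [h1]
  exact dvd_mul_left _ _

theorem charpoly_dual {W : Type*} [AddCommGroup W] [Module F W] [FiniteDimensional F W]
    [Infinite F] (e : W ≃ₗ[F] W) {s : F} (hs : s ≠ 0) :
    (s • (e.symm : W →ₗ[F] W).dualMap).charpoly = dualPoly s (e : W →ₗ[F] W).charpoly := by
  apply Polynomial.eq_of_infinite_eval_eq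
  refine Set.Infinite.mono (s := ({0} : Set F)ᶜ) ?_ (Set.finite_singleton 0).infinite_compl
  intro t ht
  have ht0 : t ≠ 0 := ht
  rw [Set.mem_ofPred_eq, eval_dualPoly hs _ ht0, LinearMap.eval_charpoly, LinearMap.eval_charpoly,
    LinearMap.eval_charpoly, LinearMap.charpoly_natDegree, map_zero, zero_sub]
  have h1 : algebraMap F (End F (Dual F W)) t - s • (e.symm : W →ₗ[F] W).dualMap =
      (algebraMap F (End F W) t - s • (e.symm : W →ₗ[F] W)).dualMap := by
    apply LinearMap.ext
    intro φ
    apply LinearMap.ext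
    intro x
    simp
  rw [h1, LinearMap.det_dualMap]
  have h2 : (-(e : W →ₗ[F] W)).det ≠ 0 := by
    have h3 : (-(e : W →ₗ[F] W)) = ((-1 : F) • (e : W →ₗ[F] W)) := by simp
    rw [h3, LinearMap.det_smul]
    exact mul_ne_zero (pow_ne_zero _ (by simp)) (LinearEquiv.isUnit_det' e).ne_zero
  rw [eq_inv_mul_iff_mul_eq₀ h2, ← LinearMap.det_comp, ← LinearMap.det_smul]
  congr 1
  apply LinearMap.ext
  intro x
  simp only [LinearMap.comp_apply, LinearMap.sub_apply, LinearMap.neg_apply, LinearMap.smul_apply,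
    Module.algebraMap_end_apply, LinearEquiv.coe_coe, smul_sub, map_sub, map_smul,
    LinearEquiv.apply_symm_apply, smul_smul]
  rw [mul_div_cancel₀ s ht0]
  module

variable {V : Type*} [AddCommGroup V] [Module F V] [FiniteDimensional F V]
  {B : LinearMap.BilinForm F V} {e : V →ₗ[F] V} {s : F} {W : Submodule F V}

omit [FiniteDimensional F V] in
theorem injective_of_similitude (hB : B.Nondegenerate) (hs : s ≠ 0)
    (he : ∀ x y, B (e x) (e y) = s * B x y) : Function.Injective e := by
  rw [← LinearMap.ker_eq_bot, LinearMap.ker_eq_bot']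
  intro x hx
  apply hB.1
  intro y
  have h1 := he x y
  rw [hx, map_zero, LinearMap.zero_apply] at h1
  exact (mul_eq_zero.1 h1.symm).resolve_left hs

theorem charpoly_mul_dual_dvd [Infinite F] (hB : B.Nondegenerate) (hs : s ≠ 0)
    (he : ∀ x y, B (e x) (e y) = s * B x y) (hW : W ≤ W.comap e) (hiso : W ≤ B.orthogonal W) :
    (e.restrict hW).charpoly * dualPoly s (e.restrict hW).charpoly ∣ e.charpoly := by
  have hinj : Function.Injective (e.restrict hW) := by
    intro x y hxy
    apply Subtype.ext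
    apply injective_of_similitude hB hs he
    exact congrArg Subtype.val hxy
  let eW : W ≃ₗ[F] W := LinearEquiv.ofInjectiveEndo (e.restrict hW) hinj
  have heW : (eW : W →ₗ[F] W) = e.restrict hW := by
    apply LinearMap.ext; intro x; rfl
  rw [charpoly_eq_mul hW]
  apply mul_dvd_mul_left
  rw [← heW, ← charpoly_dual eW hs]
  -- the pairing
  let Φ : V →ₗ[F] Dual F W := (W.subtype.dualMap).comp (LinearMap.flip B)
  have hΦ : ∀ v (w : W), Φ v w = B w v := fun v w => rfl
  have hker : W ≤ LinearMap.ker Φ := by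
    intro v hv
    rw [LinearMap.mem_ker]
    apply LinearMap.ext
    intro w
    rw [hΦ]
    exact hiso hv w w.2
  have hΦs : Function.Surjective Φ := by
    have h1 : Function.Surjective (W.subtype.dualMap) :=
      LinearMap.dualMap_surjective_of_injective W.subtype_injective
    have h2 : Function.Surjective (LinearMap.flip B) := by
      have h3 : Function.Injective (LinearMap.flip B) := by
        rw [← LinearMap.ker_eq_bot, LinearMap.ker_eq_bot']
        intro x hx
        apply hB.2
        intro y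
        exact LinearMap.congr_fun hx y
      exact (LinearMap.injective_iff_surjective_of_finrank_eq_finrank
        (Subspace.dual_finrank_eq).symm).1 h3
    exact h1.comp h2
  have hΦc : ∀ v, Φ (e v) = (s • (eW.symm : W →ₗ[F] W).dualMap) (Φ v) := by
    intro v
    apply LinearMap.ext
    intro w
    obtain ⟨w, rfl⟩ := eW.surjective w
    have h1 : Φ (e v) (eW w) = B (e w) (e v) := rfl
    rw [h1, he]
    simp only [LinearMap.smul_apply, LinearMap.dualMap_apply', LinearMap.comp_apply,
      LinearEquiv.coe_coe, LinearEquiv.symm_apply_apply, smul_eq_mul]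
    rw [hΦ]
  refine charpoly_dvd_of_surjective (W.liftQ Φ hker) ?_ ?_
  · intro φ
    obtain ⟨v, rfl⟩ := hΦs φ
    exact ⟨W.mkQ v, rfl⟩
  · intro x
    obtain ⟨x, rfl⟩ := W.mkQ_surjective x
    exact hΦc x

/-- if there is no nonzero stable isotropic subspace, then orthogonal complements of stable
subspaces are stable complements -/
theorem isCompl_of_no_isotropic {Γ : Type*} [Group Γ] (ρ : Γ →* (V →ₗ[F] V)) (χ : Γ → F)
    (hB₀ : B.IsRefl)
    (hχ : ∀ g x y, B (ρ g x) (ρ g y) = χ g * B x y)
    (hno : ∀ W : Submodule F V, (∀ g, W ≤ W.comap (ρ g)) → W ≤ B.orthogonal W → W = ⊥)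
    (U : Submodule F V) (hU : ∀ g, U ≤ U.comap (ρ g)) :
    IsCompl U (B.orthogonal U) ∧ ∀ g, B.orthogonal U ≤ (B.orthogonal U).comap (ρ g) := by
  have h2 : ∀ g, B.orthogonal U ≤ (B.orthogonal U).comap (ρ g) := by
    intro g x hx
    rw [Submodule.mem_comap, LinearMap.BilinForm.mem_orthogonal_iff]
    intro y hy
    have h3 : ρ g (ρ g⁻¹ y) = y := by
      rw [← Module.End.mul_apply, ← map_mul, mul_inv_cancel, map_one, Module.End.one_apply]
    rw [← h3, hχ]
    have h4 : B (ρ g⁻¹ y) x = 0 := hx _ (hU g⁻¹ hy)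
    rw [h4, mul_zero]
  refine ⟨?_, h2⟩
  rw [LinearMap.BilinForm.isCompl_orthogonal_iff_disjoint hB₀, disjoint_iff]
  apply hno
  · intro g x hx
    exact ⟨hU g hx.1, h2 g hx.2⟩
  · intro x hx y hy
    exact hx.2 y hy.1

end Pool.Agent.Y142
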