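import Pool.Agent.Y142.Parity
import Pool.Agent.Y142.Iso

/-!
# Stable isotropic subspaces of pure `ℓ`-adic representations
-/

set_option autoImplicit false

namespace Pool.Agent.Y142

open NumberField Filter Topology IsDedekindDomain Polynomial Module
open Pool.Agent.W569.FM (GF)
open Pool.Agent.W401.Cheb

section general

variable {F : Type*} [Field F] {V : Type*} [AddCommGroup V] [Module F V] [FiniteDimensional F V]

/-- the restriction of a representation to a stable subspace -/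
noncomputable def resRep {G : Type*} [Group G] (ρ : G →* (V →ₗ[F] V)) (W : Submodule F V)
    (hW : ∀ g, W ≤ W.comap (ρ g)) : G →* (W →ₗ[F] W) where
  toFun g := (ρ g).restrict (hW g)
  map_one' := by
    apply LinearMap.ext
    intro x
    apply Subtype.ext
    simp
  map_mul' g h := by
    apply LinearMap.ext
    intro x
    apply Subtype.ext
    simp

omit [FiniteDimensional F V] in
theorem resRep_apply {G : Type*} [Group G] (ρ : G →* (V →ₗ[F] V)) (W : Submodule F V)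
    (hW : ∀ g, W ≤ W.comap (ρ g)) (g : G) : resRep ρ W hW g = (ρ g).restrict (hW g) := rfl

/-- the determinant of the restriction of a representation to a stable subspace -/
noncomputable def detRep {G : Type*} [Group G] (ρ : G →* (V →ₗ[F] V)) (W : Submodule F V)
    (hW : ∀ g, W ≤ W.comap (ρ g)) : G →* Fˣ :=
  (LinearMap.det.comp (resRep ρ W hW)).toHomUnits

omit [FiniteDimensional F V] in
theorem coe_detRep {G : Type*} [Group G] (ρ : G →* (V →ₗ[F] V)) (W : Submodule F V)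
    (hW : ∀ g, W ≤ W.comap (ρ g)) (g : G) :
    (detRep ρ W hW g : F) = LinearMap.det ((ρ g).restrict (hW g)) := rfl

theorem continuous_detRep [TopologicalSpace F] [IsTopologicalRing F] {G : Type*} [Group G]
    [TopologicalSpace G] (ρ : G →* (V →ₗ[F] V)) (W : Submodule F V)
    (hW : ∀ g, W ≤ W.comap (ρ g))
    (hc : ∀ (φ : Dual F V) (x : V), Continuous fun g => φ (ρ g x)) :
    Continuous fun g => (detRep ρ W hW g : F) := by
  classical
  let b := Module.finBasis F W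
  have h1 : (fun g => (detRep ρ W hW g : F)) =
      fun g => (LinearMap.toMatrix b b ((ρ g).restrict (hW g))).det := by
    funext g
    rw [coe_detRep, LinearMap.det_toMatrix]
  rw [h1]
  apply Continuous.matrix_det
  apply continuous_matrix
  intro i j
  obtain ⟨φ, hφ⟩ := LinearMap.exists_extend (b.coord i)
  refine (hc φ (b j : V)).congr fun g => ?_
  rw [LinearMap.toMatrix_apply]
  have h2 : φ (((ρ g).restrict (hW g) (b j) : W) : V) = b.coord i ((ρ g).restrict (hW g) (b j)) := by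
    rw [← hφ]
    rfl
  exact h2

theorem det_eq_sign_coeff (e : V →ₗ[F] V) :
    LinearMap.det e = (-1) ^ e.charpoly.natDegree * e.charpoly.coeff 0 := by
  rw [coeff_zero_eq_eval_zero, LinearMap.eval_charpoly, map_zero, zero_sub,
    LinearMap.charpoly_natDegree]
  have h3 : -e = ((-1 : F) • e) := by simp
  rw [h3, LinearMap.det_smul, ← mul_assoc, ← mul_pow]
  simp

theorem continuous_bilin [TopologicalSpace F] [IsTopologicalRing F] {G : Type*} [Group G]
    [TopologicalSpace G] (ρ : G →* (V →ₗ[F] V)) (B : LinearMap.BilinForm F V)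
    (hc : ∀ (φ : Dual F V) (x : V), Continuous fun g => φ (ρ g x)) (x y : V) :
    Continuous fun g => B (ρ g x) (ρ g y) := by
  let b := Module.finBasis F V
  have h1 : (fun g => B (ρ g x) (ρ g y)) = fun g => ∑ i, ∑ j,
      b.coord i (ρ g x) * (b.coord j (ρ g y) * B (b i) (b j)) := by
    funext g
    conv_lhs => rw [← b.sum_repr (ρ g x), ← b.sum_repr (ρ g y)]
    rw [map_sum, Finset.sum_comm]
    refine Finset.sum_congr rfl fun j _ => ?_
    rw [map_sum, LinearMap.sum_apply]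
    refine Finset.sum_congr rfl fun i _ => ?_
    rw [map_smul, map_smul, LinearMap.smul_apply, smul_eq_mul, smul_eq_mul, mul_left_comm]
    rfl
  rw [h1]
  refine continuous_finsetSum _ fun i _ => continuous_finsetSum _ fun j _ => ?_
  exact (hc _ _).mul ((hc _ _).mul continuous_const)

end general

variable {K : Type} [Field K] [NumberField K] {ℓ : ℕ} [hℓ : Fact ℓ.Prime]

omit [NumberField K] in
/-- an open subgroup whose elements act by matrices close to the identity -/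
theorem exists_near_subgroup {V : Type*} [AddCommGroup V] [Module ℚ_[ℓ] V]
    [FiniteDimensional ℚ_[ℓ] V] (ρ : GK K →* (V →ₗ[ℚ_[ℓ]] V))
    (hc : ∀ (φ : Dual ℚ_[ℓ] V) (x : V), Continuous fun g => φ (ρ g x)) {ε : ℝ} (hε : 0 < ε) :
    ∃ N : Subgroup (GK K), IsOpen (N : Set (GK K)) ∧ ∀ g ∈ N, ∀ z : PadicAlgCl ℓ,
      aeval z (ρ g).charpoly = 0 → ‖z - 1‖ ≤ ε := by
  classical
  let b := Module.finBasis ℚ_[ℓ] V
  have h1 : {g : GK K | ∀ i j, ‖(LinearMap.toMatrix b b (ρ g) - 1) i j‖ < ε} ∈ 𝓝 (1 : GK K) := by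
    simp only [Set.ofPred_forall]
    rw [Filter.iInter_mem]
    intro i
    rw [Filter.iInter_mem]
    intro j
    have h2 : Continuous fun g => ‖(LinearMap.toMatrix b b (ρ g) - 1) i j‖ := by
      apply Continuous.norm
      have h3 : (fun g => (LinearMap.toMatrix b b (ρ g) - 1) i j) =
          fun g => b.coord i (ρ g (b j)) - (1 : Matrix _ _ ℚ_[ℓ]) i j := by
        funext g
        rw [Matrix.sub_apply, LinearMap.toMatrix_apply]
        rfl
      rw [h3]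
      exact (hc _ _).sub continuous_const
    have h3 : ‖(LinearMap.toMatrix b b (ρ 1) - 1) i j‖ < ε := by
      have h4 : LinearMap.toMatrix b b (ρ 1) = 1 := by
        rw [map_one]
        exact LinearMap.toMatrix_one b
      rw [h4, sub_self, Matrix.zero_apply, norm_zero]
      exact hε
    exact (isOpen_lt h2 continuous_const).mem_nhds h3
  rw [krullTopology_mem_nhds_one_iff] at h1
  obtain ⟨E, hE, hE2⟩ := h1
  refine ⟨E.fixingSubgroup, E.fixingSubgroup_isOpen, fun g hg z hz => ?_⟩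
  have h3 := hE2 hg
  rw [← LinearMap.charpoly_toMatrix (ρ g) b] at hz
  exact near_of_charpoly hε.le (fun i j => (h3 i j).le) hz

/-- the determinant on a stable subspace at Frobenius elements close to the identity -/
theorem conjIn_detRep {V : Type*} [AddCommGroup V] [Module ℚ_[ℓ] V] [FiniteDimensional ℚ_[ℓ] V]
    {e : V →ₗ[ℚ_[ℓ]] V} {P : ℤ[X]} (hP : P.Monic) (he : e.charpoly = P.map (algebraMap ℤ ℚ_[ℓ]))
    {ε : ℝ} (h0 : 0 ≤ ε) (h1 : ε ≤ 1)
    (hz : ∀ z : PadicAlgCl ℓ, aeval z e.charpoly = 0 → ‖z - 1‖ ≤ ε) {W : Submodule ℚ_[ℓ] V}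
    (hW : W ≤ W.comap e) : ConjIn (NearOne (ℓ := ℓ) ε) (LinearMap.det (e.restrict hW)) := by
  set Q := (e.restrict hW).charpoly with hQ
  have hQm : Q.Monic := LinearMap.charpoly_monic _
  have hQP : Q ∣ P.map (algebraMap ℤ ℚ_[ℓ]) := by
    rw [← he, charpoly_eq_mul hW]
    exact dvd_mul_right _ _
  rw [← conjIn_algebraMap (F' := PadicAlgCl ℓ)]
  have hsp : (Q.map (algebraMap ℚ_[ℓ] (PadicAlgCl ℓ))).Splits := IsAlgClosed.splits _
  have h2 : algebraMap ℚ_[ℓ] (PadicAlgCl ℓ) (LinearMap.det (e.restrict hW)) =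
      (Q.map (algebraMap ℚ_[ℓ] (PadicAlgCl ℓ))).roots.prod := by
    have h3 := hsp.coeff_zero_eq_prod_roots_of_monic (hQm.map _)
    rw [natDegree_map, coeff_map] at h3
    rw [det_eq_sign_coeff, ← hQ, map_mul, map_pow, map_neg, map_one, h3, ← mul_assoc, ← mul_pow]
    simp
  rw [h2]
  apply nearOne_multiset_prod h0 h1
  intro y hy
  have h4 : aeval y P = 0 := by
    have h5 : aeval y Q = 0 := by
      have := (mem_roots'.1 hy).2
      rwa [IsRoot.def, eval_map_algebraMap] at this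
    obtain ⟨R, hR⟩ := hQP
    have h6 : aeval y (P.map (algebraMap ℤ ℚ_[ℓ])) = 0 := by rw [hR, map_mul, h5, zero_mul]
    rwa [aeval_map_algebraMap] at h6
  refine ⟨P, hP, h4, fun z hz' => hz z ?_⟩
  rw [he, aeval_map_algebraMap]
  exact hz'

/-- **Main theorem on isotropic subspaces.** -/
theorem isotropic_core
    {V : Type*} [AddCommGroup V] [Module ℚ_[ℓ] V] [FiniteDimensional ℚ_[ℓ] V]
    (ρ : GK K →* (V →ₗ[ℚ_[ℓ]] V))
    (hc : ∀ (φ : Dual ℚ_[ℓ] V) (x : V), Continuous fun g => φ (ρ g x))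
    (B : LinearMap.BilinForm ℚ_[ℓ] V) (hB : B.Nondegenerate)
    (χ : GK K → ℚ_[ℓ]) (hχ : ∀ g x y, B (ρ g x) (ρ g y) = χ g * B x y)
    {w : ℕ} (hw : 0 < w) {S : Set (HeightOneSpectrum (𝓞 K))} (hS : S.Finite)
    (P : HeightOneSpectrum (𝓞 K) → ℤ[X])
    (hP : ∀ v ∉ S, (P v).Monic ∧
      (∀ z : ℂ, aeval z (P v) = 0 → ‖z‖ ^ 2 = (Ideal.absNorm v.asIdeal : ℝ) ^ w) ∧
      ∀ σ : GK K, IsFrob v σ → (ρ σ⁻¹).charpoly = (P v).map (algebraMap ℤ ℚ_[ℓ]) ∧
        χ σ⁻¹ = (Ideal.absNorm v.asIdeal : ℚ_[ℓ]) ^ w)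
    (W : Submodule ℚ_[ℓ] V) (hW : ∀ g, W ≤ W.comap (ρ g)) (hiso : W ≤ B.orthogonal W) (hW0 : W ≠ ⊥) :
    Even (w * finrank ℚ_[ℓ] W * finrank ℚ K) ∧ ∀ (p : ℕ), p.Prime → ∀ v : Fin (finrank ℚ K) → HeightOneSpectrum (𝓞 K), Function.Injective v →
      (∀ i, (p : 𝓞 K) ∈ (v i).asIdeal ∧ v i ∉ S) →
      ∃ (Q : Fin (finrank ℚ K) → ℚ_[ℓ][X]) (n : ℕ), 0 < n ∧
        (∀ i, (Q i).Monic ∧ (Q i).natDegree = finrank ℚ_[ℓ] W ∧
          Q i * dualPoly ((p : ℚ_[ℓ]) ^ w) (Q i) ∣ (P (v i)).map (algebraMap ℤ ℚ_[ℓ])) ∧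
        (∏ i, (Q i).eval 0) ^ (2 * n) = ((p : ℚ_[ℓ]) ^ w) ^ (finrank ℚ_[ℓ] W * finrank ℚ K * n) := by
  classical
  set d := finrank ℚ_[ℓ] W with hd
  -- the character `χ`
  obtain ⟨x₀, hx₀W, hx₀⟩ := W.ne_bot_iff.1 hW0
  obtain ⟨y₀, hxy⟩ : ∃ y, B x₀ y ≠ 0 := by
    by_contra hcon
    push Not at hcon
    exact hx₀ (hB.1 x₀ hcon)
  let χ' : GK K →* ℚ_[ℓ] :=
    { toFun := χ
      map_one' := by
        have h1 := hχ 1 x₀ y₀
        rw [map_one, Module.End.one_apply, Module.End.one_apply] at h1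
        exact mul_right_cancel₀ hxy (by rw [← h1, one_mul])
      map_mul' := by
        intro g h
        have h1 := hχ (g * h) x₀ y₀
        rw [map_mul, Module.End.mul_apply, Module.End.mul_apply, hχ, hχ, ← mul_assoc] at h1
        exact (mul_right_cancel₀ hxy h1).symm }
  have hχc : Continuous fun g => (χ'.toHomUnits g : ℚ_[ℓ]) := by
    have h1 : (fun g => (χ'.toHomUnits g : ℚ_[ℓ])) = fun g => B (ρ g x₀) (ρ g y₀) * (B x₀ y₀)⁻¹ := by
      funext g
      rw [hχ, mul_assoc, mul_inv_cancel₀ hxy, mul_one]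
      rfl
    rw [h1]
    exact (continuous_bilin ρ B hc x₀ y₀).mul continuous_const
  have hδc := continuous_detRep ρ W hW hc
  -- the good places
  have hgood : ∀ v ∉ S, ∀ σ : GK K, IsFrob v σ →
      (χ'.toHomUnits σ⁻¹ : ℚ_[ℓ]) = (Ideal.absNorm v.asIdeal : ℚ_[ℓ]) ^ w ∧
      Pure ((Ideal.absNorm v.asIdeal : ℝ) ^ (w * d)) (detRep ρ W hW σ⁻¹ : ℚ_[ℓ]) := by
    intro v hv σ hσ
    obtain ⟨h1, h2, h3⟩ := hP v hv
    refine ⟨(h3 σ hσ).2, ?_⟩
    have h4 : ((ρ σ⁻¹).restrict (hW σ⁻¹)).charpoly ∣ (P v).map (algebraMap ℤ ℚ_[ℓ]) := by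
      rw [← (h3 σ hσ).1, charpoly_eq_mul (hW σ⁻¹)]
      exact dvd_mul_right _ _
    have h5 := pure_coeff_zero h1 h2 (LinearMap.charpoly_monic _) h4
    rw [← det_eq_sign_coeff, LinearMap.charpoly_natDegree, ← hd, ← pow_mul] at h5
    exact h5
  obtain ⟨n, hn, hrel⟩ := char_field (detRep ρ W hW) χ'.toHomUnits hδc hχc hw hS hgood
  constructor
  · refine even_of_rel hδc hχc hn hrel hS (fun v hv σ hσ => (hgood v hv σ hσ).1) fun ε hε => ?_
    obtain ⟨N, hN, hN2⟩ := exists_near_subgroup ρ hc (ε := min ε 1) (lt_min hε one_pos)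
    refine ⟨N, hN, fun v hv σ hσN hσ => ?_⟩
    obtain ⟨h1, -, h3⟩ := hP v hv
    have h4 := conjIn_detRep h1 (h3 σ hσ).1 (ε := min ε 1) (lt_min hε one_pos).le (min_le_right _ _)
      (hN2 σ⁻¹ (N.inv_mem hσN)) (hW σ⁻¹)
    obtain ⟨R, hR1, hR2, hR3⟩ := h4
    exact ⟨R, hR1, hR2, fun z hz => (hR3 z hz).trans (min_le_left _ _)⟩
  intro p hp v hv hpv
  obtain ⟨hN, σ, hσ, hprod⟩ := char_split (detRep ρ W hW) χ'.toHomUnits hrel hp hv
    (fun i => (hpv i).1)
  have hχσ : ∀ i, χ (σ i)⁻¹ = (p : ℚ_[ℓ]) ^ w := by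
    intro i
    rw [(((hP (v i) (hpv i).2).2.2) (σ i) (hσ i)).2, hN i]
  have hp0 : (p : ℚ_[ℓ]) ^ w ≠ 0 := pow_ne_zero _ (by exact_mod_cast hp.ne_zero)
  refine ⟨fun i => ((ρ (σ i)⁻¹).restrict (hW _)).charpoly, n, hn, fun i => ⟨LinearMap.charpoly_monic _,
    LinearMap.charpoly_natDegree _, ?_⟩, ?_⟩
  · rw [← (((hP (v i) (hpv i).2).2.2) (σ i) (hσ i)).1, ← hχσ i]
    exact charpoly_mul_dual_dvd hB (by rw [hχσ]; exact hp0) (hχ _) (hW _) hiso
  · have h1 := congrArg Units.val hprod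
    rw [Units.val_pow_eq_pow_val, Units.val_pow_eq_pow_val, Units.coe_prod, Units.coe_prod] at h1
    have h2 : ∏ i, ((χ'.toHomUnits (σ i)⁻¹ : ℚ_[ℓ]ˣ) : ℚ_[ℓ]) = ((p : ℚ_[ℓ]) ^ w) ^ finrank ℚ K := by
      rw [Finset.prod_congr rfl fun i _ => (show ((χ'.toHomUnits (σ i)⁻¹ : ℚ_[ℓ]ˣ) : ℚ_[ℓ]) =
        (p : ℚ_[ℓ]) ^ w from hχσ i), Finset.prod_const, Finset.card_univ, Fintype.card_fin]
    rw [h2] at h1
    have h3 : (∏ i, (((ρ (σ i)⁻¹).restrict (hW _)).charpoly).eval 0) ^ 2 =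
        (∏ i, ((detRep ρ W hW (σ i)⁻¹ : ℚ_[ℓ]ˣ) : ℚ_[ℓ])) ^ 2 := by
      rw [← Finset.prod_pow, ← Finset.prod_pow]
      refine Finset.prod_congr rfl fun i _ => ?_
      rw [coe_detRep, det_eq_sign_coeff, coeff_zero_eq_eval_zero, mul_pow, ← pow_mul, mul_comm _ 2,
        pow_mul, neg_one_sq, one_pow, one_mul]
    rw [pow_mul, h3, ← pow_mul, h1, ← pow_mul, ← pow_mul, ← pow_mul]
    congr 1
    ring

end Pool.Agent.Y142
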