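import Pool.Agent.Y142.ZlExt

/-!
# Quadratic characters of the rational numbers unramified outside `2`
-/

set_option autoImplicit false

namespace Pool.Agent.Y142

open NumberField Filter Topology Pool.Agent.W569.FM

/-- complex conjugation -/
theorem exists_conj (k : Type) [Field k] [Algebra k ℝ] : ∃ (c : GF k) (j : AlgebraicClosure k →+* ℂ),
    c * c = 1 ∧ ∀ x, j (c x) = (starRingEnd ℂ) (j x) := by
  let j : AlgebraicClosure k →ₐ[k] ℂ := IsAlgClosed.lift
  let _ : Algebra (AlgebraicClosure k) ℂ := j.toRingHom.toAlgebra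
  have : IsScalarTower k (AlgebraicClosure k) ℂ := IsScalarTower.of_algebraMap_eq fun x =>
    (j.commutes x).symm
  let σ : ℂ ≃ₐ[k] ℂ := Complex.conjAe.restrictScalars k
  let c : GF k := σ.restrictNormal (AlgebraicClosure k)
  have hc : ∀ x, j (c x) = (starRingEnd ℂ) (j x) := fun x =>
    AlgEquiv.restrictNormal_commutes σ (AlgebraicClosure k) x
  refine ⟨c, j.toRingHom, ?_, hc⟩
  apply AlgEquiv.ext
  intro x
  apply j.toRingHom.injective
  change j (c (c x)) = j x
  rw [hc, hc, Complex.conj_conj]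

theorem exists_conj_rat : ∃ (c : GF ℚ), c * c = 1 ∧
    (∀ r : AlgebraicClosure ℚ, r ^ 2 = 2 → c r = r) ∧
    (∀ r : AlgebraicClosure ℚ, r ^ 2 = -1 → c r = -r) := by
  obtain ⟨c, j, h1, h2⟩ := exists_conj ℚ
  refine ⟨c, h1, fun r hr => ?_, fun r hr => ?_⟩
  · apply j.injective
    rw [h2]
    have h3 : (j r) ^ 2 = 2 := by rw [← map_pow, hr, map_ofNat]
    have h4 : (j r - Real.sqrt 2) * (j r + Real.sqrt 2) = 0 := by
      have h5 : ((Real.sqrt 2 : ℝ) : ℂ) ^ 2 = 2 := by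
        rw [← Complex.ofReal_pow, Real.sq_sqrt (by norm_num)]
        norm_num
      linear_combination h3 - h5
    rcases mul_eq_zero.1 h4 with h5 | h5
    · rw [sub_eq_zero.1 h5, Complex.conj_ofReal]
    · rw [eq_neg_of_add_eq_zero_left h5, map_neg, Complex.conj_ofReal]
  · apply j.injective
    rw [h2, map_neg]
    have h3 : (j r) ^ 2 = -1 := by rw [← map_pow, hr, map_neg, map_one]
    have h4 : (j r - Complex.I) * (j r + Complex.I) = 0 := by
      linear_combination h3 - Complex.I_sq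
    rcases mul_eq_zero.1 h4 with h5 | h5
    · rw [sub_eq_zero.1 h5, Complex.conj_I]
    · rw [eq_neg_of_add_eq_zero_left h5, map_neg, Complex.conj_I]

/-- Kummer theory for quadratic characters -/
theorem exists_kummer {f : GF ℚ →* Multiplicative (ZMod 2)} (hf : IsOpen (f.ker : Set (GF ℚ))) :
    ∃ x : AlgebraicClosure ℚ, x ≠ 0 ∧ (∀ g, f g = 1 → g x = x) ∧ (∀ g, f g ≠ 1 → g x = -x) := by
  by_cases h0 : ∀ g, f g = 1
  · exact ⟨1, one_ne_zero, fun g _ => map_one g, fun g hg => absurd (h0 g) hg⟩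
  push Not at h0
  obtain ⟨g₀, hg₀⟩ := h0
  have htwo : ∀ a b : Multiplicative (ZMod 2), a ≠ 1 → b ≠ 1 → a = b := by decide
  have hsq : ∀ a : Multiplicative (ZMod 2), a * a = 1 := by decide
  -- an element fixed by the kernel, not by `g₀`
  have hcl : IsClosed (f.ker : Set (GF ℚ)) := Subgroup.isClosed_of_isOpen _ hf
  obtain ⟨y, hy, hyg⟩ : ∃ y : AlgebraicClosure ℚ, (∀ g, f g = 1 → g y = y) ∧ g₀ y ≠ y := by
    by_contra hcon
    push Not at hcon
    have h1 := InfiniteGalois.fixingSubgroup_fixedField (⟨f.ker, hcl⟩ : ClosedSubgroup (GF ℚ))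
    have h2 : g₀ ∈ f.ker := by
      change g₀ ∈ ((⟨f.ker, hcl⟩ : ClosedSubgroup (GF ℚ)).toSubgroup)
      rw [← h1]
      intro z
      exact hcon z.1 fun g hg => z.2 ⟨g, hg⟩
    exact hg₀ h2
  have hconj : ∀ g, f g = 1 → f (g₀⁻¹ * g * g₀) = 1 := by
    intro g hg
    rw [map_mul, map_mul, hg, mul_one, map_inv, inv_mul_cancel]
  have hk : ∀ g, f g = 1 → g (y - g₀ y) = y - g₀ y := by
    intro g hg
    rw [map_sub, hy g hg]
    congr 1
    have h1 := hy _ (hconj g hg)
    have h2 : g (g₀ y) = g₀ ((g₀⁻¹ * g * g₀) y) := by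
      rw [← AlgEquiv.mul_apply, ← AlgEquiv.mul_apply]
      congr 1
      group
    rw [h2, h1]
  have hg₀x : g₀ (y - g₀ y) = -(y - g₀ y) := by
    rw [map_sub, ← AlgEquiv.mul_apply, hy (g₀ * g₀) (by rw [map_mul]; exact hsq _)]
    ring
  refine ⟨y - g₀ y, sub_ne_zero.2 (Ne.symm hyg), hk, fun g hg => ?_⟩
  have h1 : f (g₀⁻¹ * g) = 1 := by
    rw [map_mul, map_inv, htwo _ _ hg hg₀, inv_mul_cancel]
  have h2 : g (y - g₀ y) = g₀ ((g₀⁻¹ * g) (y - g₀ y)) := by
    rw [← AlgEquiv.mul_apply, mul_inv_cancel_left]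
  rw [h2, hk _ h1, hg₀x]

theorem exists_two_pow_mul {D : ℤ} (hD : D ≠ 0) :
    ∃ (k b : ℕ) (u : ℤ), u % 4 = 1 ∧ D * (-1) ^ b = 2 ^ k * u := by
  obtain ⟨k, m, hm, hkm⟩ := Nat.exists_eq_two_pow_mul_odd (Int.natAbs_ne_zero.2 hD)
  have h1 : ∃ a : ℕ, D * (-1) ^ a = 2 ^ k * (m : ℤ) := by
    rcases Int.natAbs_eq D with h | h
    · refine ⟨0, ?_⟩
      rw [pow_zero, mul_one, h, hkm]
      push_cast
      ring
    · refine ⟨1, ?_⟩
      rw [pow_one, h, hkm]
      push_cast
      ring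
  obtain ⟨a, ha⟩ := h1
  obtain ⟨t, ht⟩ := hm
  have h2 : (m : ℤ) % 4 = 1 ∨ (-(m : ℤ)) % 4 = 1 := by omega
  rcases h2 with h2 | h2
  · exact ⟨k, a, m, h2, ha⟩
  · refine ⟨k, a + 1, -m, h2, ?_⟩
    rw [pow_succ]
    linear_combination -ha

theorem sq_eq_neg_or {x y : AlgebraicClosure ℚ} (h : x ^ 2 = y ^ 2) : x = y ∨ x = -y :=
  sq_eq_sq_iff_eq_or_eq_neg.1 h

theorem isOpen_fix (k : Type) [Field k] (z : AlgebraicClosure k) : IsOpen {g : GF k | g z = z} :=
  stabilizer_isOpen_of_isIntegral (K := k) (L := AlgebraicClosure k) z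

/-- a square root of an integer `u ≡ 1` modulo `4` fixed by the inertia groups at the odd primes is
rational -/
theorem fixed_of_sq {z : AlgebraicClosure ℚ} {u : ℤ} (hu : u % 4 = 1) (hz : z ^ 2 = u)
    (hin : ∀ q : ℕ, q.Prime → q ≠ 2 → ∀ P : Ideal (OO ℚ), P.IsMaximal → (q : OO ℚ) ∈ P →
      ∀ τ : GF ℚ, InInertia P τ → τ z = z) (g : GF ℚ) : g z = z := by
  have hz0 : z ≠ 0 := by
    rintro rfl
    have h1 : (u : AlgebraicClosure ℚ) = 0 := by rw [← hz]; simp
    have h2 : u = 0 := by exact_mod_cast h1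
    omega
  have hpm : ∀ g : GF ℚ, g z = z ∨ g z = -z := by
    intro g
    apply sq_eq_neg_or
    rw [← map_pow, hz, map_intCast]
  let f : GF ℚ →* (AlgebraicClosure ℚ)ˣ :=
    { toFun := fun g => Units.mk0 (g z / z) (div_ne_zero ((_root_.map_ne_zero g).2 hz0) hz0)
      map_one' := by
        apply Units.ext
        simp [hz0]
      map_mul' := fun a b => by
        apply Units.ext
        rw [Units.val_mul, Units.val_mk0, Units.val_mk0, Units.val_mk0, AlgEquiv.mul_apply]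
        rcases hpm b with h | h
        · rw [h, div_self hz0, mul_one]
        · rw [h, map_neg, neg_div, neg_div, div_self hz0, mul_neg, mul_one] }
  have hf : ∀ g, f g = 1 ↔ g z = z := by
    intro g
    rw [Units.ext_iff]
    change g z / z = 1 ↔ _
    rw [div_eq_one_iff_eq hz0]
  have hker : IsOpen (f.ker : Set (GF ℚ)) := by
    have h1 : (f.ker : Set (GF ℚ)) = {g : GF ℚ | g z = z} := by
      ext g
      exact hf g
    rw [h1]
    exact isOpen_fix ℚ z
  -- integrality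
  obtain ⟨m, hm⟩ : ∃ m : ℤ, u = 4 * m + 1 := ⟨u / 4, by omega⟩
  have hzi : IsIntegral ℤ z := by
    refine ⟨Polynomial.X ^ 2 - Polynomial.C u, Polynomial.monic_X_pow_sub_C _ (by norm_num), ?_⟩
    rw [Polynomial.eval₂_sub, Polynomial.eval₂_X_pow, Polynomial.eval₂_C, hz, eq_intCast, sub_self]
  have hti : IsIntegral ℤ ((1 + z) / 2) := by
    refine ⟨Polynomial.X ^ 2 - Polynomial.X - Polynomial.C m, by monicity!, ?_⟩
    rw [Polynomial.eval₂_sub, Polynomial.eval₂_sub, Polynomial.eval₂_X_pow, Polynomial.eval₂_X,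
      Polynomial.eval₂_C, eq_intCast]
    have h1 : z ^ 2 = 4 * (m : AlgebraicClosure ℚ) + 1 := by
      rw [hz, hm]
      push_cast
      ring
    linear_combination (1 / 4 : AlgebraicClosure ℚ) * h1
  rw [← hf]
  refine sGEN _ f hker (fun P hP τ hτ => ?_) g
  obtain ⟨q, hq, hqP⟩ := exists_char P hP
  rw [hf]
  by_cases hq2 : q = 2
  · subst hq2
    rcases hpm τ with h | h
    · exact h
    · exfalso
      let t : OO ℚ := ⟨(1 + z) / 2, hti⟩
      let zO : OO ℚ := ⟨z, hzi⟩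
      have h1 := hτ t
      have h2 : τ • t - t = -zO := by
        apply RingOfIntegers.ext
        change τ ((1 + z) / 2) - (1 + z) / 2 = -z
        rw [map_div₀, map_add, map_one, h, map_ofNat]
        ring
      rw [h2] at h1
      have h3 : zO ^ 2 ∈ P := by
        have := P.mul_mem_left (-zO) h1
        have h4 : -zO * -zO = zO ^ 2 := by ring
        rwa [h4] at this
      have h4 : zO ^ 2 = (u : OO ℚ) := by
        apply RingOfIntegers.ext
        change z ^ 2 = _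
        rw [hz]
        simp
      rw [h4, hm] at h3
      apply hP.ne_top
      rw [Ideal.eq_top_iff_one]
      have h5 : (1 : OO ℚ) = ((4 * m + 1 : ℤ) : OO ℚ) - (2 * m : ℤ) * ((2 : ℕ) : OO ℚ) := by
        push_cast
        ring
      rw [h5]
      exact P.sub_mem h3 (P.mul_mem_left _ hqP)
  · exact hin q hq hq2 P hP hqP τ hτ

theorem not_mem_of_odd {q : ℕ} (hq : q.Prime) (hq2 : q ≠ 2) {P : Ideal (OO ℚ)} (hP : P.IsMaximal)
    (hqP : (q : OO ℚ) ∈ P) : (4 : OO ℚ) ∉ P := by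
  intro h4
  apply hP.ne_top
  rw [Ideal.eq_top_iff_one]
  have hcop : Nat.Coprime q 4 := by
    rw [show (4 : ℕ) = 2 ^ 2 by norm_num]
    exact ((Nat.coprime_primes hq Nat.prime_two).2 hq2).pow_right 2
  obtain ⟨a, b, hab⟩ := Nat.isCoprime_iff_coprime.2 hcop
  have h1 : (1 : OO ℚ) = (a : OO ℚ) * (q : OO ℚ) + (b : OO ℚ) * 4 := by
    have h2 : (((a * (q : ℤ) + b * (4 : ℕ) : ℤ)) : OO ℚ) = 1 := by rw [hab]; simp
    rw [← h2]
    push_cast
    ring
  rw [h1]
  exact P.add_mem (P.mul_mem_left _ hqP) (P.mul_mem_left _ h4)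

/-- inertia groups at odd primes fix the square roots of `2` and `-1` -/
theorem fix_of_sq {z : AlgebraicClosure ℚ} {a : ℤ} (hz : z ^ 2 = a) (ha : a = 2 ∨ a = -1)
    {q : ℕ} (hq : q.Prime) (hq2 : q ≠ 2) {P : Ideal (OO ℚ)} (hP : P.IsMaximal)
    (hqP : (q : OO ℚ) ∈ P) {τ : GF ℚ} (hτ : InInertia P τ) : τ z = z := by
  rcases sq_eq_neg_or (x := τ z) (y := z) (by rw [← map_pow, hz, map_intCast]) with h | h
  · exact h
  exfalso
  have hzi : IsIntegral ℤ z := by
    refine ⟨Polynomial.X ^ 2 - Polynomial.C a, Polynomial.monic_X_pow_sub_C _ (by norm_num), ?_⟩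
    rw [Polynomial.eval₂_sub, Polynomial.eval₂_X_pow, Polynomial.eval₂_C, hz, eq_intCast, sub_self]
  let t : OO ℚ := ⟨z, hzi⟩
  have h1 := hτ t
  have h2 : τ • t - t = -2 * t := by
    apply RingOfIntegers.ext
    change τ z - z = -2 * z
    rw [h]
    ring
  rw [h2] at h1
  have h3 : (4 : OO ℚ) * (a : OO ℚ) ∈ P := by
    have h4 : (4 : OO ℚ) * (a : OO ℚ) = (-2 * t) * (-2 * t) := by
      apply RingOfIntegers.ext
      have h5 : algebraMap (OO ℚ) (AlgebraicClosure ℚ) ((4 : OO ℚ) * (a : OO ℚ)) = 4 * a := by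
        rw [map_mul, map_intCast, map_ofNat]
      refine h5.trans ?_
      change _ = (-2 * z) * (-2 * z)
      linear_combination (-4 : AlgebraicClosure ℚ) * hz
    rw [h4]
    exact P.mul_mem_left _ h1
  have h4P := not_mem_of_odd hq hq2 hP hqP
  rcases hP.isPrime.mem_or_mem h3 with h6 | h6
  · exact h4P h6
  · apply h4P
    rcases ha with rfl | rfl
    · have h7 : (4 : OO ℚ) = 2 * ((2 : ℤ) : OO ℚ) := by push_cast; ring
      rw [h7]
      exact P.mul_mem_left _ h6
    · have h7 : (4 : OO ℚ) = (-4) * ((-1 : ℤ) : OO ℚ) := by push_cast; ring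
      rw [h7]
      exact P.mul_mem_left _ h6

/-- quadratic characters unramified outside `2` and trivial on complex conjugation -/
theorem quad_classify {f : GF ℚ →* Multiplicative (ZMod 2)} (hf : IsOpen (f.ker : Set (GF ℚ)))
    (hfu : ∀ q : ℕ, q.Prime → q ≠ 2 → ∀ P : Ideal (OO ℚ), P.IsMaximal → (q : OO ℚ) ∈ P →
      ∀ τ : GF ℚ, InInertia P τ → f τ = 1)
    {c : GF ℚ} (hc2 : ∀ r : AlgebraicClosure ℚ, r ^ 2 = 2 → c r = r)
    (hci : ∀ r : AlgebraicClosure ℚ, r ^ 2 = -1 → c r = -r) (hfc : f c = 1)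
    {r : AlgebraicClosure ℚ} (hr : r ^ 2 = 2) (hf1 : ∃ g, f g ≠ 1) :
    ∀ g, f g = 1 ↔ g r = r := by
  obtain ⟨x₀, hx₀0, hx₀1, hx₀2⟩ := exists_kummer hf
  -- scaling
  obtain ⟨x, D, hx0, hx1, hx2, hD⟩ : ∃ (x : AlgebraicClosure ℚ) (D : ℤ), x ≠ 0 ∧
      (∀ g, f g = 1 → g x = x) ∧ (∀ g, f g ≠ 1 → g x = -x) ∧ x ^ 2 = D := by
    have h1 : ∀ g : GF ℚ, g (x₀ ^ 2) = x₀ ^ 2 := by
      intro g
      by_cases h : f g = 1
      · rw [map_pow, hx₀1 g h]
      · rw [map_pow, hx₀2 g h, neg_sq]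
    obtain ⟨d, hd⟩ := (InfiniteGalois.mem_range_algebraMap_iff_fixed (x₀ ^ 2)).2 h1
    have hden : ((d.den : ℤ) : AlgebraicClosure ℚ) ≠ 0 := by exact_mod_cast d.den_nz
    refine ⟨(d.den : ℤ) * x₀, d.num * d.den, mul_ne_zero hden hx₀0, fun g hg => ?_, fun g hg => ?_, ?_⟩
    · rw [map_mul, map_intCast, hx₀1 g hg]
    · rw [map_mul, map_intCast, hx₀2 g hg, mul_neg]
    · have hd' : (d : AlgebraicClosure ℚ) = x₀ ^ 2 := by
        rw [← hd]
        exact (eq_ratCast _ d).symm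
      rw [mul_pow, ← hd']
      have h2 : (d : AlgebraicClosure ℚ) * (d.den : ℤ) = (d.num : ℤ) := by
        have h3 : (d * (d.den : ℚ) : ℚ) = d.num := Rat.mul_den_eq_num d
        have h4 := congrArg (fun t : ℚ => (t : AlgebraicClosure ℚ)) h3
        push_cast at h4 ⊢
        exact h4
      push_cast at h2 ⊢
      linear_combination (d.den : AlgebraicClosure ℚ) * h2
  have hD0 : D ≠ 0 := by
    rintro rfl
    apply hx0
    have : x ^ 2 = 0 := by rw [hD]; simp
    exact pow_eq_zero_iff (by norm_num) |>.1 this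
  obtain ⟨k, b, u, hu, hDu⟩ := exists_two_pow_mul hD0
  obtain ⟨i, hi⟩ := IsAlgClosed.exists_pow_nat_eq (-1 : AlgebraicClosure ℚ) (n := 2) (by norm_num)
  have hr0 : r ≠ 0 := by
    rintro rfl
    norm_num at hr
  have hi0 : i ≠ 0 := by
    rintro rfl
    norm_num at hi
  set z := x * i ^ b / r ^ k with hzdef
  have hz : z ^ 2 = (u : AlgebraicClosure ℚ) := by
    rw [hzdef, div_pow, mul_pow, ← pow_mul, ← pow_mul, mul_comm b 2, mul_comm k 2, pow_mul, pow_mul,
      hr, hi, hD, div_eq_iff (pow_ne_zero _ two_ne_zero)]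
    have h4 := congrArg (fun t : ℤ => (t : AlgebraicClosure ℚ)) hDu
    push_cast at h4
    rw [h4]
    ring
  have hfix := fixed_of_sq hu hz (fun q hq hq2 P hP hqP τ hτ => by
    have e1 : τ r = r :=
      fix_of_sq (a := 2) (by rw [hr]; norm_num) (Or.inl rfl) hq hq2 hP hqP hτ
    have e2 : τ i = i :=
      fix_of_sq (a := -1) (by rw [hi]; norm_num) (Or.inr rfl) hq hq2 hP hqP hτ
    rw [hzdef, map_div₀, map_mul, map_pow, map_pow, hx1 τ (hfu q hq hq2 P hP hqP τ hτ), e1, e2])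
  have hx : x * i ^ b = z * r ^ k := by
    rw [hzdef, div_mul_cancel₀ _ (pow_ne_zero _ hr0)]
  -- the exponent `b` is even
  have hib : ∀ g : GF ℚ, g (i ^ b) = i ^ b := by
    intro g
    have h1 := congrArg c hx
    rw [map_mul, map_mul, map_pow, map_pow, hx1 c hfc, hfix c, hc2 r hr, hci i hi, ← hx] at h1
    have h2 := mul_left_cancel₀ hx0 h1
    rcases Nat.even_or_odd b with hb | hb
    · obtain ⟨e, rfl⟩ := hb
      rw [← two_mul, pow_mul, hi, map_pow, map_neg, map_one]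
    · exfalso
      rw [hb.neg_pow] at h2
      have h3 : (2 : AlgebraicClosure ℚ) * i ^ b = 0 := by linear_combination -h2
      rcases mul_eq_zero.1 h3 with h4 | h4
      · norm_num at h4
      · exact pow_ne_zero _ hi0 h4
  have hgx : ∀ g : GF ℚ, g x * r ^ k = x * (g r) ^ k := by
    intro g
    have h1 := congrArg g hx
    rw [map_mul, map_mul, hib, hfix, map_pow] at h1
    have h2 : i ^ b ≠ 0 := pow_ne_zero _ hi0
    apply mul_left_cancel₀ h2
    linear_combination (r ^ k) * h1 - ((g r) ^ k) * hx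
  have hx2' : ∀ g, g x = x → f g = 1 := by
    intro g hg
    by_contra h
    have h1 := hx2 g h
    rw [hg] at h1
    have h3 : (2 : AlgebraicClosure ℚ) * x = 0 := by linear_combination h1
    rcases mul_eq_zero.1 h3 with h4 | h4
    · norm_num at h4
    · exact hx0 h4
  have hk : Odd k := by
    rw [← Nat.not_even_iff_odd]
    rintro ⟨e, rfl⟩
    obtain ⟨g, hg⟩ := hf1
    apply hg
    apply hx2'
    have h1 := hgx g
    rw [← two_mul, pow_mul, pow_mul, ← map_pow, hr, map_ofNat] at h1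
    exact mul_right_cancel₀ (pow_ne_zero _ two_ne_zero) h1
  intro g
  constructor
  · intro hg
    have h1 := hgx g
    rw [hx1 g hg] at h1
    have h2 := mul_left_cancel₀ hx0 h1
    rcases sq_eq_neg_or (x := g r) (y := r) (by rw [← map_pow, hr, map_ofNat]) with h | h
    · exact h
    · exfalso
      rw [h, hk.neg_pow] at h2
      have h3 : (2 : AlgebraicClosure ℚ) * r ^ k = 0 := by linear_combination h2
      rcases mul_eq_zero.1 h3 with h4 | h4
      · norm_num at h4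
      · exact pow_ne_zero _ hr0 h4
  · intro hg
    apply hx2'
    have h1 := hgx g
    rw [hg] at h1
    exact mul_right_cancel₀ (pow_ne_zero _ hr0) h1

theorem eq_of_iff_zmod_two : ∀ a b : Multiplicative (ZMod 2), (a = 1 ↔ b = 1) → a = b := by decide

theorem hmod_two [Fact (Nat.Prime 2)] : HMod 2 := by
  intro f l hf hl hl1
  obtain ⟨c, hc, hc2, hci⟩ := exists_conj_rat
  obtain ⟨r, hr⟩ := IsAlgClosed.exists_pow_nat_eq (2 : AlgebraicClosure ℚ) (n := 2) (by norm_num)
  have htriv : ∀ f : GF ℚ →* Multiplicative ℤ_[2], redZ f c = 1 := by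
    intro f
    have h1 : Multiplicative.toAdd (f c) = 0 := by
      have h2 := congrArg (fun g => Multiplicative.toAdd (f g)) hc
      simp only [map_mul, toAdd_mul, map_one, toAdd_one] at h2
      have h3 : (2 : ℤ_[2]) * Multiplicative.toAdd (f c) = 0 := by rw [two_mul]; exact h2
      exact (mul_eq_zero.1 h3).resolve_left two_ne_zero
    rw [redZ_eq_one, h1]
    exact dvd_zero _
  have hl' := quad_classify (isOpen_ker_redZ hl) (redZ_unram hl) hc2 hci (htriv l) hr (by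
    obtain ⟨g, hg⟩ := hl1
    exact ⟨g, fun h => hg (redZ_eq_one.1 h)⟩)
  by_cases hf1 : ∃ g, redZ f g ≠ 1
  · have hf' := quad_classify (isOpen_ker_redZ hf) (redZ_unram hf) hc2 hci (htriv f) hr hf1
    refine ⟨1, fun g => ?_⟩
    rw [one_mul, eq_of_iff_zmod_two _ _ ((hf' g).trans (hl' g).symm)]
  · push Not at hf1
    refine ⟨0, fun g => ?_⟩
    rw [hf1 g, zero_mul, toAdd_one]

theorem hmod_all {ℓ : ℕ} [hℓ : Fact ℓ.Prime] : HMod ℓ := by
  by_cases h : ℓ = 2
  · subst h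
    exact hmod_two
  · exact hmod_odd h

end Pool.Agent.Y142
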