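import Pool.Agent.Y142.SixExp
import Pool.Agent.Y142.Quad

/-!
# Characters of the absolute Galois group of the rational numbers with algebraic Frobenius values
-/

set_option autoImplicit false

namespace Pool.Agent.Y142

open NumberField Filter Topology Pool.Agent.W569.FM

variable {ℓ : ℕ} [hℓ : Fact ℓ.Prime]

theorem norm_char_le {G : Type*} [Group G] [TopologicalSpace G] [CompactSpace G]
    (δ : G →* ℚ_[ℓ]ˣ) (hδ : Continuous fun g => (δ g : ℚ_[ℓ])) (g : G) : ‖(δ g : ℚ_[ℓ])‖ ≤ 1 := by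
  by_contra hcon
  push Not at hcon
  obtain ⟨C, hC⟩ : ∃ C : ℝ, ∀ h : G, ‖(δ h : ℚ_[ℓ])‖ ≤ C := by
    obtain ⟨C, hC⟩ := (isCompact_range (continuous_norm.comp hδ)).bddAbove
    exact ⟨C, fun h => hC ⟨h, rfl⟩⟩
  obtain ⟨n, hn⟩ := pow_unbounded_of_one_lt C hcon
  have h1 := hC (g ^ n)
  rw [map_pow, Units.val_pow_eq_pow_val, norm_pow] at h1
  exact absurd h1 (not_le.2 hn)

theorem norm_char {G : Type*} [Group G] [TopologicalSpace G] [CompactSpace G]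
    (δ : G →* ℚ_[ℓ]ˣ) (hδ : Continuous fun g => (δ g : ℚ_[ℓ])) (g : G) : ‖(δ g : ℚ_[ℓ])‖ = 1 := by
  apply le_antisymm (norm_char_le δ hδ g)
  have h1 := norm_char_le δ hδ g⁻¹
  rw [map_inv, Units.val_inv_eq_inv_val, norm_inv] at h1
  have h2 : 0 < ‖(δ g : ℚ_[ℓ])‖ := norm_pos_iff.2 (Units.ne_zero _)
  exact (inv_le_one₀ h2).1 h1

theorem norm_unit_pow_sub_one {u : ℚ_[ℓ]} (hu : ‖u‖ = 1) :
    ‖u ^ (ℓ * (ℓ - 1)) - 1‖ ≤ ((ℓ : ℝ) ^ 2)⁻¹ := by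
  let x : ℤ_[ℓ] := ⟨u, hu.le⟩
  have hu' : IsUnit x := PadicInt.isUnit_iff.2 hu
  obtain ⟨v, hv⟩ := hu'
  have h1 : (PadicInt.toZModPow 2 (v : ℤ_[ℓ])) ^ (ℓ * (ℓ - 1)) = 1 := by
    have h2 : (Units.map (PadicInt.toZModPow 2 : ℤ_[ℓ] →+* ZMod (ℓ ^ 2)).toMonoidHom v) ^
      Nat.totient (ℓ ^ 2) = 1 := ZMod.pow_totient _
    rw [Nat.totient_prime_pow hℓ.out (by norm_num)] at h2
    have h3 := congrArg Units.val h2
    simpa using h3
  have h2 : (v : ℤ_[ℓ]) ^ (ℓ * (ℓ - 1)) - 1 ∈ RingHom.ker (PadicInt.toZModPow 2 : ℤ_[ℓ] →+* ZMod (ℓ ^ 2)) := by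
    rw [RingHom.mem_ker, map_sub, map_pow, map_one, h1, sub_self]
  rw [PadicInt.ker_toZModPow, ← PadicInt.norm_le_pow_iff_mem_span_pow] at h2
  have h3 : ((v : ℤ_[ℓ]) : ℚ_[ℓ]) = u := by rw [hv]
  have h4 : ‖((v : ℤ_[ℓ]) ^ (ℓ * (ℓ - 1)) - 1 : ℤ_[ℓ])‖ = ‖u ^ (ℓ * (ℓ - 1)) - 1‖ := by
    rw [PadicInt.norm_def]
    push_cast
    rw [h3]
  rw [← h4]
  refine h2.trans (le_of_eq ?_)
  rw [zpow_neg]
  norm_cast

/-- the logarithm of a character with values in the `ℓ`-adic numbers -/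
theorem exists_log {G : Type*} [Group G] [TopologicalSpace G] [CompactSpace G]
    (δ : G →* ℚ_[ℓ]ˣ) (hδ : Continuous fun g => (δ g : ℚ_[ℓ])) :
    ∃ f : G →* Multiplicative ℤ_[ℓ], Continuous f ∧
      ∀ g, ee ((Multiplicative.toAdd (f g) : ℤ_[ℓ]) : ℚ_[ℓ]) = (δ g : ℚ_[ℓ]) ^ (ℓ * (ℓ - 1)) := by
  have hex : ∀ g, ∃ x : ℤ_[ℓ], ee (x : ℚ_[ℓ]) = (δ g : ℚ_[ℓ]) ^ (ℓ * (ℓ - 1)) := by
    intro g
    obtain ⟨x, hx, hx2⟩ := exists_ee (norm_unit_pow_sub_one (norm_char δ hδ g))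
    exact ⟨⟨x, hx⟩, hx2⟩
  choose F hF using hex
  refine ⟨⟨⟨fun g => Multiplicative.ofAdd (F g), ?_⟩, ?_⟩, ?_, ?_⟩
  · have h1 : F 1 = 0 := by
      have h2 := hF 1
      rw [map_one, Units.val_one, one_pow] at h2
      exact Subtype.ext (ee_eq_one (F 1).2 h2)
    rw [h1, ofAdd_zero]
  · intro g h
    have h1 : ((F (g * h) : ℤ_[ℓ]) : ℚ_[ℓ]) = (F g : ℚ_[ℓ]) + (F h : ℚ_[ℓ]) := by
      apply ee_inj (F _).2 (norm_add_le_one (F _).2 (F _).2)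
      rw [ee_add (F _).2 (F _).2, hF, hF, hF, map_mul, Units.val_mul, mul_pow]
    have h2 : F (g * h) = F g + F h := Subtype.ext h1
    exact congrArg Multiplicative.ofAdd h2
  · have h1 : Continuous F := by
      rw [continuous_iff_continuousAt]
      intro g
      rw [ContinuousAt, tendsto_iff_norm_sub_tendsto_zero]
      have h2 : Tendsto (fun h => ‖(δ h : ℚ_[ℓ]) ^ (ℓ * (ℓ - 1)) - (δ g : ℚ_[ℓ]) ^ (ℓ * (ℓ - 1))‖)
          (𝓝 g) (𝓝 0) := by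
        rw [← tendsto_iff_norm_sub_tendsto_zero]
        exact ((hδ.pow _).tendsto g)
      have h3 := h2.const_mul ((ℓ : ℝ) ^ 2)
      rw [mul_zero] at h3
      refine h3.congr fun h => ?_
      rw [← hF, ← hF, norm_ee_sub_ee (F _).2 (F _).2, ← mul_assoc, mul_inv_cancel₀, one_mul]
      · rw [PadicInt.norm_def]
        push_cast
        rfl
      · have := p_pos (p := ℓ)
        positivity
    exact continuous_ofAdd.comp h1
  · intro g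
    exact hF g

theorem prod_prime_zpow_eq_one {ι : Type*} [Fintype ι] {q : ι → ℕ} (hq : ∀ j, (q j).Prime)
    (hqi : Function.Injective q) {m : ι → ℤ} (h : ∏ j, ((q j : ℕ) : ℚ) ^ m j = 1) (i : ι) :
    m i = 0 := by
  classical
  have hfact : Fact (q i).Prime := ⟨hq i⟩
  have h1 : ∏ j, ((q j : ℕ) : ℚ_[q i]) ^ m j = 1 := by
    have h4 : ((∏ j, ((q j : ℕ) : ℚ) ^ m j : ℚ) : ℚ_[q i]) = ((1 : ℚ) : ℚ_[q i]) := by rw [h]
    push_cast at h4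
    exact h4
  have h2 := congrArg (fun z => ‖z‖) h1
  simp only [norm_prod, norm_zpow, norm_one] at h2
  rw [Finset.prod_eq_single i] at h2
  · rw [Padic.norm_p] at h2
    have h3 : (1 : ℝ) < (q i : ℝ) := by exact_mod_cast (hq i).one_lt
    have h5 : ((q i : ℝ)⁻¹) ^ m i = ((q i : ℝ)⁻¹) ^ (0 : ℤ) := by rw [h2, zpow_zero]
    exact zpow_right_injective₀ (by positivity) (inv_lt_one_of_one_lt₀ h3).ne h5
  · intro j _ hj
    rw [Padic.norm_natCast_eq_one_iff.2, one_zpow]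
    exact (Nat.coprime_primes (hq i) (hq j)).2 fun h => hj (hqi h.symm)
  · intro h6
    exact absurd (Finset.mem_univ _) h6

theorem char_main (δ χ : GF ℚ →* ℚ_[ℓ]ˣ) (hδ : Continuous fun g => (δ g : ℚ_[ℓ]))
    (hχ : Continuous fun g => (χ g : ℚ_[ℓ])) {w d : ℕ} (hw : 0 < w)
    (hgood : ∀ S : Finset ℕ, ∃ q : ℕ, q.Prime ∧ q ∉ S ∧ ∃ g : GF ℚ, (χ g : ℚ_[ℓ]) = (q : ℚ_[ℓ]) ^ w ∧
      ∃ P : Polynomial ℤ, P.Monic ∧ Polynomial.aeval (δ g : ℚ_[ℓ]) P = 0 ∧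
        ∀ z : ℂ, Polynomial.aeval z P = 0 → ‖z‖ ^ 2 = (q : ℝ) ^ (w * d)) :
    ∃ n : ℕ, 0 < n ∧ ∀ g, δ g ^ (2 * n) = χ g ^ (d * n) := by
  classical
  obtain ⟨f, hf, hfδ⟩ := exists_log δ hδ
  obtain ⟨l, hl, hlχ⟩ := exists_log χ hχ
  set M := ℓ * (ℓ - 1) with hM
  have hM0 : M ≠ 0 := by
    have := hℓ.out.two_le
    exact Nat.mul_ne_zero (by omega) (by omega)
  -- three good primes
  obtain ⟨q₀, hq₀, -, g₀, hg₀, P₀, hP₀, hy₀, hz₀⟩ := hgood ∅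
  obtain ⟨q₁, hq₁, hq₁', g₁, hg₁, P₁, hP₁, hy₁, hz₁⟩ := hgood {q₀}
  obtain ⟨q₂, hq₂, hq₂', g₂, hg₂, P₂, hP₂, hy₂, hz₂⟩ := hgood {q₀, q₁}
  have h01 : q₁ ≠ q₀ := by simpa using hq₁'
  have h02 : q₂ ≠ q₀ := fun h => hq₂' (by simp [h])
  have h12 : q₂ ≠ q₁ := fun h => hq₂' (by simp [h])
  let q : Fin 3 → ℕ := ![q₀, q₁, q₂]
  let g : Fin 3 → GF ℚ := ![g₀, g₁, g₂]
  let P : Fin 3 → Polynomial ℤ := ![P₀, P₁, P₂]
  have hq : ∀ j, (q j).Prime := by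
    intro j; fin_cases j <;> assumption
  have hqi : Function.Injective q := by
    intro i j hij
    fin_cases i <;> fin_cases j <;> simp [q] at hij ⊢ <;> omega
  have hg : ∀ j, (χ (g j) : ℚ_[ℓ]) = (q j : ℚ_[ℓ]) ^ w := by
    intro j; fin_cases j <;> assumption
  have hP : ∀ j, (P j).Monic := by
    intro j; fin_cases j <;> assumption
  have hy : ∀ j, Polynomial.aeval (δ (g j) : ℚ_[ℓ]) (P j) = 0 := by
    intro j; fin_cases j <;> assumption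
  -- the field generated by the values
  let y : Fin 3 → ℚ_[ℓ] := fun j => (δ (g j) : ℚ_[ℓ])
  have hyint : ∀ j, IsIntegral ℤ (y j) := fun j =>
    ⟨P j, hP j, by rw [← Polynomial.aeval_def]; exact hy j⟩
  let K := IntermediateField.adjoin ℚ (Set.range y)
  have hfd : FiniteDimensional ℚ K := IntermediateField.finiteDimensional_adjoin (by
    rintro x ⟨j, rfl⟩
    exact (hyint j).tower_top)
  have hnf : NumberField K := { }
  have hinj : Function.Injective (algebraMap K ℚ_[ℓ]) := (algebraMap K ℚ_[ℓ]).injective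
  let yK : Fin 3 → K := fun j =>
    ⟨y j, IntermediateField.subset_adjoin ℚ _ ⟨j, rfl⟩⟩
  have hyK : ∀ j, IsIntegral ℤ (yK j) := fun j => (isIntegral_algebraMap_iff hinj).1 (hyint j)
  let yO : Fin 3 → 𝓞 K := fun j => ⟨yK j, hyK j⟩
  -- logarithms
  have hℓ0 := p_pos (p := ℓ)
  have hl1 : ∃ g, l g ≠ 1 := by
    refine ⟨g₀, fun h => ?_⟩
    have h1 := hlχ g₀
    rw [h, toAdd_one, PadicInt.coe_zero, ee_zero, hg₀, ← pow_mul] at h1
    have h2 : q₀ ^ (w * M) = 1 := by exact_mod_cast h1.symm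
    rcases Nat.pow_eq_one.1 h2 with h3 | h3
    · exact hq₀.one_lt.ne' h3
    · exact (Nat.mul_ne_zero hw.ne' hM0) h3
  obtain ⟨a, c, hac⟩ := kw_padic hmod_all hf hl hl1
  let x : Fin 3 → ℚ_[ℓ] := fun j => ((Multiplicative.toAdd (l (g j)) : ℤ_[ℓ]) : ℚ_[ℓ])
  have hx : ∀ j, ‖x j‖ ≤ 1 := fun j => (Multiplicative.toAdd (l (g j)) : ℤ_[ℓ]).2
  have hxe : ∀ j, ee (x j) = ((q j : ℕ) : ℚ_[ℓ]) ^ (w * M) := by
    intro j
    have h1 := hlχ (g j)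
    rw [hg j, ← pow_mul] at h1
    exact h1
  have hw₁ : ‖(ℓ : ℚ_[ℓ]) ^ a‖ ≤ 1 := by
    have := norm_natCast_le_one (p := ℓ) (ℓ ^ a)
    rwa [Nat.cast_pow] at this
  have hrel : ¬ ∀ a' b' : ℤ, (a' : ℚ_[ℓ]) * (ℓ : ℚ_[ℓ]) ^ a + b' * (c : ℚ_[ℓ]) = 0 → a' = 0 ∧ b' = 0 := by
    intro hwi
    refine six_exp (algebraMap K ℚ_[ℓ]) hx hw₁ c.2 (fun j => ((q j : ℕ) : 𝓞 K) ^ (w * M * ℓ ^ a))
      (fun j => (yO j) ^ (M * ℓ ^ a)) ?_ ?_ ?_ hwi
    · intro j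
      have h1 : (ℓ : ℚ_[ℓ]) ^ a = ((ℓ ^ a : ℕ) : ℚ_[ℓ]) := by push_cast; rfl
      rw [h1, ee_natCast_mul (hx j), hxe, ← pow_mul]
      simp
    · intro j
      have h1 : (c : ℚ_[ℓ]) * x j = ((ℓ ^ a : ℕ) : ℚ_[ℓ]) *
          ((Multiplicative.toAdd (f (g j)) : ℤ_[ℓ]) : ℚ_[ℓ]) := by
        have h2 := congrArg (fun z : ℤ_[ℓ] => (z : ℚ_[ℓ])) (hac (g j))
        simp only [PadicInt.coe_mul, PadicInt.coe_pow, PadicInt.coe_natCast] at h2
        rw [Nat.cast_pow, h2]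
      rw [h1, ee_natCast_mul (Multiplicative.toAdd (f (g j)) : ℤ_[ℓ]).2, hfδ, ← pow_mul]
      simp only [map_pow]
      rfl
    · intro n hn
      have h1 : ee (∑ j, (n j : ℚ_[ℓ]) * x j) = 1 := by rw [hn, ee_zero]
      have hle : ∀ j, ‖(n j : ℚ_[ℓ]) * x j‖ ≤ 1 := by
        intro j
        rw [norm_mul]
        exact mul_le_one₀ (Padic.norm_int_le_one _) (norm_nonneg _) (hx j)
      rw [ee_sum _ _ fun j _ => hle j] at h1
      have h2 : ∏ j, ((q j : ℕ) : ℚ_[ℓ]) ^ ((w * M : ℕ) * n j : ℤ) = 1 := by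
        rw [← h1]
        refine Finset.prod_congr rfl fun j _ => ?_
        rw [ee_intCast_mul (hx j), hxe, zpow_mul, zpow_natCast]
      have h3 : ∏ j, ((q j : ℕ) : ℚ) ^ ((w * M : ℕ) * n j : ℤ) = 1 := by
        have h4 : ((∏ j, ((q j : ℕ) : ℚ) ^ ((w * M : ℕ) * n j : ℤ) : ℚ) : ℚ_[ℓ]) = ((1 : ℚ) : ℚ_[ℓ]) := by
          rw [Rat.cast_prod, Rat.cast_one, ← h2]
          refine Finset.prod_congr rfl fun j _ => ?_
          rw [Rat.cast_zpow, Rat.cast_natCast]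
        exact_mod_cast h4
      funext i
      have h5 := prod_prime_zpow_eq_one hq hqi h3 i
      rcases mul_eq_zero.1 h5 with h6 | h6
      · exact absurd (by exact_mod_cast h6) (Nat.mul_ne_zero hw.ne' hM0)
      · exact h6
  -- the two logarithms are proportional over the rational numbers
  obtain ⟨b, a', hb, hba⟩ : ∃ (b : ℕ) (a' : ℤ), 0 < b ∧ ∀ g, δ g ^ b = χ g ^ a' := by
    push Not at hrel
    obtain ⟨a', b', h1, h2⟩ := hrel
    have hb' : b' ≠ 0 := by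
      intro hb'
      rw [hb', Int.cast_zero, zero_mul, add_zero] at h1
      rcases mul_eq_zero.1 h1 with h3 | h3
      · exact h2 (by exact_mod_cast h3) hb'
      · exact pow_ne_zero a (by exact_mod_cast hℓ.out.ne_zero) h3
    have h3 : ∀ g, (b' : ℚ_[ℓ]) * ((Multiplicative.toAdd (f g) : ℤ_[ℓ]) : ℚ_[ℓ]) =
        ((-a' : ℤ) : ℚ_[ℓ]) * ((Multiplicative.toAdd (l g) : ℤ_[ℓ]) : ℚ_[ℓ]) := by
      intro g
      have h4 := congrArg (fun z : ℤ_[ℓ] => (z : ℚ_[ℓ])) (hac g)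
      simp only [PadicInt.coe_mul, PadicInt.coe_pow, PadicInt.coe_natCast] at h4
      have h5 : (ℓ : ℚ_[ℓ]) ^ a ≠ 0 := pow_ne_zero a (by exact_mod_cast hℓ.out.ne_zero)
      apply mul_left_cancel₀ h5
      push_cast
      linear_combination (b' : ℚ_[ℓ]) * h4 + ((Multiplicative.toAdd (l g) : ℤ_[ℓ]) : ℚ_[ℓ]) * h1
    have h4 : ∀ g, δ g ^ (M * b' : ℤ) = χ g ^ (M * -a' : ℤ) := by
      intro g
      apply Units.ext
      rw [Units.val_zpow_eq_zpow_val, Units.val_zpow_eq_zpow_val, zpow_mul, zpow_mul, zpow_natCast,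
        zpow_natCast, ← hfδ, ← hlχ, ← ee_intCast_mul (Multiplicative.toAdd (f g) : ℤ_[ℓ]).2,
        ← ee_intCast_mul (Multiplicative.toAdd (l g) : ℤ_[ℓ]).2, h3]
    rcases lt_or_gt_of_ne hb' with h5 | h5
    · refine ⟨M * (-b').toNat, M * a', Nat.mul_pos (Nat.pos_of_ne_zero hM0) (by omega), fun g => ?_⟩
      have h6 := h4 g
      rw [← zpow_natCast]
      have h7 : ((M * (-b').toNat : ℕ) : ℤ) = -(M * b' : ℤ) := by
        rw [Nat.cast_mul, Int.toNat_of_nonneg (by omega)]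
        ring
      rw [h7, zpow_neg, h6, ← zpow_neg]
      congr 1
      ring
    · refine ⟨M * b'.toNat, M * -a', Nat.mul_pos (Nat.pos_of_ne_zero hM0) (by omega), fun g => ?_⟩
      have h6 := h4 g
      rw [← zpow_natCast]
      have h7 : ((M * b'.toNat : ℕ) : ℤ) = (M * b' : ℤ) := by
        rw [Nat.cast_mul, Int.toNat_of_nonneg (by omega)]
      rw [h7, h6]
  -- absolute values
  obtain ⟨τ⟩ : Nonempty (K →+* ℂ) := inferInstance
  have h1 : τ (yK 0) ^ b = (q₀ : ℂ) ^ ((w : ℤ) * a') := by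
    have h2 := congrArg (Units.val) (hba g₀)
    rw [Units.val_pow_eq_pow_val, Units.val_zpow_eq_zpow_val, hg₀, ← zpow_natCast (_ : ℚ_[ℓ]) w,
      ← zpow_mul] at h2
    have h3 : yK 0 ^ b = (q₀ : K) ^ ((w : ℤ) * a') := by
      apply hinj
      rw [map_pow, map_zpow₀, map_natCast]
      exact h2
    have h4 := congrArg τ h3
    rw [map_pow, map_zpow₀, map_natCast] at h4
    exact h4
  have h2 : ‖τ (yK 0)‖ ^ 2 = (q₀ : ℝ) ^ (w * d) := by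
    apply hz₀
    have h3 : Polynomial.aeval (yK 0) P₀ = 0 := by
      apply hinj
      rw [map_zero, ← hy₀]
      exact (Polynomial.aeval_algebraMap_apply ℚ_[ℓ] (yK 0) P₀).symm
    have h4 : Polynomial.aeval (τ (yK 0)) P₀ = τ (Polynomial.aeval (yK 0) P₀) :=
      Polynomial.aeval_algHom_apply (τ.toIntAlgHom) (yK 0) P₀
    rw [h4, h3, map_zero]
  have hq₀1 : (1 : ℝ) < (q₀ : ℝ) := by exact_mod_cast hq₀.one_lt
  have h3 : ((q₀ : ℝ) ^ (w * d)) ^ b = ((q₀ : ℝ) ^ ((w : ℤ) * a')) ^ 2 := by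
    rw [← h2, ← pow_mul, mul_comm 2 b, pow_mul, ← norm_pow, h1, norm_zpow]
    simp
  have h4 : (q₀ : ℝ) ^ ((w * d * b : ℕ) : ℤ) = (q₀ : ℝ) ^ ((w : ℤ) * a' * 2) := by
    rw [zpow_natCast, pow_mul, h3, ← zpow_natCast, ← zpow_mul]
    norm_num
  have h5 : ((w * d * b : ℕ) : ℤ) = (w : ℤ) * a' * 2 :=
    zpow_right_injective₀ (by positivity) hq₀1.ne' h4
  have h6 : ((d * b : ℕ) : ℤ) = a' * 2 := by
    have h7 : (w : ℤ) ≠ 0 := by exact_mod_cast hw.ne'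
    apply mul_left_cancel₀ h7
    push_cast at h5 ⊢
    linarith
  refine ⟨b, hb, fun g => ?_⟩
  rw [← zpow_natCast (χ g), h6, zpow_mul, ← hba, mul_comm 2 b, pow_mul]
  rfl

end Pool.Agent.Y142
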