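import Pool.Agent.Y142.Schwarz

/-!
# Liouville's inequality at a `p`-adic place, and Siegel's lemma
-/

set_option autoImplicit false

namespace Pool.Agent.Y142

open Filter Topology NumberField Module

variable {p : ℕ} [hp : Fact p.Prime]

theorem norm_le_one_of_isIntegral {x : ℚ_[p]} (hx : IsIntegral ℤ x) : ‖x‖ ≤ 1 := by
  have h1 : IsIntegral ℤ_[p] x := hx.tower_top
  obtain ⟨y, hy⟩ := (IsIntegrallyClosed.isIntegral_iff (R := ℤ_[p]) (K := ℚ_[p])).1 h1
  rw [← hy]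
  exact y.2

theorem norm_natCast_ge {n : ℕ} (hn : n ≠ 0) : ((n : ℝ))⁻¹ ≤ ‖(n : ℚ_[p])‖ := by
  have h1 : (p : ℝ) ^ (-(padicValNat p n : ℤ)) = ‖(n : ℚ_[p])‖ := by
    rw [Padic.norm_eq_zpow_neg_valuation (by exact_mod_cast hn)]
    simp [Padic.valuation_natCast]
  rw [← h1, zpow_neg, zpow_natCast]
  have hp0 := p_pos (p := p)
  apply inv_anti₀ (by positivity)
  exact_mod_cast Nat.le_of_dvd (Nat.pos_of_ne_zero hn) pow_padicValNat_dvd

/-- **Liouville's inequality** -/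
theorem liouville {K : Type*} [Field K] [NumberField K] (σ : K →+* ℚ_[p]) {z : 𝓞 K} (hz : z ≠ 0) :
    1 ≤ house (z : K) ^ finrank ℚ K * ‖σ z‖ := by
  set N : ℕ := Ideal.absNorm (Ideal.span {z}) with hN
  have hN0 : N ≠ 0 := by
    rw [hN, Ne, Ideal.absNorm_eq_zero_iff, Ideal.span_singleton_eq_bot]
    exact hz
  obtain ⟨z', hz'⟩ : z ∣ (N : 𝓞 K) := by
    rw [← Ideal.mem_span_singleton, hN]
    exact Ideal.absNorm_mem _
  have h1 : σ ((N : 𝓞 K) : K) = (N : ℚ_[p]) := by simp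
  have h2 : ‖(N : ℚ_[p])‖ ≤ ‖σ z‖ := by
    rw [← h1, hz']
    have h3 : ‖σ (z' : K)‖ ≤ 1 := norm_le_one_of_isIntegral ((z'.isIntegral_coe).map (σ.toIntAlgHom))
    calc ‖σ ((z * z' : 𝓞 K) : K)‖ = ‖σ z‖ * ‖σ z'‖ := by
          rw [← norm_mul, ← map_mul]
          rfl
      _ ≤ ‖σ z‖ * 1 := by gcongr
      _ = _ := mul_one _
  have h4 : (N : ℝ) ≤ house (z : K) ^ finrank ℚ K := by
    have h5 : (N : ℝ) = ‖Algebra.norm ℚ (z : K)‖ := by
      rw [hN, Ideal.absNorm_span_singleton]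
      rw [← Algebra.coe_norm_int]
      rw [← Rat.norm_cast_real]
      push_cast
      rw [Nat.cast_natAbs]
      simp
    obtain ⟨τ⟩ : Nonempty (K →+* ℂ) := inferInstance
    have h6 := norm_norm_le_norm_mul_house_pow (z : K) τ
    have h7 := norm_embedding_le_house (z : K) τ
    have h8 : 0 < finrank ℚ K := finrank_pos
    calc (N : ℝ) = _ := h5
      _ ≤ ‖τ z‖ * house (z : K) ^ (finrank ℚ K - 1) := h6
      _ ≤ house (z : K) * house (z : K) ^ (finrank ℚ K - 1) := by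
          gcongr
          exact pow_nonneg (house_nonneg _) _
      _ = _ := by
          rw [← pow_succ', Nat.sub_add_cancel h8]
  have hNpos : (0 : ℝ) < N := by exact_mod_cast Nat.pos_of_ne_zero hN0
  calc (1 : ℝ) = N * (N : ℝ)⁻¹ := (mul_inv_cancel₀ hNpos.ne').symm
    _ ≤ house (z : K) ^ finrank ℚ K * ‖σ z‖ := by
        gcongr
        · exact pow_nonneg (house_nonneg _) _
        · exact (norm_natCast_ge hN0).trans h2

/-- **Siegel's lemma** with twice as many unknowns as equations -/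
theorem siegel (K : Type*) [Field K] [NumberField K] : ∃ c : ℝ, 1 ≤ c ∧
    ∀ (α β : Type) [Fintype α] [Fintype β] (a : Matrix α β (𝓞 K)), a ≠ 0 →
      Fintype.card β = 2 * Fintype.card α → ∀ A : ℝ, (∀ k l, house ((a k l : 𝓞 K) : K) ≤ A) →
      ∃ ξ : β → 𝓞 K, ξ ≠ 0 ∧ (∀ k, ∑ l, a k l * ξ l = 0) ∧
        ∀ l, house ((ξ l : 𝓞 K) : K) ≤ c * (Fintype.card β * A) := by
  classical
  have key : ∃ c : ℝ, ∀ (α β : Type) [Fintype α] [Fintype β] (a : Matrix α β (𝓞 K)), a ≠ 0 →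
      Fintype.card β = 2 * Fintype.card α → ∀ A : ℝ, (∀ k l, house ((a k l : 𝓞 K) : K) ≤ A) →
      ∃ ξ : β → 𝓞 K, ξ ≠ 0 ∧ (∀ k, ∑ l, a k l * ξ l = 0) ∧
        ∀ l, house ((ξ l : 𝓞 K) : K) ≤ c * (c * Fintype.card β * A) := by
    refine ⟨?w, ?_⟩
    rotate_left
    intro α β _ _ a ha hcard A hA
    have hα : 0 < Fintype.card α := by
      rcases Nat.eq_zero_or_pos (Fintype.card α) with h | h
      · exfalso
        apply ha
        have := Fintype.card_eq_zero_iff.1 h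
        ext k
        exact this.elim k
      · exact h
    obtain ⟨ξ, h0, h1, h2⟩ := house.exists_ne_zero_int_vec_house_le K a ha hα (q := Fintype.card β)
      (by omega) rfl hA rfl
    refine ⟨ξ, h0, fun k => congrFun h1 k, fun l => ?_⟩
    have h3 := h2 l
    have h4 : ((Fintype.card α : ℝ) / ((Fintype.card β : ℝ) - Fintype.card α)) = 1 := by
      rw [hcard]
      push_cast
      have : (Fintype.card α : ℝ) ≠ 0 := by exact_mod_cast hα.ne'
      rw [show (2 : ℝ) * Fintype.card α - Fintype.card α = Fintype.card α by ring, div_self this]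
    rw [h4, Real.rpow_one] at h3
    exact h3
  obtain ⟨c, hc⟩ := key
  refine ⟨1 + c ^ 2, by nlinarith [sq_nonneg c], fun α β _ _ a ha hcard A hA => ?_⟩
  obtain ⟨ξ, h0, h1, h2⟩ := hc α β a ha hcard A hA
  refine ⟨ξ, h0, h1, fun l => (h2 l).trans ?_⟩
  have hA0 : 0 ≤ A := by
    by_contra hneg
    apply ha
    ext k l
    have := (house_nonneg _).trans (hA k l)
    exact absurd this hneg
  have h3 : 0 ≤ (Fintype.card β : ℝ) * A := by positivity
  nlinarith

end Pool.Agent.Y142
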