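import Mathlib

/-!
# Algebraic numbers all of whose `ℓ`-adic conjugates are close to one
-/

set_option autoImplicit false

namespace Pool.Agent.Y142

open Polynomial Module

section ConjIn

variable {F E : Type*} [Field F] [Field E]

/-- `y` is an algebraic integer all of whose conjugates in `E` have the property `R` -/
def ConjIn (R : E → Prop) (y : F) : Prop :=
  ∃ P : ℤ[X], P.Monic ∧ aeval y P = 0 ∧ ∀ z : E, aeval z P = 0 → R z

theorem conjIn_iff [CharZero F] [CharZero E] {R : E → Prop} {y : F} :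
    ConjIn R y ↔ IsIntegral ℤ y ∧ ∀ z : E, aeval z (minpoly ℚ y) = 0 → R z := by
  constructor
  · rintro ⟨P, hP, h1, h2⟩
    have hint : IsIntegral ℤ y := ⟨P, hP, by rw [← aeval_def]; exact h1⟩
    refine ⟨hint, fun z hz => h2 z ?_⟩
    obtain ⟨R₁, hR⟩ := minpoly.isIntegrallyClosed_dvd hint h1
    rw [hR, map_mul]
    have h3 : aeval z (minpoly ℤ y) = 0 := by
      rw [minpoly.isIntegrallyClosed_eq_field_fractions' ℚ hint, aeval_map_algebraMap] at hz
      exact hz
    rw [h3, zero_mul]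
  · rintro ⟨hint, h⟩
    refine ⟨minpoly ℤ y, minpoly.monic hint, minpoly.aeval ℤ y, fun z hz => h z ?_⟩
    rw [minpoly.isIntegrallyClosed_eq_field_fractions' ℚ hint, aeval_map_algebraMap]
    exact hz

theorem ConjIn.mul [CharZero F] [CharZero E] [IsAlgClosed E] {R R' R'' : E → Prop} {y y' : F}
    (h : ConjIn R y) (h' : ConjIn R' y') (hm : ∀ z z', R z → R' z' → R'' (z * z')) :
    ConjIn R'' (y * y') := by
  rw [conjIn_iff] at h h' ⊢
  refine ⟨h.1.mul h'.1, fun z hz => ?_⟩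
  have hs : ∀ s ∈ ({y, y'} : Set F), IsIntegral ℚ s ∧ ((minpoly ℚ s).map (algebraMap ℚ E)).Splits := by
    intro s hs
    refine ⟨?_, IsAlgClosed.splits _⟩
    rcases hs with rfl | rfl
    · exact h.1.tower_top
    · exact h'.1.tower_top
  have hy : y ∈ IntermediateField.adjoin ℚ ({y, y'} : Set F) :=
    IntermediateField.subset_adjoin ℚ _ (Or.inl rfl)
  have hy' : y' ∈ IntermediateField.adjoin ℚ ({y, y'} : Set F) :=
    IntermediateField.subset_adjoin ℚ _ (Or.inr rfl)
  obtain ⟨φ, hφ⟩ := IntermediateField.exists_algHom_adjoin_of_splits_of_aeval hs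
    (mul_mem hy hy') hz
  have h1 : φ ⟨y, hy⟩ * φ ⟨y', hy'⟩ = z := by
    rw [← map_mul, ← hφ]
    rfl
  have key : ∀ (x : F) (hx : x ∈ IntermediateField.adjoin ℚ ({y, y'} : Set F)),
      aeval (φ ⟨x, hx⟩) (minpoly ℚ x) = 0 := by
    intro x hx
    rw [aeval_algHom_apply]
    have h2 : aeval (⟨x, hx⟩ : IntermediateField.adjoin ℚ ({y, y'} : Set F)) (minpoly ℚ x) = 0 := by
      apply Subtype.val_injective
      have h3 := aeval_algebraMap_apply F (⟨x, hx⟩ : IntermediateField.adjoin ℚ ({y, y'} : Set F))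
        (minpoly ℚ x)
      rw [IntermediateField.algebraMap_apply, minpoly.aeval] at h3
      exact h3.symm
    rw [h2, map_zero]
  rw [← h1]
  exact hm _ _ (h.2 _ (key y hy)) (h'.2 _ (key y' hy'))

theorem conjIn_one {R : E → Prop} (h : R 1) : ConjIn R (1 : F) :=
  ⟨X - 1, by rw [← C_1]; exact monic_X_sub_C 1, by simp, fun z hz => by
    have : z = 1 := by simpa [sub_eq_zero] using hz
    rw [this]; exact h⟩

theorem ConjIn.multiset_prod [CharZero F] [CharZero E] [IsAlgClosed E] {R : E → Prop} (h1 : R 1)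
    (hm : ∀ z z', R z → R z' → R (z * z')) {s : Multiset F} (h : ∀ y ∈ s, ConjIn R y) :
    ConjIn R s.prod := by
  induction s using Multiset.induction_on with
  | empty => simpa using conjIn_one h1
  | cons a s ih =>
    rw [Multiset.prod_cons]
    exact (h a (Multiset.mem_cons_self _ _)).mul
      (ih fun y hy => h y (Multiset.mem_cons_of_mem hy)) hm

theorem ConjIn.prod [CharZero F] [CharZero E] [IsAlgClosed E] {R : E → Prop} (h1 : R 1)
    (hm : ∀ z z', R z → R z' → R (z * z')) {ι : Type*} {s : Finset ι} {f : ι → F}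
    (h : ∀ i ∈ s, ConjIn R (f i)) : ConjIn R (∏ i ∈ s, f i) := by
  rw [Finset.prod_eq_multiset_prod]
  apply ConjIn.multiset_prod h1 hm
  intro y hy
  obtain ⟨i, hi, rfl⟩ := Multiset.mem_map.1 hy
  exact h i hi

theorem conjIn_algebraMap {F' : Type*} [Field F'] [Algebra F F'] {R : E → Prop} {y : F} :
    ConjIn R (algebraMap F F' y) ↔ ConjIn R y := by
  have h : ∀ P : ℤ[X], aeval (algebraMap F F' y) P = 0 ↔ aeval y P = 0 := by
    intro P
    rw [aeval_algebraMap_apply]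
    exact map_eq_zero _
  simp only [ConjIn, h]

end ConjIn

section Near

variable {ℓ : ℕ} [hℓ : Fact ℓ.Prime]

theorem near_mul {ε : ℝ} (h1 : ε ≤ 1) {z z' : PadicAlgCl ℓ} (h : ‖z - 1‖ ≤ ε) (h' : ‖z' - 1‖ ≤ ε) :
    ‖z * z' - 1‖ ≤ ε := by
  have hz : ‖z‖ ≤ 1 := by
    have h2 : z = (z - 1) + 1 := by ring
    rw [h2]
    refine (IsUltrametricDist.norm_add_le_max _ _).trans (max_le (h.trans h1) ?_)
    rw [norm_one]
  have h2 : z * z' - 1 = z * (z' - 1) + (z - 1) := by ring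
  rw [h2]
  refine (IsUltrametricDist.norm_add_le_max _ _).trans (max_le ?_ h)
  rw [norm_mul]
  calc ‖z‖ * ‖z' - 1‖ ≤ 1 * ‖z' - 1‖ := by gcongr
    _ ≤ ε := by rw [one_mul]; exact h'

/-- being close to one -/
def NearOne (ε : ℝ) (z : PadicAlgCl ℓ) : Prop := ‖z - 1‖ ≤ ε

theorem nearOne_prod {ι F : Type*} [Field F] [CharZero F] {ε : ℝ} (h0 : 0 ≤ ε) (h1 : ε ≤ 1)
    {s : Finset ι} {f : ι → F} (h : ∀ i ∈ s, ConjIn (NearOne (ℓ := ℓ) ε) (f i)) :
    ConjIn (NearOne (ℓ := ℓ) ε) (∏ i ∈ s, f i) := by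
  refine ConjIn.prod ?_ ?_ h
  · unfold NearOne
    rw [sub_self, norm_zero]
    exact h0
  · intro z z' h h'
    exact near_mul h1 h h'

theorem nearOne_multiset_prod {F : Type*} [Field F] [CharZero F] {ε : ℝ} (h0 : 0 ≤ ε) (h1 : ε ≤ 1)
    {s : Multiset F} (h : ∀ y ∈ s, ConjIn (NearOne (ℓ := ℓ) ε) y) :
    ConjIn (NearOne (ℓ := ℓ) ε) s.prod := by
  refine ConjIn.multiset_prod ?_ ?_ h
  · unfold NearOne
    rw [sub_self, norm_zero]
    exact h0
  · intro z z' h h'
    exact near_mul h1 h h'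

theorem near_of_charpoly {ι : Type*} [Fintype ι] [DecidableEq ι] {ε : ℝ} (hε : 0 ≤ ε)
    {A : Matrix ι ι ℚ_[ℓ]} (hA : ∀ i j, ‖(A - 1) i j‖ ≤ ε) {z : PadicAlgCl ℓ}
    (hz : aeval z A.charpoly = 0) : ‖z - 1‖ ≤ ε := by
  classical
  set A' : Matrix ι ι (PadicAlgCl ℓ) := A.map (algebraMap ℚ_[ℓ] (PadicAlgCl ℓ)) with hA'
  have h1 : (Matrix.scalar ι z - A').det = 0 := by
    rw [← Matrix.eval_charpoly, hA', Matrix.charpoly_map, eval_map_algebraMap]
    exact hz
  obtain ⟨x, hx0, hx⟩ := Matrix.exists_mulVec_eq_zero_iff.2 h1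
  have hne : Nonempty ι := by
    by_contra hcon
    rw [not_nonempty_iff] at hcon
    exact hx0 (Subsingleton.elim _ _)
  obtain ⟨i, hi⟩ := Finite.exists_max (fun i => ‖x i‖)
  have hxi : 0 < ‖x i‖ := by
    rw [norm_pos_iff]
    intro h0
    apply hx0
    funext j
    have := hi j
    rw [h0, norm_zero] at this
    exact norm_le_zero_iff.1 this
  have h2 : (z - 1) * x i = ∑ j, (A' - 1) i j * x j := by
    have h3 := congrFun hx i
    rw [Matrix.sub_mulVec, Pi.sub_apply, Pi.zero_apply, Matrix.scalar_apply, Matrix.mulVec_diagonal] at h3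
    have h4 : ((A' - 1).mulVec x) i = ∑ j, (A' - 1) i j * x j := rfl
    rw [← h4, Matrix.sub_mulVec, Pi.sub_apply, Matrix.one_mulVec]
    linear_combination h3
  have h3 : ‖z - 1‖ * ‖x i‖ ≤ ε * ‖x i‖ := by
    rw [← norm_mul, h2]
    apply IsUltrametricDist.norm_sum_le_of_forall_le_of_nonneg (by positivity)
    intro j _
    rw [norm_mul]
    have h5 : ‖(A' - 1) i j‖ ≤ ε := by
      have h6 : (A' - 1) i j = algebraMap ℚ_[ℓ] (PadicAlgCl ℓ) ((A - 1) i j) := by
        rw [Matrix.sub_apply, Matrix.sub_apply, map_sub, hA', Matrix.map_apply, Matrix.one_apply,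
          Matrix.one_apply]
        split_ifs <;> simp
      rw [h6, PadicAlgCl.norm_extends]
      exact hA i j
    exact mul_le_mul h5 (hi j) (norm_nonneg _) hε
  exact le_of_mul_le_mul_right h3 hxi

end Near

end Pool.Agent.Y142
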