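import Mathlib

/-!
# The `p`-adic exponential function on `p ^ 2 ℤ_p`
-/

set_option autoImplicit false

namespace Pool.Agent.Y142

open NormedSpace Filter Topology

variable {p : ℕ} [hp : Fact p.Prime]

theorem p_pos : (0 : ℝ) < p := by exact_mod_cast hp.out.pos

theorem p_one_lt : (1 : ℝ) < p := by exact_mod_cast hp.out.one_lt

theorem val_factorial_le {n : ℕ} (hn : n ≠ 0) : padicValNat p n.factorial ≤ n - 1 := by
  have h := sub_one_mul_padicValNat_factorial_lt_of_ne_zero (p := p) hn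
  have h2 : 1 ≤ p - 1 := by have := hp.out.two_le; omega
  have h3 : padicValNat p n.factorial ≤ (p - 1) * padicValNat p n.factorial :=
    Nat.le_mul_of_pos_left _ h2
  omega

theorem norm_factorial_inv {n : ℕ} : ‖((n.factorial : ℚ_[p]))⁻¹‖ ≤ (p : ℝ) ^ (n - 1) := by
  have h1 : (p : ℝ) ^ (-(padicValNat p n.factorial : ℤ)) = ‖(n.factorial : ℚ_[p])‖ := by
    rw [Padic.norm_eq_zpow_neg_valuation (by exact_mod_cast n.factorial_ne_zero)]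
    simp [Padic.valuation_natCast]
  rw [norm_inv, ← h1, zpow_neg, inv_inv, zpow_natCast]
  apply pow_le_pow_right₀ p_one_lt.le
  rcases Nat.eq_zero_or_pos n with h | h
  · subst h; simp
  · exact val_factorial_le h.ne'

theorem norm_factorial_inv' {n : ℕ} : ‖((n.factorial : ℚ_[p]))⁻¹‖ ≤ (p : ℝ) ^ n :=
  norm_factorial_inv.trans (pow_le_pow_right₀ p_one_lt.le (Nat.sub_le _ _))

theorem radius_ge : (((p : NNReal)⁻¹ : NNReal) : ENNReal) ≤ (expSeries ℚ_[p] ℚ_[p]).radius := by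
  apply FormalMultilinearSeries.le_radius_of_bound _ 1
  intro n
  have h1 : ‖expSeries ℚ_[p] ℚ_[p] n‖ ≤ (p : ℝ) ^ n := by
    rw [expSeries, norm_smul, ContinuousMultilinearMap.norm_mkPiAlgebraFin, mul_one]
    exact norm_factorial_inv'
  calc ‖expSeries ℚ_[p] ℚ_[p] n‖ * (((p : NNReal)⁻¹ : NNReal) : ℝ) ^ n
      ≤ (p : ℝ) ^ n * ((p : ℝ)⁻¹) ^ n := by
        simp only [NNReal.coe_inv, NNReal.coe_natCast]
        gcongr
    _ = 1 := by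
        rw [← mul_pow, mul_inv_cancel₀ p_pos.ne', one_pow]

theorem norm_p_sq : ‖(p : ℚ_[p]) ^ 2‖ = ((p : ℝ) ^ 2)⁻¹ := by
  rw [norm_pow, Padic.norm_p, inv_pow]

theorem mem_ball {x : ℚ_[p]} (hx : ‖x‖ ≤ 1) :
    (p : ℚ_[p]) ^ 2 * x ∈ Metric.eball (0 : ℚ_[p]) (expSeries ℚ_[p] ℚ_[p]).radius := by
  rw [Metric.mem_eball, edist_zero_right]
  refine lt_of_lt_of_le ?_ radius_ge
  rw [enorm_eq_nnnorm, ENNReal.coe_lt_coe, ← NNReal.coe_lt_coe, coe_nnnorm, norm_mul, norm_p_sq]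
  simp only [NNReal.coe_inv, NNReal.coe_natCast]
  calc ((p : ℝ) ^ 2)⁻¹ * ‖x‖ ≤ ((p : ℝ) ^ 2)⁻¹ * 1 := by gcongr
    _ = ((p : ℝ))⁻¹ * ((p : ℝ))⁻¹ := by rw [mul_one, sq, mul_inv]
    _ < 1 * ((p : ℝ))⁻¹ := by
        have h1 : ((p : ℝ))⁻¹ < 1 := inv_lt_one_of_one_lt₀ p_one_lt
        have h2 : 0 < ((p : ℝ))⁻¹ := inv_pos.2 p_pos
        gcongr
    _ = _ := one_mul _

/-- `ee x = exp (p ^ 2 x)` -/
noncomputable def ee (x : ℚ_[p]) : ℚ_[p] := exp ((p : ℚ_[p]) ^ 2 * x)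

/-- the coefficients of the power series of `ee` -/
noncomputable def ec (p : ℕ) [Fact p.Prime] (n : ℕ) : ℚ_[p] :=
  ((p : ℚ_[p]) ^ 2) ^ n * ((n.factorial : ℚ_[p]))⁻¹

theorem norm_ec (n : ℕ) : ‖ec p n‖ ≤ ((p : ℝ) ^ n)⁻¹ := by
  rw [ec, norm_mul, norm_pow, norm_p_sq]
  calc (((p : ℝ) ^ 2)⁻¹) ^ n * ‖((n.factorial : ℚ_[p]))⁻¹‖ ≤ (((p : ℝ) ^ 2)⁻¹) ^ n * (p : ℝ) ^ n := by
        gcongr
        exact norm_factorial_inv'
    _ = ((p : ℝ) ^ n)⁻¹ := by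
        have := p_pos (p := p)
        rw [inv_pow, ← pow_mul, inv_mul_eq_iff_eq_mul₀ (by positivity), ← div_eq_mul_inv,
          eq_div_iff (by positivity), ← pow_add]
        congr 1
        ring

theorem norm_ec' {n : ℕ} (hn : 2 ≤ n) : ‖ec p n‖ ≤ ((p : ℝ) ^ 3)⁻¹ := by
  rw [ec, norm_mul, norm_pow, norm_p_sq]
  have hp0 := p_pos (p := p)
  calc (((p : ℝ) ^ 2)⁻¹) ^ n * ‖((n.factorial : ℚ_[p]))⁻¹‖
      ≤ (((p : ℝ) ^ 2)⁻¹) ^ n * (p : ℝ) ^ (n - 1) := by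
        gcongr
        exact norm_factorial_inv
    _ = ((p : ℝ) ^ (n + 1))⁻¹ := by
        obtain ⟨m, rfl⟩ : ∃ m, n = m + 1 := ⟨n - 1, by omega⟩
        simp only [Nat.add_sub_cancel]
        rw [inv_pow, ← pow_mul, inv_mul_eq_iff_eq_mul₀ (by positivity), ← div_eq_mul_inv,
          eq_div_iff (by positivity), ← pow_add]
        congr 1
        ring
    _ ≤ ((p : ℝ) ^ 3)⁻¹ := by
        apply inv_anti₀ (by positivity)
        exact pow_le_pow_right₀ p_one_lt.le (by omega)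

theorem hasSum_ee {x : ℚ_[p]} (hx : ‖x‖ ≤ 1) : HasSum (fun n => ec p n * x ^ n) (ee x) := by
  have h := expSeries_hasSum_exp_of_mem_ball' (𝕂 := ℚ_[p]) _ (mem_ball hx)
  have h2 : (fun n => ec p n * x ^ n) =
      fun n : ℕ => ((n.factorial : ℚ_[p]))⁻¹ • ((p : ℚ_[p]) ^ 2 * x) ^ n := by
    funext n
    rw [ec, smul_eq_mul, mul_pow]
    ring
  rw [h2]
  exact h

theorem ee_zero : ee (0 : ℚ_[p]) = 1 := by
  rw [ee, mul_zero, exp_zero]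

theorem ee_add {x y : ℚ_[p]} (hx : ‖x‖ ≤ 1) (hy : ‖y‖ ≤ 1) : ee (x + y) = ee x * ee y := by
  rw [ee, mul_add]
  exact exp_add_of_mem_ball (𝕂 := ℚ_[p]) (mem_ball hx) (mem_ball hy)

theorem norm_ee_sub_sub {x : ℚ_[p]} (hx : ‖x‖ ≤ 1) :
    ‖ee x - 1 - (p : ℚ_[p]) ^ 2 * x‖ ≤ ((p : ℝ) ^ 3)⁻¹ * ‖x‖ := by
  have h := hasSum_ee hx
  have h1 := (hasSum_nat_add_iff' 2).2 h
  have h2 : ∑ i ∈ Finset.range 2, ec p i * x ^ i = 1 + (p : ℚ_[p]) ^ 2 * x := by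
    simp [Finset.sum_range_succ, ec]
  rw [h2, ← sub_sub] at h1
  have hclosed : IsClosed {z : ℚ_[p] | ‖z‖ ≤ ((p : ℝ) ^ 3)⁻¹ * ‖x‖} :=
    isClosed_le continuous_norm continuous_const
  refine hclosed.mem_of_tendsto h1 (Eventually.of_forall fun s => ?_)
  show ‖∑ i ∈ s, ec p (i + 2) * x ^ (i + 2)‖ ≤ _
  refine IsUltrametricDist.norm_sum_le_of_forall_le_of_nonneg (by have := p_pos (p := p); positivity)
    fun i _ => ?_
  rw [norm_mul, norm_pow]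
  have h3 : ‖x‖ ^ (i + 2) ≤ ‖x‖ := by
    calc ‖x‖ ^ (i + 2) = ‖x‖ ^ (i + 1) * ‖x‖ := by ring
      _ ≤ 1 * ‖x‖ := by
          gcongr
          exact pow_le_one₀ (norm_nonneg _) hx
      _ = ‖x‖ := one_mul _
  exact mul_le_mul (norm_ec' (by omega)) h3 (by positivity) (by have := p_pos (p := p); positivity)

theorem norm_ee_sub_one {x : ℚ_[p]} (hx : ‖x‖ ≤ 1) : ‖ee x - 1‖ = ((p : ℝ) ^ 2)⁻¹ * ‖x‖ := by
  rcases eq_or_ne x 0 with h0 | h0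
  · subst h0; simp [ee_zero]
  have h1 := norm_ee_sub_sub hx
  have h2 : ‖(p : ℚ_[p]) ^ 2 * x‖ = ((p : ℝ) ^ 2)⁻¹ * ‖x‖ := by rw [norm_mul, norm_p_sq]
  have hx0 : 0 < ‖x‖ := norm_pos_iff.2 h0
  have h3 : ‖ee x - 1 - (p : ℚ_[p]) ^ 2 * x‖ < ‖(p : ℚ_[p]) ^ 2 * x‖ := by
    refine lt_of_le_of_lt h1 ?_
    rw [h2]
    have hp0 := p_pos (p := p)
    have : ((p : ℝ) ^ 3)⁻¹ < ((p : ℝ) ^ 2)⁻¹ := by
      apply inv_strictAnti₀ (by positivity)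
      exact pow_lt_pow_right₀ p_one_lt (by norm_num)
    gcongr
  have h4 : ee x - 1 = (ee x - 1 - (p : ℚ_[p]) ^ 2 * x) + (p : ℚ_[p]) ^ 2 * x := by ring
  rw [h4, IsUltrametricDist.norm_add_eq_max_of_norm_ne_norm h3.ne, max_eq_right h3.le, h2]

theorem norm_ee {x : ℚ_[p]} (hx : ‖x‖ ≤ 1) : ‖ee x‖ = 1 := by
  have h1 := norm_ee_sub_one hx
  have hp0 := p_pos (p := p)
  have h2 : ‖ee x - 1‖ < 1 := by
    rw [h1]
    calc ((p : ℝ) ^ 2)⁻¹ * ‖x‖ ≤ ((p : ℝ) ^ 2)⁻¹ * 1 := by gcongr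
      _ < 1 := by
        rw [mul_one]
        exact inv_lt_one_of_one_lt₀ (one_lt_pow₀ p_one_lt (by norm_num))
  have h3 : ‖ee x - 1‖ ≠ ‖(1 : ℚ_[p])‖ := by rw [norm_one]; exact h2.ne
  have h4 : ee x = (ee x - 1) + 1 := by ring
  rw [h4, IsUltrametricDist.norm_add_eq_max_of_norm_ne_norm h3, norm_one, max_eq_right h2.le]

theorem ee_ne_zero {x : ℚ_[p]} (hx : ‖x‖ ≤ 1) : ee x ≠ 0 := by
  rw [← norm_pos_iff, norm_ee hx]
  exact one_pos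

theorem ee_eq_one {x : ℚ_[p]} (hx : ‖x‖ ≤ 1) (h : ee x = 1) : x = 0 := by
  have h1 := norm_ee_sub_one hx
  rw [h, sub_self, norm_zero] at h1
  have hp0 := p_pos (p := p)
  rcases mul_eq_zero.1 h1.symm with h2 | h2
  · exact absurd h2 (by positivity)
  · exact norm_eq_zero.1 h2

theorem ee_neg {x : ℚ_[p]} (hx : ‖x‖ ≤ 1) : ee (-x) = (ee x)⁻¹ := by
  have h := ee_add hx (y := -x) (by rwa [norm_neg])
  rw [add_neg_cancel, ee_zero] at h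
  exact eq_inv_of_mul_eq_one_right h.symm

theorem ee_sub {x y : ℚ_[p]} (hx : ‖x‖ ≤ 1) (hy : ‖y‖ ≤ 1) : ee (x - y) = ee x / ee y := by
  rw [sub_eq_add_neg, ee_add hx (by rwa [norm_neg]), ee_neg hy, div_eq_mul_inv]

theorem norm_add_le_one {x y : ℚ_[p]} (hx : ‖x‖ ≤ 1) (hy : ‖y‖ ≤ 1) : ‖x + y‖ ≤ 1 :=
  (IsUltrametricDist.norm_add_le_max x y).trans (max_le hx hy)

theorem norm_sub_le_one {x y : ℚ_[p]} (hx : ‖x‖ ≤ 1) (hy : ‖y‖ ≤ 1) : ‖x - y‖ ≤ 1 := by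
  rw [sub_eq_add_neg]
  exact norm_add_le_one hx (by rwa [norm_neg])

theorem norm_natCast_le_one (n : ℕ) : ‖(n : ℚ_[p])‖ ≤ 1 := by
  have := Padic.norm_int_le_one (p := p) n
  simpa using this

theorem ee_inj {x y : ℚ_[p]} (hx : ‖x‖ ≤ 1) (hy : ‖y‖ ≤ 1) (h : ee x = ee y) : x = y := by
  have h1 : ee (x - y) = 1 := by rw [ee_sub hx hy, h, div_self (ee_ne_zero hy)]
  exact sub_eq_zero.1 (ee_eq_one (norm_sub_le_one hx hy) h1)

theorem norm_ee_sub_ee {x y : ℚ_[p]} (hx : ‖x‖ ≤ 1) (hy : ‖y‖ ≤ 1) :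
    ‖ee x - ee y‖ = ((p : ℝ) ^ 2)⁻¹ * ‖x - y‖ := by
  have h1 : ee x - ee y = ee y * (ee (x - y) - 1) := by
    rw [ee_sub hx hy]
    field_simp [ee_ne_zero hy]
  rw [h1, norm_mul, norm_ee hy, one_mul, norm_ee_sub_one (norm_sub_le_one hx hy)]

theorem ee_natCast_mul {x : ℚ_[p]} (hx : ‖x‖ ≤ 1) (n : ℕ) : ee ((n : ℚ_[p]) * x) = ee x ^ n := by
  induction n with
  | zero => simp [ee_zero]
  | succ n ih =>
    have h1 : ‖(n : ℚ_[p]) * x‖ ≤ 1 := by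
      rw [norm_mul]
      exact mul_le_one₀ (norm_natCast_le_one n) (norm_nonneg _) hx
    push_cast
    rw [add_mul, one_mul, ee_add h1 hx, ih, pow_succ]

theorem ee_intCast_mul {x : ℚ_[p]} (hx : ‖x‖ ≤ 1) (n : ℤ) : ee ((n : ℚ_[p]) * x) = ee x ^ n := by
  obtain ⟨m, rfl | rfl⟩ := n.eq_nat_or_neg
  · rw [zpow_natCast, Int.cast_natCast, ee_natCast_mul hx]
  · have h1 : ‖(m : ℚ_[p]) * x‖ ≤ 1 := by
      rw [norm_mul]
      exact mul_le_one₀ (norm_natCast_le_one m) (norm_nonneg _) hx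
    rw [zpow_neg, zpow_natCast, Int.cast_neg, Int.cast_natCast, neg_mul, ee_neg h1,
      ee_natCast_mul hx]

theorem ee_sum {ι : Type*} (s : Finset ι) (x : ι → ℚ_[p]) (hx : ∀ i ∈ s, ‖x i‖ ≤ 1) :
    ee (∑ i ∈ s, x i) = ∏ i ∈ s, ee (x i) := by
  classical
  induction s using Finset.induction_on with
  | empty => simp [ee_zero]
  | insert a s ha ih =>
    rw [Finset.sum_insert ha, Finset.prod_insert ha, ee_add (hx a (Finset.mem_insert_self _ _)) ?_,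
      ih fun i hi => hx i (Finset.mem_insert_of_mem hi)]
    exact IsUltrametricDist.norm_sum_le_of_forall_le_of_nonneg zero_le_one
      fun i hi => hx i (Finset.mem_insert_of_mem hi)

/-- surjectivity of the exponential function -/
theorem exists_ee {u : ℚ_[p]} (hu : ‖u - 1‖ ≤ ((p : ℝ) ^ 2)⁻¹) : ∃ x : ℚ_[p], ‖x‖ ≤ 1 ∧ ee x = u := by
  have hp0 := p_pos (p := p)
  have hu1 : ‖u‖ = 1 := by
    have h2 : ‖u - 1‖ < 1 := hu.trans_lt (inv_lt_one_of_one_lt₀ (one_lt_pow₀ p_one_lt (by norm_num)))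
    have h3 : ‖u - 1‖ ≠ ‖(1 : ℚ_[p])‖ := by rw [norm_one]; exact h2.ne
    have h4 : u = (u - 1) + 1 := by ring
    rw [h4, IsUltrametricDist.norm_add_eq_max_of_norm_ne_norm h3, norm_one, max_eq_right h2.le]
  have key : ∀ n : ℕ, ∃ x : ℚ_[p], ‖x‖ ≤ 1 ∧ ‖ee x - u‖ ≤ ((p : ℝ) ^ (n + 2))⁻¹ := by
    intro n
    induction n with
    | zero =>
      refine ⟨0, by simp, ?_⟩
      rw [ee_zero, ← norm_neg, neg_sub, zero_add]
      exact hu
    | succ n ih =>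
      obtain ⟨x, hx, hxu⟩ := ih
      set t := u / ee x - 1 with ht
      have he := ee_ne_zero hx
      have hte : t * ee x = u - ee x := by rw [ht, sub_mul, one_mul, div_mul_cancel₀ _ he]
      have htn : ‖t‖ ≤ ((p : ℝ) ^ (n + 2))⁻¹ := by
        have h1 := congrArg norm hte
        rw [norm_mul, norm_ee hx, mul_one, norm_sub_rev u] at h1
        rw [h1]; exact hxu
      set s := t / (p : ℚ_[p]) ^ 2 with hs
      have hp2 : (p : ℚ_[p]) ^ 2 ≠ 0 := pow_ne_zero _ (by exact_mod_cast hp.out.ne_zero)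
      have hst : (p : ℚ_[p]) ^ 2 * s = t := mul_div_cancel₀ _ hp2
      have hsn : ‖s‖ ≤ ((p : ℝ) ^ n)⁻¹ := by
        rw [hs, norm_div, norm_p_sq, div_inv_eq_mul]
        calc ‖t‖ * (p : ℝ) ^ 2 ≤ ((p : ℝ) ^ (n + 2))⁻¹ * (p : ℝ) ^ 2 := by gcongr
          _ = ((p : ℝ) ^ n)⁻¹ := by
            rw [pow_add, mul_inv]
            field_simp
      have hs1 : ‖s‖ ≤ 1 := hsn.trans (inv_le_one_of_one_le₀ (one_le_pow₀ p_one_lt.le))
      refine ⟨x + s, norm_add_le_one hx hs1, ?_⟩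
      have h1 : ee (x + s) - u = ee x * (ee s - 1 - (p : ℚ_[p]) ^ 2 * s) := by
        rw [ee_add hx hs1, hst]
        linear_combination hte
      rw [h1, norm_mul, norm_ee hx, one_mul]
      calc ‖ee s - 1 - (p : ℚ_[p]) ^ 2 * s‖ ≤ ((p : ℝ) ^ 3)⁻¹ * ‖s‖ := norm_ee_sub_sub hs1
        _ ≤ ((p : ℝ) ^ 3)⁻¹ * ((p : ℝ) ^ n)⁻¹ := by gcongr
        _ = ((p : ℝ) ^ (n + 1 + 2))⁻¹ := by rw [← mul_inv, ← pow_add]; congr 2; omega
  choose x hx hxu using key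
  -- the sequence is Cauchy, as `ee` is an isometry up to a factor
  have hcomp : IsCompact (Metric.closedBall (0 : ℚ_[p]) 1) := isCompact_closedBall _ _
  obtain ⟨a, ha, φ, hφ, hlim⟩ := hcomp.tendsto_subseq (x := x) fun n => by
    rw [mem_closedBall_zero_iff]; exact hx n
  rw [mem_closedBall_zero_iff] at ha
  refine ⟨a, ha, ?_⟩
  have h1 : Tendsto (fun n => ee (x (φ n))) atTop (𝓝 (ee a)) := by
    rw [tendsto_iff_norm_sub_tendsto_zero]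
    have h2 : ∀ n, ‖ee (x (φ n)) - ee a‖ = ((p : ℝ) ^ 2)⁻¹ * ‖x (φ n) - a‖ := fun n =>
      norm_ee_sub_ee (hx _) ha
    simp only [h2]
    have h3 := (tendsto_iff_norm_sub_tendsto_zero.1 hlim).const_mul (((p : ℝ) ^ 2)⁻¹)
    rw [mul_zero] at h3
    exact h3
  have h2 : Tendsto (fun n => ee (x (φ n))) atTop (𝓝 u) := by
    rw [tendsto_iff_norm_sub_tendsto_zero]
    refine squeeze_zero (fun _ => norm_nonneg _) (fun n => hxu (φ n)) ?_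
    have h3 : Tendsto (fun n : ℕ => ((p : ℝ) ^ (n + 2))⁻¹) atTop (𝓝 0) := by
      have h4 := (tendsto_pow_atTop_atTop_of_one_lt (p_one_lt (p := p))).inv_tendsto_atTop
      exact h4.comp (tendsto_add_atTop_nat 2)
    exact h3.comp hφ.tendsto_atTop
  exact tendsto_nhds_unique h1 h2

end Pool.Agent.Y142
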