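import Pool.Agent.Y142.Split
import Pool.Agent.Y142.Near

/-!
# Parity of the dimension of isotropic subspaces
-/

set_option autoImplicit false

namespace Pool.Agent.Y142

open NumberField Filter Topology IsDedekindDomain Polynomial Module
open Pool.Agent.W569.FM (GF FrobAt)
open Pool.Agent.W401.Cheb

variable {K : Type} [Field K] [NumberField K] {ℓ : ℕ} [hℓ : Fact ℓ.Prime]

theorem even_of_sq_eq {q k a b : ℕ} (hq : q.Prime) (ha : a ≠ 0) (h : b ^ 2 = q ^ k * a ^ 2) :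
    Even k := by
  have hfact : Fact q.Prime := ⟨hq⟩
  have h1 := congrArg (padicValNat q) h
  rw [padicValNat.mul (pow_ne_zero _ hq.ne_zero) (pow_ne_zero _ ha), padicValNat.pow,
    padicValNat.pow, padicValNat.pow, padicValNat.self hq.one_lt] at h1
  rw [Nat.even_iff]
  omega

/-- the conjugate of a square root of an odd power of a prime number -/
theorem aeval_neg_of_sq {F : Type*} [Field F] [CharZero F] {β : F} {q k : ℕ} (hq : q.Prime)
    (hk : Odd k) (hβ : β ^ 2 = (q : F) ^ k) {P : ℤ[X]} (hP : aeval β P = 0) :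
    aeval (-β) P = 0 := by
  set M : ℤ[X] := X ^ 2 - C ((q : ℤ) ^ k) with hM
  have hMm : M.Monic := monic_X_pow_sub_C _ (by norm_num)
  have hdeg : M.natDegree = 2 := natDegree_X_pow_sub_C
  have hdiv : P %ₘ M + M * (P /ₘ M) = P := modByMonic_add_div P M
  have hMβ : ∀ γ : F, γ ^ 2 = (q : F) ^ k → aeval γ M = 0 := by
    intro γ hγ
    rw [hM, map_sub, map_pow, aeval_X, aeval_C, hγ]
    simp
  have hR : (P %ₘ M).natDegree < 2 := by
    rw [← hdeg]
    exact natDegree_modByMonic_lt P hMm (by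
      intro h1
      rw [h1, natDegree_one] at hdeg
      omega)
  obtain ⟨a, b, hab⟩ : ∃ a b : ℤ, P %ₘ M = C a * X + C b :=
    exists_eq_X_add_C_of_natDegree_le_one (by omega)
  have h1 : (a : F) * β + b = 0 := by
    have h2 := congrArg (aeval β) hdiv
    rw [map_add, map_mul, hMβ β hβ, zero_mul, add_zero, hP, hab] at h2
    simpa using h2
  have ha : a = 0 := by
    by_contra ha
    have h2 : (b : F) ^ 2 = (q : F) ^ k * (a : F) ^ 2 := by
      rw [← hβ]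
      linear_combination (b - (a : F) * β) * h1
    have h3 : b ^ 2 = (q : ℤ) ^ k * a ^ 2 := by exact_mod_cast h2
    have h4 : b.natAbs ^ 2 = q ^ k * a.natAbs ^ 2 := by
      have h5 := congrArg Int.natAbs h3
      rwa [Int.natAbs_pow, Int.natAbs_mul, Int.natAbs_pow, Int.natAbs_pow, Int.natAbs_natCast] at h5
    have h5 := even_of_sq_eq hq (Int.natAbs_ne_zero.2 ha) h4
    exact (Nat.not_even_iff_odd.2 hk) h5
  have hb : b = 0 := by
    rw [ha] at h1
    simpa using h1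
  rw [← hdiv, map_add, map_mul, hMβ (-β) (by rw [neg_sq, hβ]), zero_mul, add_zero, hab, ha, hb]
  simp

theorem isOpen_ker_of_pow {G F : Type*} [Group G] [TopologicalSpace G] [Field F]
    [TopologicalSpace F] [T1Space F] {κ : G →* Fˣ} (hκ : Continuous fun g => (κ g : F)) {n : ℕ}
    (hn : 0 < n) (h : ∀ g, κ g ^ n = 1) : IsOpen (κ.ker : Set G) := by
  classical
  have h1 : (κ.ker : Set G) =
      (fun g => (κ g : F)) ⁻¹' (((nthRootsFinset n (1 : F)).erase 1 : Finset F) : Set F)ᶜ := by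
    ext g
    rw [Set.mem_preimage, Set.mem_compl_iff, Finset.mem_coe, Finset.mem_erase,
      mem_nthRootsFinset hn]
    have h2 : (κ g : F) ^ n = 1 := by
      rw [← Units.val_pow_eq_pow_val, h g, Units.val_one]
    have h3 : g ∈ (κ.ker : Set G) ↔ (κ g : F) = 1 := by
      rw [SetLike.mem_coe, MonoidHom.mem_ker, Units.ext_iff, Units.val_one]
    rw [h3]
    tauto
  rw [h1]
  exact (Finset.isClosed _).isOpen_compl.preimage hκ

theorem even_of_rel {δ χ : GK K →* ℚ_[ℓ]ˣ} (hδ : Continuous fun g => (δ g : ℚ_[ℓ]))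
    (hχ : Continuous fun g => (χ g : ℚ_[ℓ])) {w d n : ℕ} (hn : 0 < n)
    (hrel : ∀ g, trans δ g ^ (2 * n) = trans χ g ^ (d * n))
    {S : Set (HeightOneSpectrum (𝓞 K))} (hS : S.Finite)
    (hχS : ∀ v ∉ S, ∀ σ : GK K, IsFrob v σ → (χ σ⁻¹ : ℚ_[ℓ]) = (Ideal.absNorm v.asIdeal : ℚ_[ℓ]) ^ w)
    (hnear : ∀ ε : ℝ, 0 < ε → ∃ N : Subgroup (GK K), IsOpen (N : Set (GK K)) ∧ ∀ v ∉ S, ∀ σ ∈ N,
      IsFrob v σ → ConjIn (NearOne (ℓ := ℓ) ε) (δ σ⁻¹ : ℚ_[ℓ])) :
    Even (w * d * finrank ℚ K) := by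
  classical
  by_contra hodd
  rw [Nat.not_even_iff_odd] at hodd
  have hfin : Finite (GF ℚ ⧸ HH ℚ K) := Subgroup.finite_quotient_of_finiteIndex
  have : Fintype (GF ℚ ⧸ HH ℚ K) := Fintype.ofFinite _
  have hidx : Fintype.card (GF ℚ ⧸ HH ℚ K) = Module.finrank ℚ K := by
    rw [← index_HH (k := ℚ) (K := K), Subgroup.index, Nat.card_eq_fintype_card]
  -- the number `ε`
  have h2pos : 0 < ‖(2 : PadicAlgCl ℓ)‖ := norm_pos_iff.2 two_ne_zero
  set ε : ℝ := ‖(2 : PadicAlgCl ℓ)‖ / 2 with hε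
  have hεpos : 0 < ε := by positivity
  have h2le : ‖(2 : PadicAlgCl ℓ)‖ ≤ 1 := by
    have h3 : ((2 : ℚ_[ℓ]) : PadicAlgCl ℓ) = 2 := map_ofNat _ 2
    rw [← h3, PadicAlgCl.norm_extends]
    exact_mod_cast norm_natCast_le_one (p := ℓ) 2
  have hε1 : ε ≤ 1 := by linarith
  obtain ⟨N, hN, hNear⟩ := hnear ε hεpos
  -- the open subgroups
  let N' : Subgroup (GF ℚ) := (N.comap (back (k := ℚ) (K := K))).map (HH ℚ K).subtype
  have hN' : IsOpen (N' : Set (GF ℚ)) := by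
    have h1 : IsOpen ((N.comap (back (k := ℚ) (K := K))) : Set (HH ℚ K)) :=
      hN.preimage continuous_back
    exact (isOpen_HH (k := ℚ) (K := K)).isOpenMap_subtype_val _ h1
  let κ : GF ℚ →* ℚ_[ℓ]ˣ :=
    { toFun := fun g => trans δ g ^ 2 / trans χ g ^ d
      map_one' := by simp
      map_mul' := fun a b => by
        simp only [map_mul, mul_pow]
        rw [mul_div_mul_comm] }
  have hκn : ∀ g, κ g ^ n = 1 := by
    intro g
    change (trans δ g ^ 2 / trans χ g ^ d) ^ n = 1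
    rw [div_pow, ← pow_mul, ← pow_mul, hrel, div_self']
  have hκc : Continuous fun g => (κ g : ℚ_[ℓ]) := by
    have h1 : (fun g => (κ g : ℚ_[ℓ])) = fun g => (trans δ g : ℚ_[ℓ]) ^ 2 / (trans χ g : ℚ_[ℓ]) ^ d := by
      funext g
      change ((trans δ g ^ 2 / trans χ g ^ d : ℚ_[ℓ]ˣ) : ℚ_[ℓ]) = _
      rw [Units.val_div_eq_div_val, Units.val_pow_eq_pow_val, Units.val_pow_eq_pow_val]
    rw [h1]
    exact ((continuous_trans hδ).pow 2).div ((continuous_trans hχ).pow d)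
      fun g => pow_ne_zero _ (Units.ne_zero _)
  have hκo : IsOpen (κ.ker : Set (GF ℚ)) := isOpen_ker_of_pow hκc hn hκn
  let N'' : Subgroup (GF ℚ) := N' ⊓ κ.ker
  have hN'' : IsOpen (N'' : Set (GF ℚ)) := hN'.inter hκo
  have hcl : IsClosed (N'' : Set (GF ℚ)) := N''.isClosed_of_isOpen hN''
  have hfi : N''.FiniteIndex := by
    have := Subgroup.quotient_finite_of_isOpen N'' hN''
    exact Subgroup.finiteIndex_of_finite_quotient
  have hU : IsOpen (N''.normalCore : Set (GF ℚ)) :=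
    Subgroup.isOpen_of_isClosed_of_finiteIndex _ (N''.normalCore_isClosed hcl)
  obtain ⟨B, hB⟩ := (hS.image fun v => Ideal.absNorm v.asIdeal).bddAbove
  obtain ⟨q, hq, hqB, P, g, hP, hqP, hg, hgU⟩ := exists_frob_core N''.normalCore hU B
  have hgN : ∀ τ : GF ℚ, τ⁻¹ * g * τ ∈ N'' := by
    intro τ
    have := hgU τ⁻¹
    rwa [inv_inv] at this
  have hgH : ∀ τ : GF ℚ, τ⁻¹ * g * τ ∈ HH ℚ K := by
    intro τ
    obtain ⟨x, -, hx⟩ := (hgN τ).1
    rw [← hx]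
    exact x.2
  have hgN2 : ∀ τ : GF ℚ, back ⟨τ⁻¹ * g * τ, hgH τ⟩ ∈ N := by
    intro τ
    obtain ⟨x, hx1, hx2⟩ := (hgN τ).1
    have h3 : x = ⟨τ⁻¹ * g * τ, hgH τ⟩ := Subtype.ext hx2
    rw [← h3]
    exact hx1
  have hSv : ∀ τ : GF ℚ, (vv τ hq hP hqP : HeightOneSpectrum (𝓞 K)) ∉ S := by
    intro τ hτ
    have h3 := absNorm_vv hq hP hqP hg (hgH τ)
    have h4 := hB ⟨_, hτ, rfl⟩
    simp only at h4
    rw [h3] at h4
    omega
  -- the number `β`
  set β : ℚ_[ℓ] := (trans δ g⁻¹ : ℚ_[ℓ]) with hβ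
  have hβ2 : β ^ 2 = (q : ℚ_[ℓ]) ^ (w * d * finrank ℚ K) := by
    have h1 : κ g⁻¹ = 1 := by
      have h2 : g ∈ κ.ker := by
        have := (hgN 1).2
        simpa using this
      rw [map_inv, MonoidHom.mem_ker.1 h2, inv_one]
    have h2 : trans δ g⁻¹ ^ 2 = trans χ g⁻¹ ^ d := by
      have h3 : trans δ g⁻¹ ^ 2 / trans χ g⁻¹ ^ d = 1 := h1
      exact div_eq_one.1 h3
    have h3 : (trans χ g⁻¹ : ℚ_[ℓ]) = (q : ℚ_[ℓ]) ^ (w * finrank ℚ K) := by
      rw [trans_inv_of_trivial χ hgH, Units.coe_prod]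
      have h4 : ∀ c : GF ℚ ⧸ HH ℚ K, (χ (back ⟨c.out⁻¹ * g * c.out, hgH _⟩)⁻¹ : ℚ_[ℓ]) =
          (q : ℚ_[ℓ]) ^ w := by
        intro c
        rw [hχS _ (hSv _) _ (isFrob_back hq hP hqP hg (hgH c.out)),
          absNorm_vv hq hP hqP hg (hgH c.out)]
      rw [Finset.prod_congr rfl fun c _ => h4 c, Finset.prod_const, Finset.card_univ, hidx, pow_mul]
    rw [hβ, ← Units.val_pow_eq_pow_val, h2, Units.val_pow_eq_pow_val, h3, ← pow_mul]
    congr 1
    ring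
  have hβn : ConjIn (NearOne (ℓ := ℓ) ε) β := by
    rw [hβ, trans_inv_of_trivial δ hgH, Units.coe_prod]
    apply nearOne_prod hεpos.le hε1
    intro c _
    exact hNear _ (hSv _) _ (hgN2 _) (isFrob_back hq hP hqP hg (hgH c.out))
  obtain ⟨R, hR, hRβ, hRn⟩ := hβn
  have h1 : aeval (-β) R = 0 := aeval_neg_of_sq hq hodd hβ2 hRβ
  have h2 : ∀ γ : ℚ_[ℓ], aeval γ R = 0 → ‖(γ : PadicAlgCl ℓ) - 1‖ ≤ ε := by
    intro γ hγ
    refine hRn _ ?_
    have h3 := aeval_algebraMap_apply (PadicAlgCl ℓ) γ R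
    rw [hγ, map_zero] at h3
    exact h3
  have h3 := h2 β hRβ
  have h4 := h2 (-β) h1
  have h5 : ‖(-2 : PadicAlgCl ℓ)‖ ≤ ε := by
    have h6 : (-2 : PadicAlgCl ℓ) = ((β : PadicAlgCl ℓ) - 1) + (((-β : ℚ_[ℓ]) : PadicAlgCl ℓ) - 1) := by
      have h7 : ((-β : ℚ_[ℓ]) : PadicAlgCl ℓ) = -(β : PadicAlgCl ℓ) := map_neg _ _
      rw [h7]
      ring
    rw [h6]
    exact (IsUltrametricDist.norm_add_le_max _ _).trans (max_le h3 h4)
  rw [norm_neg] at h5
  rw [hε] at h5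
  linarith

end Pool.Agent.Y142
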