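import Pool.Agent.Y142.PExp

/-!
# A `p`-adic Schwarz lemma
-/

set_option autoImplicit false

namespace Pool.Agent.Y142

open Filter Topology

variable {p : ℕ} [hp : Fact p.Prime]

/-- `f` is given on the unit ball by a power series converging on the ball of radius `p`, with norm
at most `M` there. -/
def Ana (M : ℝ) (f : ℚ_[p] → ℚ_[p]) : Prop :=
  ∃ c : ℕ → ℚ_[p], (∀ k, ‖c k‖ ≤ M * ((p : ℝ) ^ k)⁻¹) ∧
    ∀ x : ℚ_[p], ‖x‖ ≤ 1 → HasSum (fun k => c k * x ^ k) (f x)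

theorem summable_of_bound {M : ℝ} {c : ℕ → ℚ_[p]} (hc : ∀ k, ‖c k‖ ≤ M * ((p : ℝ) ^ k)⁻¹)
    {x : ℚ_[p]} (hx : ‖x‖ ≤ 1) : Summable (fun k => c k * x ^ k) := by
  have hp0 := p_pos (p := p)
  have hgeo : Summable fun k : ℕ => M * ((p : ℝ) ^ k)⁻¹ := by
    have h1 : Summable fun k : ℕ => ((p : ℝ)⁻¹) ^ k :=
      summable_geometric_of_lt_one (by positivity) (inv_lt_one_of_one_lt₀ p_one_lt)
    have h2 := h1.mul_left M
    simpa [inv_pow] using h2
  refine Summable.of_norm_bounded hgeo fun k => ?_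
  rw [norm_mul, norm_pow]
  calc ‖c k‖ * ‖x‖ ^ k ≤ ‖c k‖ * 1 := by
        gcongr
        exact pow_le_one₀ (norm_nonneg _) hx
    _ ≤ _ := by rw [mul_one]; exact hc k

theorem Ana.nonneg {M : ℝ} {f : ℚ_[p] → ℚ_[p]} (hf : Ana M f) : 0 ≤ M := by
  obtain ⟨c, hc, -⟩ := hf
  have h := (norm_nonneg _).trans (hc 0)
  simpa using h

theorem Ana.norm_le {M : ℝ} {f : ℚ_[p] → ℚ_[p]} (hf : Ana M f) {x : ℚ_[p]} (hx : ‖x‖ ≤ 1) :
    ‖f x‖ ≤ M := by
  have hM := hf.nonneg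
  obtain ⟨c, hc, hsum⟩ := hf
  have hclosed : IsClosed {z : ℚ_[p] | ‖z‖ ≤ M} := isClosed_le continuous_norm continuous_const
  refine hclosed.mem_of_tendsto (hsum x hx) (Eventually.of_forall fun s => ?_)
  refine IsUltrametricDist.norm_sum_le_of_forall_le_of_nonneg hM fun k _ => ?_
  rw [norm_mul, norm_pow]
  have h1 : ((p : ℝ) ^ k)⁻¹ ≤ 1 := inv_le_one_of_one_le₀ (one_le_pow₀ p_one_lt.le)
  calc ‖c k‖ * ‖x‖ ^ k ≤ (M * ((p : ℝ) ^ k)⁻¹) * 1 := by
        gcongr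
        · exact hc k
        · exact pow_le_one₀ (norm_nonneg _) hx
    _ ≤ M * 1 * 1 := by gcongr
    _ = M := by ring

theorem Ana.div {M : ℝ} {f : ℚ_[p] → ℚ_[p]} (hf : Ana M f) {a : ℚ_[p]} (ha : ‖a‖ ≤ 1)
    (h0 : f a = 0) :
    ∃ g : ℚ_[p] → ℚ_[p], Ana (M * (p : ℝ)⁻¹) g ∧ ∀ x, ‖x‖ ≤ 1 → f x = (x - a) * g x := by
  have hM := hf.nonneg
  have hp0 := p_pos (p := p)
  obtain ⟨c, hc, hsum⟩ := hf
  have hc' : ∀ k j : ℕ, ‖c (k + 1 + j)‖ ≤ M * ((p : ℝ) ^ (k + 1))⁻¹ * ((p : ℝ) ^ j)⁻¹ := by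
    intro k j
    have := hc (k + 1 + j)
    rwa [pow_add _ (k + 1) j, mul_inv, ← mul_assoc] at this
  have hs : ∀ k, Summable fun j => c (k + 1 + j) * a ^ j := fun k =>
    summable_of_bound (hc' k) ha
  set g : ℕ → ℚ_[p] := fun k => ∑' j, c (k + 1 + j) * a ^ j with hg
  have hgb : ∀ k, ‖g k‖ ≤ M * (p : ℝ)⁻¹ * ((p : ℝ) ^ k)⁻¹ := by
    intro k
    have h1 : ‖g k‖ ≤ M * ((p : ℝ) ^ (k + 1))⁻¹ := by
      have hclosed : IsClosed {z : ℚ_[p] | ‖z‖ ≤ M * ((p : ℝ) ^ (k + 1))⁻¹} :=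
        isClosed_le continuous_norm continuous_const
      refine hclosed.mem_of_tendsto (hs k).hasSum (Eventually.of_forall fun s => ?_)
      refine IsUltrametricDist.norm_sum_le_of_forall_le_of_nonneg (by positivity) fun j _ => ?_
      rw [norm_mul, norm_pow]
      have h1 : ((p : ℝ) ^ j)⁻¹ ≤ 1 := inv_le_one_of_one_le₀ (one_le_pow₀ p_one_lt.le)
      calc ‖c (k + 1 + j)‖ * ‖a‖ ^ j ≤ (M * ((p : ℝ) ^ (k + 1))⁻¹ * ((p : ℝ) ^ j)⁻¹) * 1 := by
            gcongr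
            · exact hc' k j
            · exact pow_le_one₀ (norm_nonneg _) ha
        _ ≤ (M * ((p : ℝ) ^ (k + 1))⁻¹ * 1) * 1 := by gcongr
        _ = _ := by ring
    rw [pow_succ, mul_inv] at h1
    calc ‖g k‖ ≤ _ := h1
      _ = _ := by ring
  have hrec : ∀ k, c (k + 1) = g k - a * g (k + 1) := by
    intro k
    have h1 : g k = c (k + 1) + ∑' j, c (k + 1 + (j + 1)) * a ^ (j + 1) := by
      have := (hs k).tsum_eq_zero_add
      simpa using this
    have h2 : ∑' j, c (k + 1 + (j + 1)) * a ^ (j + 1) = a * g (k + 1) := by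
      rw [hg, ← tsum_mul_left]
      apply tsum_congr
      intro j
      rw [show k + 1 + (j + 1) = k + 1 + 1 + j by ring]
      ring
    rw [h1, h2]
    ring
  have hc0 : c 0 + a * g 0 = 0 := by
    have h1 := (hsum a ha).tsum_eq
    rw [h0] at h1
    have h2 := (hsum a ha).summable.tsum_eq_zero_add
    rw [h1] at h2
    have h3 : ∑' j, c (j + 1) * a ^ (j + 1) = a * g 0 := by
      rw [hg, ← tsum_mul_left]
      apply tsum_congr
      intro j
      rw [show j + 1 = 0 + 1 + j by ring]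
      ring
    rw [h3] at h2
    simpa using h2.symm
  refine ⟨fun x => ∑' k, g k * x ^ k, ⟨g, hgb, fun x hx => (summable_of_bound hgb hx).hasSum⟩, ?_⟩
  intro x hx
  have hG := (summable_of_bound hgb hx).hasSum
  set G := ∑' k, g k * x ^ k with hGdef
  have h1 : HasSum (fun k => c (k + 1) * x ^ (k + 1)) (f x - c 0) := by
    have := (hasSum_nat_add_iff' 1).2 (hsum x hx)
    simpa using this
  have h2 : HasSum (fun k => g (k + 1) * x ^ (k + 1)) (G - g 0) := by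
    have := (hasSum_nat_add_iff' 1).2 hG
    simpa using this
  have h3 : HasSum (fun k => c (k + 1) * x ^ (k + 1)) (x * G - a * (G - g 0)) := by
    have h4 := (hG.mul_left x).sub (h2.mul_left a)
    refine h4.congr_fun ?_
    intro k
    rw [hrec]
    ring
  have h4 := h1.unique h3
  linear_combination h4 + hc0

/-- the Schwarz lemma -/
theorem Ana.schwarz (S : Finset ℚ_[p]) : ∀ {M : ℝ} {f : ℚ_[p] → ℚ_[p]}, Ana M f →
    (∀ z ∈ S, ‖z‖ ≤ 1 ∧ f z = 0) → ∀ x : ℚ_[p], ‖x‖ ≤ 1 → ‖f x‖ ≤ M * ((p : ℝ) ^ S.card)⁻¹ := by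
  classical
  induction S using Finset.induction_on with
  | empty =>
    intro M f hf _ x hx
    simpa using hf.norm_le hx
  | insert a S ha ih =>
    intro M f hf hS x hx
    have hM := hf.nonneg
    have hp0 := p_pos (p := p)
    obtain ⟨ha1, ha0⟩ := hS a (Finset.mem_insert_self _ _)
    obtain ⟨g, hg, hfg⟩ := hf.div ha1 ha0
    have h1 : ∀ z ∈ S, ‖z‖ ≤ 1 ∧ g z = 0 := by
      intro z hz
      obtain ⟨hz1, hz0⟩ := hS z (Finset.mem_insert_of_mem hz)
      refine ⟨hz1, ?_⟩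
      rw [hfg z hz1] at hz0
      rcases mul_eq_zero.1 hz0 with h | h
      · exact absurd ((sub_eq_zero.1 h) ▸ hz) ha
      · exact h
    have h2 := ih hg h1 x hx
    rw [hfg x hx, norm_mul, Finset.card_insert_of_notMem ha]
    calc ‖x - a‖ * ‖g x‖ ≤ 1 * (M * (p : ℝ)⁻¹ * ((p : ℝ) ^ S.card)⁻¹) := by
          gcongr
          exact norm_sub_le_one hx ha1
      _ = M * ((p : ℝ) ^ (S.card + 1))⁻¹ := by
          rw [pow_succ, mul_inv]
          ring

/-- exponential sums are analytic -/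
theorem ana_expSum {ι : Type*} (s : Finset ι) (C w : ι → ℚ_[p]) (hC : ∀ i ∈ s, ‖C i‖ ≤ 1)
    (hw : ∀ i ∈ s, ‖w i‖ ≤ 1) : Ana 1 fun x => ∑ i ∈ s, C i * ee (w i * x) := by
  have hp0 := p_pos (p := p)
  refine ⟨fun k => ∑ i ∈ s, C i * (ec p k * w i ^ k), fun k => ?_, fun x hx => ?_⟩
  · refine IsUltrametricDist.norm_sum_le_of_forall_le_of_nonneg (by positivity) fun i hi => ?_
    rw [norm_mul, norm_mul, norm_pow]
    calc ‖C i‖ * (‖ec p k‖ * ‖w i‖ ^ k) ≤ 1 * (((p : ℝ) ^ k)⁻¹ * 1) := by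
          gcongr
          · exact hC i hi
          · exact norm_ec k
          · exact pow_le_one₀ (norm_nonneg _) (hw i hi)
      _ = _ := by ring
  · have h1 : (fun k => (∑ i ∈ s, C i * (ec p k * w i ^ k)) * x ^ k) =
        fun k => ∑ i ∈ s, C i * (ec p k * (w i * x) ^ k) := by
      funext k
      rw [Finset.sum_mul]
      refine Finset.sum_congr rfl fun i _ => ?_
      rw [mul_pow]
      ring
    rw [h1]
    refine hasSum_sum fun i hi => ?_
    refine (hasSum_ee ?_).mul_left _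
    rw [norm_mul]
    exact mul_le_one₀ (hw i hi) (norm_nonneg _) hx

end Pool.Agent.Y142
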