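import Pool.Agent.Y142.Iso
import Pool.Agent.W401.Cheb.Main

/-!
# Factors of a polynomial over the `ℓ`-adic numbers and Frobenius elements
-/

set_option autoImplicit false

namespace Pool.Agent.Y142

open NumberField Filter Topology Polynomial Module
open Pool.Agent.W401.Cheb

/-- monic factors of monic polynomials are integral -/
theorem exists_integral_factor {ℓ : ℕ} [hℓ : Fact ℓ.Prime] {P : ℤ_[ℓ][X]} (hP : P.Monic)
    {Q : ℚ_[ℓ][X]} (hQ : Q.Monic) (h : Q ∣ P.map (algebraMap ℤ_[ℓ] ℚ_[ℓ])) :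
    ∃ Q' : ℤ_[ℓ][X], Q'.Monic ∧ Q'.map (algebraMap ℤ_[ℓ] ℚ_[ℓ]) = Q := by
  obtain ⟨Q', hQ'⟩ := IsIntegrallyClosed.eq_map_mul_C_of_dvd ℚ_[ℓ] hP h
  rw [hQ.leadingCoeff, C_1, mul_one] at hQ'
  refine ⟨Q', ?_, hQ'⟩
  have h1 : Function.Injective (algebraMap ℤ_[ℓ] ℚ_[ℓ]) := IsFractionRing.injective _ _
  exact Polynomial.monic_of_injective h1 (by rw [hQ']; exact hQ)

theorem monic_dualPoly {F : Type*} [Field F] {s : F} (hs : s ≠ 0) {Q : F[X]}
    (hQ0 : Q.eval 0 ≠ 0) : (dualPoly s Q).Monic := by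
  have h1 : (Q.comp (C s * X)).natDegree = Q.natDegree := by
    rw [natDegree_comp, natDegree_C_mul hs, natDegree_X, mul_one]
  have h0 : (Q.comp (C s * X)).coeff 0 = Q.eval 0 := by
    rw [coeff_zero_eq_eval_zero, eval_comp]
    simp
  have h2 : (Q.comp (C s * X)).reverse.natDegree = Q.natDegree := by
    rw [reverse_natDegree, h1, natTrailingDegree_eq_zero.2 (Or.inr (by rw [h0]; exact hQ0)),
      Nat.sub_zero]
  rw [Monic, dualPoly, leadingCoeff_mul, leadingCoeff_C, reverse_leadingCoeff, trailingCoeff,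
    natTrailingDegree_eq_zero.2 (Or.inr (by rw [h0]; exact hQ0)), h0, inv_mul_cancel₀ hQ0]

/-- splitting over the ring of integers -/
theorem exists_integral_roots {P : ℤ[X]} (hP : P.Monic) {L : Type} [Field L] [NumberField L]
    (hL : (P.map (algebraMap ℤ L)).Splits) :
    ∃ T : Multiset (𝓞 L), P.map (algebraMap ℤ (𝓞 L)) = (T.map fun z => X - C z).prod := by
  have hint : ∀ z ∈ (P.map (algebraMap ℤ L)).roots, IsIntegral ℤ z := by
    intro z hz
    refine ⟨P, hP, ?_⟩
    have h1 := (mem_roots'.1 hz).2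
    rwa [IsRoot.def, eval_map] at h1
  obtain ⟨T, hT⟩ : ∃ T : Multiset (𝓞 L), T.map (algebraMap (𝓞 L) L) = (P.map (algebraMap ℤ L)).roots := by
    obtain ⟨f, hf⟩ : ∃ f : {z // z ∈ (P.map (algebraMap ℤ L)).roots} → 𝓞 L,
        ∀ z, algebraMap (𝓞 L) L (f z) = z.1 := ⟨fun z => ⟨z.1, hint z.1 z.2⟩, fun z => rfl⟩
    refine ⟨(P.map (algebraMap ℤ L)).roots.attach.map f, ?_⟩
    rw [Multiset.map_map]
    conv_rhs => rw [← Multiset.attach_map_val (P.map (algebraMap ℤ L)).roots]
    apply Multiset.map_congr rfl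
    intro z _
    exact hf z
  refine ⟨T, ?_⟩
  have hinj : Function.Injective (algebraMap (𝓞 L) L) := RingOfIntegers.coe_injective
  apply Polynomial.map_injective _ hinj
  rw [Polynomial.map_map, Polynomial.map_multiset_prod, Multiset.map_map]
  have h2 : (algebraMap (𝓞 L) L).comp (algebraMap ℤ (𝓞 L)) = algebraMap ℤ L := RingHom.ext_int _ _
  rw [h2, hL.eq_prod_roots_of_monic (hP.map _), ← hT, Multiset.map_map]
  congr 1
  apply Multiset.map_congr rfl
  intro z _
  simp

theorem exists_root_over {P : ℤ[X]} (hP : P.Monic) {L : Type} [Field L] [NumberField L]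
    (hL : (P.map (algebraMap ℤ L)).Splits) {k : Type*} [Field k] (φ : 𝓞 L →+* k) {y : k}
    (hy : aeval y P = 0) : ∃ z : 𝓞 L, aeval z P = 0 ∧ φ z = y := by
  obtain ⟨T, hT⟩ := exists_integral_roots hP hL
  have h1 : P.map (algebraMap ℤ k) = (T.map fun z => X - C (φ z)).prod := by
    have h2 := congrArg (Polynomial.map φ) hT
    rw [Polynomial.map_map, Polynomial.map_multiset_prod, Multiset.map_map] at h2
    have h3 : φ.comp (algebraMap ℤ (𝓞 L)) = algebraMap ℤ k := RingHom.ext_int _ _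
    rw [h3] at h2
    rw [h2]
    congr 1
    apply Multiset.map_congr rfl
    intro z _
    simp
  have h2 : (P.map (algebraMap ℤ k)).eval y = 0 := by
    rw [eval_map_algebraMap]
    exact hy
  rw [h1, eval_multiset_prod, Multiset.prod_eq_zero_iff, Multiset.map_map, Multiset.mem_map] at h2
  obtain ⟨z, hz, hzy⟩ := h2
  refine ⟨z, ?_, ?_⟩
  · have h3 : (P.map (algebraMap ℤ (𝓞 L))).eval z = 0 := by
      rw [hT, eval_multiset_prod, Multiset.prod_eq_zero_iff, Multiset.map_map, Multiset.mem_map]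
      exact ⟨z, hz, by simp⟩
    rwa [eval_map_algebraMap] at h3
  · simp only [Function.comp_apply, eval_sub, eval_X, eval_C] at hzy
    exact (sub_eq_zero.1 hzy).symm

/-- **No isotropic factors** at primes whose Frobenius has self-dual orbits on the roots. -/
theorem no_isotropic_factor {ℓ : ℕ} [hℓ : Fact ℓ.Prime] {P : ℤ[X]} (hP : P.Monic) {s : ℕ}
    (hs : ¬ ℓ ∣ s) {L : Type} [Field L] [NumberField L] (hL : (P.map (algebraMap ℤ L)).Splits)
    (φ : 𝓞 L →+* AlgebraicClosure (ZMod ℓ)) {σ : Gal(L/ℚ)} (hφ : HasFrob ℓ φ σ)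
    (hdisc : ∀ z : 𝓞 L, aeval z P = 0 → φ (aeval z (derivative P)) ≠ 0)
    (hσ : ∀ z : L, aeval z P = 0 → ∃ m : ℕ, (σ ^ m) z * z = s)
    {Q : ℚ_[ℓ][X]} (hQ : Q.Monic) (hdeg : 0 < Q.natDegree)
    (hdvd : Q * dualPoly (s : ℚ_[ℓ]) Q ∣ P.map (algebraMap ℤ ℚ_[ℓ])) : False := by
  set k := AlgebraicClosure (ZMod ℓ) with hk
  have hchar : CharP k ℓ := charP_of_injective_algebraMap (algebraMap (ZMod ℓ) k).injective ℓ
  have hs0 : (s : ℚ_[ℓ]) ≠ 0 := by
    intro h
    apply hs
    have : s = 0 := by exact_mod_cast h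
    rw [this]
    exact dvd_zero _
  have hsk : (s : k) ≠ 0 := by
    rw [Ne, CharP.cast_eq_zero_iff k ℓ]
    exact hs
  -- integral factors
  have hPm : (P.map (algebraMap ℤ ℤ_[ℓ])).Monic := hP.map _
  have hPP : (P.map (algebraMap ℤ ℤ_[ℓ])).map (algebraMap ℤ_[ℓ] ℚ_[ℓ]) =
      P.map (algebraMap ℤ ℚ_[ℓ]) := by
    rw [Polynomial.map_map]
    congr 1
  have hinj : Function.Injective (algebraMap ℤ_[ℓ] ℚ_[ℓ]) := IsFractionRing.injective _ _
  obtain ⟨Q', hQ'm, hQ'⟩ := exists_integral_factor hPm hQ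
    (by rw [hPP]; exact (dvd_mul_right _ _).trans hdvd)
  -- the constant term
  let r : ℤ_[ℓ] →+* k := (algebraMap (ZMod ℓ) k).comp PadicInt.toZMod
  have hrP : (P.map (algebraMap ℤ ℤ_[ℓ])).map r = P.map (algebraMap ℤ k) := by
    rw [Polynomial.map_map]
    congr 1
    exact RingHom.ext_int _ _
  have hzs : ∀ z : 𝓞 L, aeval z P = 0 → ∃ m : ℕ, (σ ^ m) • z * z = s := by
    intro z hz
    have hz' : aeval (z : L) P = 0 := by
      rw [aeval_algebraMap_apply, hz, map_zero]
    obtain ⟨m, hm⟩ := hσ z hz'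
    refine ⟨m, ?_⟩
    apply RingOfIntegers.coe_injective
    rw [map_mul, map_natCast]
    exact hm
  have hP0 : ∀ y : k, aeval y P = 0 → y ≠ 0 := by
    rintro y hy rfl
    obtain ⟨z, hz, hzy⟩ := exists_root_over hP hL φ hy
    obtain ⟨m, hm⟩ := hzs z hz
    have h1 := congrArg φ hm
    rw [map_mul, hzy, mul_zero, map_natCast] at h1
    exact hsk h1.symm
  have hQP : Q' ∣ P.map (algebraMap ℤ ℤ_[ℓ]) := by
    rw [← Polynomial.map_dvd_map _ hinj hQ'm, hQ', hPP]
    exact (dvd_mul_right _ _).trans hdvd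
  have hQk : ∀ y : k, (Q'.map r).eval y = 0 → aeval y P = 0 := by
    intro y hy
    have h1 := Polynomial.map_dvd r hQP
    rw [hrP] at h1
    obtain ⟨R, hR⟩ := h1
    rw [← eval_map_algebraMap, hR, eval_mul, hy, zero_mul]
  have hQ0k : (Q'.map r).eval 0 ≠ 0 := fun h => hP0 0 (hQk 0 h) rfl
  have hQ0 : Q.eval 0 ≠ 0 := by
    intro h
    apply hQ0k
    have h1 : Q'.eval 0 = 0 := by
      apply hinj
      rw [map_zero, ← coeff_zero_eq_eval_zero, ← coeff_map, hQ', coeff_zero_eq_eval_zero, h]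
    rw [← coeff_zero_eq_eval_zero, coeff_map, coeff_zero_eq_eval_zero, h1, map_zero]
  obtain ⟨D', hD'm, hD'⟩ := exists_integral_factor hPm (monic_dualPoly hs0 hQ0)
    (by rw [hPP]; exact (dvd_mul_left _ _).trans hdvd)
  have hprod : Q' * D' ∣ P.map (algebraMap ℤ ℤ_[ℓ]) := by
    rw [← Polynomial.map_dvd_map _ hinj (hQ'm.mul hD'm), Polynomial.map_mul, hQ', hD', hPP]
    exact hdvd
  -- the functional equation
  set d := Q'.natDegree with hd
  have hfun : C (Q'.eval 0) * D' = reflect d (Q'.comp (C (s : ℤ_[ℓ]) * X)) := by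
    apply Polynomial.map_injective _ hinj
    rw [Polynomial.map_mul, map_C, hD', ← reflect_map, Polynomial.map_comp, hQ', Polynomial.map_mul,
      map_C, map_X, map_natCast, dualPoly, ← mul_assoc, ← C_mul]
    have h1 : algebraMap ℤ_[ℓ] ℚ_[ℓ] (Q'.eval 0) = Q.eval 0 := by
      rw [← coeff_zero_eq_eval_zero, ← coeff_map, hQ', coeff_zero_eq_eval_zero]
    have h2 : (Q.comp (C (s : ℚ_[ℓ]) * X)).natDegree = d := by
      rw [natDegree_comp, natDegree_C_mul hs0, natDegree_X, mul_one, hd, ← hQ',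
        natDegree_map_eq_of_injective hinj]
    rw [h1, mul_inv_cancel₀ hQ0, C_1, one_mul, reverse, h2]
  -- a root of the reduction of `Q`
  have hdeg' : (Q'.map r).degree ≠ 0 := by
    have h1 : (Q'.map r).natDegree = Q.natDegree := by
      rw [hQ'm.natDegree_map, ← hQ', natDegree_map_eq_of_injective hinj]
    intro h2
    rw [← h1] at hdeg
    exact hdeg.ne' (natDegree_eq_of_degree_eq_some h2)
  obtain ⟨y₀, hy₀⟩ := IsAlgClosed.exists_root _ hdeg'
  obtain ⟨z, hz, hzy⟩ := exists_root_over hP hL φ (hQk y₀ hy₀)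
  obtain ⟨m, hm⟩ := hzs z hz
  have hφm : ∀ (m : ℕ) (x : 𝓞 L), φ ((σ ^ m) • x) = φ x ^ ℓ ^ m := by
    intro m
    induction m with
    | zero => intro x; simp
    | succ m ih =>
      intro x
      rw [pow_succ, mul_smul, ih, hφ, ← pow_mul, pow_succ, mul_comm]
  have hy₀0 : y₀ ≠ 0 := hP0 y₀ (hQk y₀ hy₀)
  set y := y₀ ^ ℓ ^ m with hy
  have hyy : y * y₀ = s := by
    have h1 := congrArg φ hm
    rwa [map_mul, hφm, hzy, map_natCast] at h1
  have hy0 : y ≠ 0 := pow_ne_zero _ hy₀0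
  -- `y` is a root of the reduction of `Q`
  have hQy : (Q'.map r).eval y = 0 := by
    have h1 := congrArg (iterateFrobenius k ℓ m) (show (Q'.map r).eval y₀ = 0 from hy₀)
    rw [map_zero, eval_map, hom_eval₂, iterateFrobenius_def] at h1
    have h2 : (iterateFrobenius k ℓ m).comp r = r := by
      apply RingHom.ext
      intro x
      rw [RingHom.comp_apply, iterateFrobenius_def]
      change (algebraMap (ZMod ℓ) k (PadicInt.toZMod x)) ^ ℓ ^ m = _
      rw [← map_pow, ZMod.pow_card_pow]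
      rfl
    rw [h2] at h1
    rw [eval_map]
    exact h1
  -- `y` is a root of the reduction of the dual polynomial
  have hDy : (D'.map r).eval y = 0 := by
    have h1 := congrArg (Polynomial.map r) hfun
    rw [Polynomial.map_mul, map_C, ← reflect_map, Polynomial.map_comp, Polynomial.map_mul, map_C,
      map_X, map_natCast] at h1
    have h2 := congrArg (eval y) h1
    have hinv : Invertible (y⁻¹) := invertibleOfNonzero (inv_ne_zero hy0)
    have h3 := eval₂_reflect_mul_pow (RingHom.id k) (y⁻¹) d ((Q'.map r).comp (C (s : k) * X)) (by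
      rw [natDegree_comp, natDegree_C_mul hsk, natDegree_X, mul_one, hQ'm.natDegree_map])
    rw [invOf_eq_inv, inv_inv, ← eval, ← eval, eval_comp, eval_mul, eval_C, eval_X] at h3
    have h4 : (s : k) * y⁻¹ = y₀ := by
      rw [← hyy, mul_comm y y₀, mul_assoc, mul_inv_cancel₀ hy0, mul_one]
    rw [h4, show (Q'.map r).eval y₀ = 0 from hy₀] at h3
    have h5 : (reflect d ((Q'.map r).comp (C (s : k) * X))).eval y = 0 :=
      (mul_eq_zero.1 h3).resolve_right (pow_ne_zero _ (inv_ne_zero hy0))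
    rw [h5, eval_mul, eval_C] at h2
    refine (mul_eq_zero.1 h2).resolve_left ?_
    intro h6
    apply hQ0k
    rw [← coeff_zero_eq_eval_zero, coeff_map, coeff_zero_eq_eval_zero]
    exact h6
  -- contradiction
  obtain ⟨R, hR⟩ := Polynomial.map_dvd r hprod
  rw [hrP, Polynomial.map_mul] at hR
  have h1 : (derivative (P.map (algebraMap ℤ k))).eval y = 0 := by
    rw [hR, derivative_mul, derivative_mul]
    simp only [eval_add, eval_mul, hQy, hDy]
    ring
  obtain ⟨z', hz', hzy'⟩ := exists_root_over hP hL φ (hQk y hQy)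
  apply hdisc z' hz'
  rw [derivative_map, eval_map_algebraMap, ← hzy'] at h1
  have h2 : φ (aeval z' (derivative P)) = aeval (φ z') (derivative P) := by
    have := Polynomial.aeval_algHom_apply φ.toIntAlgHom z' (derivative P)
    exact this.symm
  rw [h2, h1]

end Pool.Agent.Y142
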