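import Pool.Agent.Y142.Liou

/-!
# The `p`-adic six exponentials theorem
-/

set_option autoImplicit false

namespace Pool.Agent.Y142

open Filter Topology NumberField Module

variable {p : ℕ} [hp : Fact p.Prime]

theorem house_prod_le' {K : Type*} [Field K] [NumberField K] {ι : Type*} (s : Finset ι) (f : ι → K) :
    house (∏ i ∈ s, f i) ≤ ∏ i ∈ s, house (f i) := by
  simpa only [house, map_prod] using Finset.norm_prod_le s fun i => canonicalEmbedding K (f i)

theorem norm_mul_le_one {x y : ℚ_[p]} (hx : ‖x‖ ≤ 1) (hy : ‖y‖ ≤ 1) : ‖x * y‖ ≤ 1 := by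
  rw [norm_mul]
  exact mul_le_one₀ hx (norm_nonneg _) hy

theorem norm_sum_le_one {ι : Type*} {s : Finset ι} {f : ι → ℚ_[p]} (h : ∀ i ∈ s, ‖f i‖ ≤ 1) :
    ‖∑ i ∈ s, f i‖ ≤ 1 :=
  IsUltrametricDist.norm_sum_le_of_forall_le_of_nonneg zero_le_one h

/-- the points `∑ n_j x_j` -/
noncomputable def pt (x : Fin 3 → ℚ_[p]) (n : Fin 3 → ℕ) : ℚ_[p] := ∑ j, (n j : ℚ_[p]) * x j

theorem norm_pt {x : Fin 3 → ℚ_[p]} (hx : ∀ j, ‖x j‖ ≤ 1) (n : Fin 3 → ℕ) : ‖pt x n‖ ≤ 1 :=
  norm_sum_le_one fun j _ => norm_mul_le_one (norm_natCast_le_one _) (hx j)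

theorem pt_inj {x : Fin 3 → ℚ_[p]} (hxi : ∀ n : Fin 3 → ℤ, ∑ j, (n j : ℚ_[p]) * x j = 0 → n = 0)
    {n n' : Fin 3 → ℕ} (h : pt x n = pt x n') : n = n' := by
  have h1 := hxi (fun j => (n j : ℤ) - n' j) (by
    have h2 := sub_eq_zero.2 h
    rw [pt, pt, ← Finset.sum_sub_distrib] at h2
    rw [← h2]
    refine Finset.sum_congr rfl fun j _ => ?_
    push_cast
    ring)
  funext j
  have h2 := congrFun h1 j
  simp only [Pi.zero_apply] at h2
  omega

theorem ee_mul_pt {w : ℚ_[p]} (hw : ‖w‖ ≤ 1) {x : Fin 3 → ℚ_[p]} (hx : ∀ j, ‖x j‖ ≤ 1)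
    (n : Fin 3 → ℕ) : ee (w * pt x n) = ∏ j, ee (w * x j) ^ n j := by
  rw [pt, Finset.mul_sum]
  have h1 : ∀ j, w * ((n j : ℚ_[p]) * x j) = (n j : ℚ_[p]) * (w * x j) := fun j => by ring
  simp only [h1]
  rw [ee_sum _ _ fun j _ => norm_mul_le_one (norm_natCast_le_one _) (norm_mul_le_one hw (hx j))]
  refine Finset.prod_congr rfl fun j _ => ?_
  rw [ee_natCast_mul (norm_mul_le_one hw (hx j))]

/-- the character `x ↦ ee (w x)` -/
noncomputable def chi (w : ℚ_[p]) (hw : ‖w‖ ≤ 1) : Multiplicative ℤ_[p] →* ℚ_[p] where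
  toFun x := ee (w * (Multiplicative.toAdd x : ℤ_[p]))
  map_one' := by simp [ee_zero]
  map_mul' x y := by
    rw [toAdd_mul]
    push_cast
    rw [mul_add]
    exact ee_add (norm_mul_le_one hw (Multiplicative.toAdd x).2)
      (norm_mul_le_one hw (Multiplicative.toAdd y).2)

theorem exists_two_pow (x : ℝ) : ∃ k : ℕ, x ≤ 2 ^ k := by
  obtain ⟨k, hk⟩ := pow_unbounded_of_one_lt x (one_lt_two)
  exact ⟨k, hk.le⟩

/-- **The `p`-adic six exponentials theorem** (for algebraic integers) -/
theorem six_exp {K : Type*} [Field K] [NumberField K] (σ : K →+* ℚ_[p]) {x : Fin 3 → ℚ_[p]}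
    (hx : ∀ j, ‖x j‖ ≤ 1) {w₁ w₂ : ℚ_[p]} (hw₁ : ‖w₁‖ ≤ 1) (hw₂ : ‖w₂‖ ≤ 1)
    (a₁ a₂ : Fin 3 → 𝓞 K) (ha₁ : ∀ j, ee (w₁ * x j) = σ (a₁ j)) (ha₂ : ∀ j, ee (w₂ * x j) = σ (a₂ j))
    (hxi : ∀ n : Fin 3 → ℤ, ∑ j, (n j : ℚ_[p]) * x j = 0 → n = 0)
    (hwi : ∀ a b : ℤ, (a : ℚ_[p]) * w₁ + b * w₂ = 0 → a = 0 ∧ b = 0) : False := by
  classical
  have hp0 := p_pos (p := p)
  obtain ⟨c, hc1, hc⟩ := siegel K
  set D := finrank ℚ K with hD
  -- constants
  obtain ⟨k₁, hk₁⟩ := exists_two_pow c
  obtain ⟨k₂, hk₂⟩ : ∃ k₂ : ℕ, ∀ j, house (a₁ j : K) ≤ 2 ^ k₂ ∧ house (a₂ j : K) ≤ 2 ^ k₂ := by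
    obtain ⟨k, hk⟩ := exists_two_pow (∑ j, (house (a₁ j : K) + house (a₂ j : K)))
    refine ⟨k, fun j => ?_⟩
    have h1 : house (a₁ j : K) + house (a₂ j : K) ≤ ∑ j, (house (a₁ j : K) + house (a₂ j : K)) :=
      Finset.single_le_sum (f := fun j => house (a₁ j : K) + house (a₂ j : K))
        (fun i _ => add_nonneg (house_nonneg _) (house_nonneg _)) (Finset.mem_univ j)
    have h2 := house_nonneg (a₁ j : K)
    have h3 := house_nonneg (a₂ j : K)
    constructor <;> linarith
  set κ := k₁ + 4 + 12 * k₂ with hκ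
  set m := D * κ + 1 with hm
  set A := 2 * m ^ 2 with hA
  set L := 4 * m ^ 3 with hL
  have hm1 : 1 ≤ m := by omega
  have hL1 : 1 ≤ L := by rw [hL]; have := Nat.one_le_pow 3 m hm1; omega
  have hA1 : 1 ≤ A := by rw [hA]; have := Nat.one_le_pow 2 m hm1; omega
  -- the numbers `b s t n`
  let b : ℕ → ℕ → (Fin 3 → ℕ) → 𝓞 K := fun s t n => ∏ j, (a₁ j ^ s * a₂ j ^ t) ^ n j
  have hbhouse : ∀ (s t B : ℕ) (n : Fin 3 → ℕ), s ≤ L → t ≤ L → (∀ j, n j ≤ B) →
      house ((b s t n : 𝓞 K) : K) ≤ 2 ^ (6 * L * B * k₂) := by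
    intro s t B n hs ht hn
    have h0 : ((b s t n : 𝓞 K) : K) = ∏ j, ((a₁ j : K) ^ s * (a₂ j : K) ^ t) ^ n j := by
      simp [b]
    rw [h0]
    calc house (∏ j, ((a₁ j : K) ^ s * (a₂ j : K) ^ t) ^ n j)
        ≤ ∏ j, house (((a₁ j : K) ^ s * (a₂ j : K) ^ t) ^ n j) := house_prod_le' _ _
      _ ≤ ∏ j : Fin 3, (2 : ℝ) ^ (2 * L * B * k₂) := by
          refine Finset.prod_le_prod (fun j _ => house_nonneg _) fun j _ => ?_
          calc house (((a₁ j : K) ^ s * (a₂ j : K) ^ t) ^ n j)
              ≤ house ((a₁ j : K) ^ s * (a₂ j : K) ^ t) ^ n j := house_pow_le _ _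
            _ ≤ (house ((a₁ j : K) ^ s) * house ((a₂ j : K) ^ t)) ^ n j :=
                pow_le_pow_left₀ (house_nonneg _) (house_mul_le _ _) _
            _ ≤ (house (a₁ j : K) ^ s * house (a₂ j : K) ^ t) ^ n j := by
                apply pow_le_pow_left₀ (mul_nonneg (house_nonneg _) (house_nonneg _))
                exact mul_le_mul (house_pow_le _ _) (house_pow_le _ _) (house_nonneg _)
                  (pow_nonneg (house_nonneg _) _)
            _ ≤ (((2 : ℝ) ^ k₂) ^ s * ((2 : ℝ) ^ k₂) ^ t) ^ n j := by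
                apply pow_le_pow_left₀ (mul_nonneg (pow_nonneg (house_nonneg _) _)
                  (pow_nonneg (house_nonneg _) _))
                exact mul_le_mul (pow_le_pow_left₀ (house_nonneg _) (hk₂ j).1 _)
                  (pow_le_pow_left₀ (house_nonneg _) (hk₂ j).2 _)
                  (pow_nonneg (house_nonneg _) _) (by positivity)
            _ = (2 : ℝ) ^ ((s + t) * n j * k₂) := by
                rw [← pow_mul, ← pow_mul, ← pow_add, ← pow_mul]
                congr 1
                ring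
            _ ≤ (2 : ℝ) ^ (2 * L * B * k₂) := by
                apply pow_le_pow_right₀ one_le_two
                have h1 : (s + t) * n j ≤ 2 * L * B := Nat.mul_le_mul (by omega) (hn j)
                exact Nat.mul_le_mul_right _ h1
      _ = 2 ^ (6 * L * B * k₂) := by
          rw [Finset.prod_const, Finset.card_univ, Fintype.card_fin, ← pow_mul]
          congr 1
          ring
  -- Siegel's lemma
  let M : Matrix (Fin 3 → Fin A) (Fin L × Fin L) (𝓞 K) := fun n st => b st.1 st.2 fun j => n j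
  have hcard : Fintype.card (Fin L × Fin L) = 2 * Fintype.card (Fin 3 → Fin A) := by
    simp only [Fintype.card_prod, Fintype.card_fin, Fintype.card_pi, Finset.prod_const,
      Finset.card_univ]
    rw [hL, hA]
    ring
  have hM0 : M ≠ 0 := by
    intro h
    have h1 := congrFun (congrFun h fun _ => ⟨0, hA1⟩) (⟨0, hL1⟩, ⟨0, hL1⟩)
    simp [M, b] at h1
  obtain ⟨ξ, hξ0, hξ1, hξ2⟩ := hc _ _ M hM0 hcard (2 ^ (6 * L * A * k₂)) fun n st =>
    hbhouse _ _ A _ st.1.2.le st.2.2.le fun j => (n j).2.le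
  -- the function
  let W : Fin L × Fin L → ℚ_[p] := fun st => (st.1 : ℕ) * w₁ + (st.2 : ℕ) * w₂
  have hW : ∀ st, ‖W st‖ ≤ 1 := fun st => norm_add_le_one
    (norm_mul_le_one (norm_natCast_le_one _) hw₁) (norm_mul_le_one (norm_natCast_le_one _) hw₂)
  have hσ : ∀ z : 𝓞 K, ‖σ (z : K)‖ ≤ 1 := fun z =>
    norm_le_one_of_isIntegral ((z.isIntegral_coe).map (σ.toIntAlgHom))
  set F : ℚ_[p] → ℚ_[p] := fun y => ∑ st, σ (ξ st : K) * ee (W st * y) with hF
  have hFana : Ana 1 F := ana_expSum _ _ _ (fun st _ => hσ _) fun st _ => hW st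
  have heW : ∀ (st : Fin L × Fin L) (n : Fin 3 → ℕ), ee (W st * pt x n) = σ (b st.1 st.2 n : K) := by
    intro st n
    rw [ee_mul_pt (hW st) hx]
    have h1 : ∀ j, ee (W st * x j) = σ (((a₁ j ^ (st.1 : ℕ) * a₂ j ^ (st.2 : ℕ) : 𝓞 K)) : K) := by
      intro j
      have h2 : W st * x j = (st.1 : ℕ) * (w₁ * x j) + (st.2 : ℕ) * (w₂ * x j) := by
        simp only [W]; ring
      rw [h2, ee_add (norm_mul_le_one (norm_natCast_le_one _) (norm_mul_le_one hw₁ (hx j)))
        (norm_mul_le_one (norm_natCast_le_one _) (norm_mul_le_one hw₂ (hx j))),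
        ee_natCast_mul (norm_mul_le_one hw₁ (hx j)), ee_natCast_mul (norm_mul_le_one hw₂ (hx j)),
        ha₁, ha₂]
      simp
    simp only [h1, b]
    simp
  have hFpt : ∀ n, F (pt x n) = σ ((∑ st, ξ st * b st.1 st.2 n : 𝓞 K) : K) := by
    intro n
    simp only [hF, heW]
    simp
  -- vanishing at all the points
  have hvan : ∀ B : ℕ, ∀ n : Fin 3 → ℕ, (∀ j, n j < A + B) → F (pt x n) = 0 := by
    intro B
    induction B with
    | zero =>
      intro n hn
      rw [hFpt]
      have h1 := hξ1 fun j => ⟨n j, hn j⟩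
      have h2 : ∑ st, ξ st * b st.1 st.2 n = 0 := by
        rw [← h1]
        refine Finset.sum_congr rfl fun st _ => ?_
        rw [mul_comm]
      rw [h2]
      simp
    | succ B ih =>
      intro n hn
      have hn' : ∀ j, n j ≤ A + B := fun j => by have := hn j; omega
      set B' := A + B with hB'
      by_contra hne
      rw [hFpt] at hne
      set ζ : 𝓞 K := ∑ st, ξ st * b st.1 st.2 n with hζ
      have hζ0 : ζ ≠ 0 := by
        intro h
        apply hne
        rw [h]
        simp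
      -- upper bound
      let S : Finset ℚ_[p] := Finset.univ.image fun n' : Fin 3 → Fin B' => pt x fun j => n' j
      have hScard : S.card = B' ^ 3 := by
        rw [Finset.card_image_of_injective, Finset.card_univ, Fintype.card_pi]
        · simp
        · intro n₁ n₂ h12
          have := pt_inj hxi h12
          funext j
          exact Fin.ext (congrFun this j)
      have hS : ∀ z ∈ S, ‖z‖ ≤ 1 ∧ F z = 0 := by
        intro z hz
        obtain ⟨n', -, rfl⟩ := Finset.mem_image.1 hz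
        exact ⟨norm_pt hx _, ih _ fun j => (n' j).2⟩
      have hup := hFana.schwarz S hS (pt x n) (norm_pt hx n)
      rw [hFpt, ← hζ, hScard, one_mul] at hup
      have hlow := liouville σ hζ0
      rw [← hD] at hlow
      -- the house
      have hξb : ∀ st, house ((ξ st : 𝓞 K) : K) ≤ 2 ^ (k₁ + 2 * L + 6 * L * A * k₂) := by
        intro st
        refine (hξ2 st).trans ?_
        have h1 : (Fintype.card (Fin L × Fin L) : ℝ) ≤ 2 ^ (2 * L) := by
          rw [Fintype.card_prod, Fintype.card_fin]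
          have h2 : L < 2 ^ L := Nat.lt_two_pow_self
          have h3 : L * L ≤ 2 ^ (2 * L) := by
            rw [two_mul, pow_add]
            exact Nat.mul_le_mul h2.le h2.le
          exact_mod_cast h3
        calc c * ((Fintype.card (Fin L × Fin L) : ℝ) * 2 ^ (6 * L * A * k₂))
            ≤ 2 ^ k₁ * (2 ^ (2 * L) * 2 ^ (6 * L * A * k₂)) := by gcongr
          _ = _ := by rw [← pow_add, ← pow_add, ← add_assoc]
      have hζh : house (ζ : K) ≤ 2 ^ (κ * (L * B')) := by
        have h0 : (ζ : K) = ∑ st, (ξ st : K) * (b st.1 st.2 n : K) := by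
          simp [hζ]
        have h1 : (Fintype.card (Fin L × Fin L) : ℝ) ≤ 2 ^ (2 * L) := by
          rw [Fintype.card_prod, Fintype.card_fin]
          have h2 : L < 2 ^ L := Nat.lt_two_pow_self
          have h3 : L * L ≤ 2 ^ (2 * L) := by
            rw [two_mul, pow_add]
            exact Nat.mul_le_mul h2.le h2.le
          exact_mod_cast h3
        calc house (ζ : K) ≤ ∑ st, house ((ξ st : K) * (b st.1 st.2 n : K)) := by
              rw [h0]; exact house_sum_le_sum_house _ _
          _ ≤ ∑ _st : Fin L × Fin L, (2 : ℝ) ^ (k₁ + 2 * L + 6 * L * A * k₂) *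
                2 ^ (6 * L * B' * k₂) := by
              refine Finset.sum_le_sum fun st _ => (house_mul_le _ _).trans ?_
              exact mul_le_mul (hξb st) (hbhouse _ _ B' n st.1.2.le st.2.2.le hn')
                (house_nonneg _) (by positivity)
          _ = (Fintype.card (Fin L × Fin L) : ℝ) * ((2 : ℝ) ^ (k₁ + 2 * L + 6 * L * A * k₂) *
                2 ^ (6 * L * B' * k₂)) := by
              rw [Finset.sum_const, Finset.card_univ, nsmul_eq_mul]
          _ ≤ 2 ^ (2 * L) * ((2 : ℝ) ^ (k₁ + 2 * L + 6 * L * A * k₂) *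
                2 ^ (6 * L * B' * k₂)) := by gcongr
          _ = 2 ^ (k₁ + 4 * L + 6 * L * A * k₂ + 6 * L * B' * k₂) := by
              rw [← pow_add, ← pow_add]
              congr 1
              ring
          _ ≤ 2 ^ (κ * (L * B')) := by
              apply pow_le_pow_right₀ one_le_two
              have hB1 : 1 ≤ B' := by omega
              have h2 : 1 ≤ L * B' := Nat.mul_pos hL1 hB1
              have h3 : L ≤ L * B' := Nat.le_mul_of_pos_right _ hB1
              have h4 : L * A ≤ L * B' := Nat.mul_le_mul_left _ (by omega)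
              have h5 : L * A * k₂ ≤ L * B' * k₂ := Nat.mul_le_mul_right _ h4
              have h6 : k₁ ≤ k₁ * (L * B') := Nat.le_mul_of_pos_right _ h2
              rw [hκ]
              nlinarith
      -- contradiction
      have hfin : house (ζ : K) ^ D * ‖σ ζ‖ < 1 := by
        have h1 : house (ζ : K) ^ D ≤ 2 ^ (D * κ * (L * B')) := by
          calc house (ζ : K) ^ D ≤ (2 ^ (κ * (L * B'))) ^ D :=
                pow_le_pow_left₀ (house_nonneg _) hζh _
            _ = _ := by
                rw [← pow_mul]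
                congr 1
                ring
        have h2 : D * κ * (L * B') < B' ^ 3 := by
          have hAB : A ≤ B' := by omega
          have hB1 : 1 ≤ B' := by omega
          have h3 : D * κ * L < B' * B' := by
            calc D * κ * L < m * L := Nat.mul_lt_mul_of_pos_right (by omega) hL1
              _ = A * A := by rw [hL, hA]; ring
              _ ≤ B' * B' := Nat.mul_le_mul hAB hAB
          calc D * κ * (L * B') = (D * κ * L) * B' := by ring
            _ < (B' * B') * B' := Nat.mul_lt_mul_of_pos_right h3 hB1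
            _ = B' ^ 3 := by ring
        have h3 : (2 : ℝ) ^ (D * κ * (L * B')) < (p : ℝ) ^ (B' ^ 3) := by
          calc (2 : ℝ) ^ (D * κ * (L * B')) < 2 ^ (B' ^ 3) := pow_lt_pow_right₀ one_lt_two h2
            _ ≤ (p : ℝ) ^ (B' ^ 3) := by
                apply pow_le_pow_left₀ (by norm_num)
                exact_mod_cast hp.out.two_le
        calc house (ζ : K) ^ D * ‖σ ζ‖ ≤ 2 ^ (D * κ * (L * B')) * ((p : ℝ) ^ (B' ^ 3))⁻¹ := by
              exact mul_le_mul h1 hup (norm_nonneg _) (by positivity)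
          _ < 1 := by
              rw [mul_inv_lt_iff₀ (by positivity), one_mul]
              exact h3
      exact absurd hlow (not_le.2 hfin)
  -- `F` vanishes identically
  have hzero : ∀ y : ℚ_[p], ‖y‖ ≤ 1 → F y = 0 := by
    intro y hy
    by_contra hne
    have hpos : 0 < ‖F y‖ := norm_pos_iff.2 hne
    obtain ⟨N, hN⟩ : ∃ N : ℕ, ((p : ℝ) ^ N)⁻¹ < ‖F y‖ := by
      have h4 := (tendsto_pow_atTop_atTop_of_one_lt (p_one_lt (p := p))).inv_tendsto_atTop
      exact ((h4.eventually (gt_mem_nhds hpos))).exists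
    let S : Finset ℚ_[p] := (Finset.range N).image fun k => pt x fun _ => k
    have hScard : S.card = N := by
      rw [Finset.card_image_of_injective, Finset.card_range]
      intro k₁ k₂ h12
      exact congrFun (pt_inj hxi h12) 0
    have hS : ∀ z ∈ S, ‖z‖ ≤ 1 ∧ F z = 0 := by
      intro z hz
      obtain ⟨k, -, rfl⟩ := Finset.mem_image.1 hz
      exact ⟨norm_pt hx _, hvan (k + 1) _ fun j => by omega⟩
    have hup := hFana.schwarz S hS y hy
    rw [hScard, one_mul] at hup
    exact absurd hup (not_le.2 hN)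
  -- independence of characters
  have hli := linearIndependent_monoidHom (Multiplicative ℤ_[p]) ℚ_[p]
  have hinj : Function.Injective fun st : Fin L × Fin L => chi (W st) (hW st) := by
    intro st st' h
    have h1 := DFunLike.congr_fun h (Multiplicative.ofAdd 1)
    simp only [chi, MonoidHom.coe_mk, OneHom.coe_mk, toAdd_ofAdd, PadicInt.coe_one, mul_one] at h1
    have h2 := ee_inj (hW st) (hW st') h1
    have h3 := hwi ((st.1 : ℕ) - (st'.1 : ℕ)) ((st.2 : ℕ) - (st'.2 : ℕ)) (by
      push_cast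
      simp only [W] at h2
      linear_combination h2)
    obtain ⟨h4, h5⟩ := h3
    apply Prod.ext
    · apply Fin.ext; omega
    · apply Fin.ext; omega
  have hli2 := hli.comp _ hinj
  rw [Fintype.linearIndependent_iff] at hli2
  have h1 := hli2 (fun st => σ (ξ st : K)) (by
    funext y
    have h2 := hzero (Multiplicative.toAdd y : ℤ_[p]) (Multiplicative.toAdd y).2
    rw [Finset.sum_apply]
    simpa [chi, hF] using h2)
  apply hξ0
  funext st
  have h2 := h1 st
  have h3 : (ξ st : K) = 0 := (map_eq_zero σ).1 h2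
  exact_mod_cast h3

end Pool.Agent.Y142
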