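import Pool.Agent.Y142.Trans
import Pool.Agent.Y142.Char
import Pool.Agent.Y142.Pure
import Pool.Agent.W352.ChAbs.Main
import Pool.Agent.W401.Cheb.Main
import Pool.Agent.W571.FM.Frob

/-!
# Frobenius elements of a number field at completely split primes
-/

set_option autoImplicit false

namespace Pool.Agent.Y142

open NumberField Filter Topology IsDedekindDomain Pool.Agent.W569.FM Pool.Agent.W401.Cheb

theorem chebK : ChebK := Pool.Agent.W352.ChAbs.main chebotarev fun L => torsor L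

variable {K : Type} [Field K] [NumberField K]

variable (K) in
/-- the embedding of the algebraic integers -/
noncomputable def ioO : OO K ≃+* OO ℚ :=
  RingOfIntegers.mapRingEquiv (io ℚ K).toRingEquiv

theorem coe_ioO (x : OO K) : ((ioO K x : OO ℚ) : AlgebraicClosure ℚ) = io ℚ K (x : AlgebraicClosure K) :=
  rfl

omit [NumberField K] in
theorem coe_smul (σ : GF K) (x : OO K) :
    ((σ • x : OO K) : AlgebraicClosure K) = σ (x : AlgebraicClosure K) := rfl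

/-- the prime ideal `ι⁻¹ (τ⁻¹ P)` -/
noncomputable def QQ (τ : GF ℚ) (P : Ideal (OO ℚ)) : Ideal (OO K) :=
  P.comap ((MulSemiringAction.toRingHom (GF ℚ) (OO ℚ) τ).comp (ioO K).toRingHom)

theorem mem_QQ {τ : GF ℚ} {P : Ideal (OO ℚ)} {x : OO K} : x ∈ QQ τ P ↔ τ • ioO K x ∈ P := Iff.rfl

theorem QQ_isMaximal {τ : GF ℚ} {P : Ideal (OO ℚ)} (hP : P.IsMaximal) :
    (QQ τ P : Ideal (OO K)).IsMaximal := by
  apply Ideal.comap_isMaximal_of_surjective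
  intro y
  refine ⟨(ioO K).symm (τ⁻¹ • y), ?_⟩
  change τ • ioO K ((ioO K).symm (τ⁻¹ • y)) = y
  rw [RingEquiv.apply_symm_apply, smul_inv_smul]

theorem natCast_mem_QQ {τ : GF ℚ} {P : Ideal (OO ℚ)} {q : ℕ} :
    (q : OO K) ∈ QQ τ P ↔ (q : OO ℚ) ∈ P := by
  rw [mem_QQ, map_natCast]
  have : τ • (q : OO ℚ) = (q : OO ℚ) := by
    have := map_natCast (MulSemiringAction.toRingHom (GF ℚ) (OO ℚ) τ) q
    exact this
  rw [this]

/-- the place of `K` given by `τ` -/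
noncomputable def vv (τ : GF ℚ) {q : ℕ} (hq : q.Prime) {P : Ideal (OO ℚ)} (hP : P.IsMaximal)
    (hqP : (q : OO ℚ) ∈ P) : HeightOneSpectrum (𝓞 K) where
  asIdeal := (QQ τ P).comap (algebraMap (𝓞 K) (OO K))
  isPrime := by
    have := (QQ_isMaximal (K := K) (τ := τ) hP).isPrime
    infer_instance
  ne_bot := by
    intro h
    have h1 : (q : 𝓞 K) ∈ (QQ τ P).comap (algebraMap (𝓞 K) (OO K)) := by
      rw [Ideal.mem_comap, map_natCast, natCast_mem_QQ]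
      exact hqP
    rw [h, Ideal.mem_bot] at h1
    exact hq.ne_zero (by exact_mod_cast h1)

theorem mem_vv {τ : GF ℚ} {q : ℕ} {hq : q.Prime} {P : Ideal (OO ℚ)} {hP : P.IsMaximal}
    {hqP : (q : OO ℚ) ∈ P} {x : 𝓞 K} :
    x ∈ (vv τ hq hP hqP : HeightOneSpectrum (𝓞 K)).asIdeal ↔
      τ • ioO K (algebraMap (𝓞 K) (OO K) x) ∈ P := Iff.rfl

theorem natCast_mem_vv {τ : GF ℚ} {q : ℕ} {hq : q.Prime} {P : Ideal (OO ℚ)} {hP : P.IsMaximal}
    {hqP : (q : OO ℚ) ∈ P} : (q : 𝓞 K) ∈ (vv τ hq hP hqP : HeightOneSpectrum (𝓞 K)).asIdeal := by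
  rw [mem_vv, map_natCast]
  exact natCast_mem_QQ.2 hqP

theorem ioO_back (h : HH ℚ K) (x : OO K) : ioO K (back h • x) = (h : GF ℚ) • ioO K x := by
  apply RingOfIntegers.ext
  rw [coe_ioO]
  exact back_apply h x

theorem smul_ioO_of_mem {g : GF ℚ} (h : g ∈ HH ℚ K) (x : 𝓞 K) :
    g • ioO K (algebraMap (𝓞 K) (OO K) x) = ioO K (algebraMap (𝓞 K) (OO K) x) := by
  apply RingOfIntegers.ext
  exact mem_HH.1 h (x : K)

theorem absNorm_eq_of_pow {v : HeightOneSpectrum (𝓞 K)} {q : ℕ} (hq : q.Prime)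
    (hqv : (q : 𝓞 K) ∈ v.asIdeal) (h : ∀ x : 𝓞 K, x ^ q - x ∈ v.asIdeal) :
    Ideal.absNorm v.asIdeal = q := by
  classical
  have hmax : v.asIdeal.IsMaximal := v.isMaximal
  let _ := Ideal.Quotient.field v.asIdeal
  have : Finite (𝓞 K ⧸ v.asIdeal) := Ideal.finiteQuotientOfFreeOfNeBot _ v.ne_bot
  have : Fintype (𝓞 K ⧸ v.asIdeal) := Fintype.ofFinite _
  have hN : Ideal.absNorm v.asIdeal = Fintype.card (𝓞 K ⧸ v.asIdeal) := by
    rw [Ideal.absNorm_apply, Submodule.cardQuot_apply]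
    exact Nat.card_eq_fintype_card
  rw [hN]
  apply le_antisymm
  · have h1 : ∀ x : 𝓞 K ⧸ v.asIdeal, x ^ q = x := by
      intro x
      obtain ⟨x, rfl⟩ := Ideal.Quotient.mk_surjective x
      rw [← map_pow]
      exact Ideal.Quotient.eq.2 (h x)
    have h2 : (Polynomial.X ^ q - Polynomial.X : Polynomial (𝓞 K ⧸ v.asIdeal)) ≠ 0 :=
      FiniteField.X_pow_card_sub_X_ne_zero _ hq.one_lt
    have h3 : (Finset.univ : Finset (𝓞 K ⧸ v.asIdeal)).val ≤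
        (Polynomial.X ^ q - Polynomial.X : Polynomial (𝓞 K ⧸ v.asIdeal)).roots := by
      rw [Multiset.le_iff_subset Finset.univ.nodup]
      intro x _
      rw [Polynomial.mem_roots h2, Polynomial.IsRoot.def]
      simp [h1]
    have h4 := Multiset.card_le_card h3
    have h5 := Polynomial.card_roots' (Polynomial.X ^ q - Polynomial.X : Polynomial (𝓞 K ⧸ v.asIdeal))
    rw [FiniteField.X_pow_card_sub_X_natDegree_eq _ hq.one_lt] at h5
    exact h4.trans h5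
  · have h1 : (q : 𝓞 K ⧸ v.asIdeal) = 0 := by
      rw [← map_natCast (Ideal.Quotient.mk v.asIdeal)]
      exact Ideal.Quotient.eq_zero_iff_mem.2 hqv
    have h2 : addOrderOf (1 : 𝓞 K ⧸ v.asIdeal) ∣ q := by
      rw [addOrderOf_dvd_iff_nsmul_eq_zero, nsmul_eq_mul, mul_one, h1]
    have h3 : addOrderOf (1 : 𝓞 K ⧸ v.asIdeal) = q := by
      rcases (Nat.dvd_prime hq).1 h2 with h4 | h4
      · rw [AddMonoid.addOrderOf_eq_one_iff] at h4
        exact absurd h4 one_ne_zero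
      · exact h4
    rw [← h3]
    exact addOrderOf_le_card_univ

theorem absNorm_vv {τ g : GF ℚ} {q : ℕ} (hq : q.Prime) {P : Ideal (OO ℚ)} (hP : P.IsMaximal)
    (hqP : (q : OO ℚ) ∈ P) (hg : FrobAt q P g) (h : τ⁻¹ * g * τ ∈ HH ℚ K) :
    Ideal.absNorm (vv τ hq hP hqP : HeightOneSpectrum (𝓞 K)).asIdeal = q := by
  apply absNorm_eq_of_pow hq natCast_mem_vv
  intro x
  rw [mem_vv]
  have h1 := hg (τ • ioO K (algebraMap (𝓞 K) (OO K) x))
  have h2 : τ • (τ⁻¹ * g * τ) • ioO K (algebraMap (𝓞 K) (OO K) x) =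
      g • τ • ioO K (algebraMap (𝓞 K) (OO K) x) := by
    rw [smul_smul, smul_smul]
    congr 1
    group
  rw [smul_ioO_of_mem h] at h2
  rw [← h2] at h1
  have h3 := P.neg_mem h1
  rw [neg_sub] at h3
  rw [map_sub, map_sub, map_pow, map_pow, smul_sub, smul_pow']
  exact h3

theorem isFrob_back {τ g : GF ℚ} {q : ℕ} (hq : q.Prime) {P : Ideal (OO ℚ)} (hP : P.IsMaximal)
    (hqP : (q : OO ℚ) ∈ P) (hg : FrobAt q P g) (h : τ⁻¹ * g * τ ∈ HH ℚ K) :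
    IsFrob (vv τ hq hP hqP) (back ⟨τ⁻¹ * g * τ, h⟩) := by
  refine ⟨QQ τ P, QQ_isMaximal hP, rfl, fun x => ?_⟩
  rw [absNorm_vv hq hP hqP hg h, mem_QQ, map_sub, map_pow, ioO_back, smul_sub, smul_pow']
  have h1 := hg (τ • ioO K x)
  rw [Subgroup.coe_mk, smul_smul]
  have h2 : τ * (τ⁻¹ * g * τ) = g * τ := by group
  rw [h2, ← smul_smul]
  exact h1

/-- there are infinitely many rational primes with a Frobenius element in a given open normal
subgroup -/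
theorem exists_frob_core (U : Subgroup (GF ℚ)) [U.Normal] (hU : IsOpen (U : Set (GF ℚ))) (N : ℕ) :
    ∃ q : ℕ, q.Prime ∧ N < q ∧ ∃ (P : Ideal (OO ℚ)) (g : GF ℚ), P.IsMaximal ∧ (q : OO ℚ) ∈ P ∧
      FrobAt q P g ∧ g ∈ U := by
  classical
  by_contra hcon
  push Not at hcon
  have h1 := chebK ℚ U hU (U : Set (GF ℚ)) (fun σ hσ τ => Subgroup.Normal.conj_mem inferInstance σ hσ τ)
    (fun σ hσ u hu => U.mul_mem hσ hu)
  -- the primes
  have key : ∀ v : HeightOneSpectrum (𝓞 ℚ), (∃ σ ∈ (U : Set (GF ℚ)), IsFrob v σ) →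
      v.asIdeal = W571.FM.pl (Ideal.absNorm v.asIdeal) ∧ Ideal.absNorm v.asIdeal ≤ N := by
    rintro v ⟨σ, hσU, Q, hQ, hQv, hσ⟩
    obtain ⟨q, hq, hqQ⟩ := W569.FM.exists_char Q hQ
    have h2 : v.asIdeal = W571.FM.pl q := by
      rw [← hQv]
      exact W571.FM.cm_eq hq hQ hqQ
    have h3 : Ideal.absNorm v.asIdeal = q := by rw [h2, W571.FM.absNorm_pl]
    rw [h3] at hσ ⊢
    refine ⟨h2, ?_⟩
    by_contra h4
    exact hcon q hq (by omega) Q σ hQ hqQ hσ hσU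
  have h2 : ∀ n : ℕ, dens (fun v : HeightOneSpectrum (𝓞 ℚ) => ∃ σ ∈ (U : Set (GF ℚ)), IsFrob v σ) n ≤
      (N + 1 : ℝ) / (Nat.primeCounting n : ℝ) := by
    intro n
    unfold dens
    apply div_le_div_of_nonneg_right _ (Nat.cast_nonneg _)
    have h3 : Nat.card {v : HeightOneSpectrum (𝓞 ℚ) // Ideal.absNorm v.asIdeal ≤ n ∧
        ∃ σ ∈ (U : Set (GF ℚ)), IsFrob v σ} ≤ Nat.card (Fin (N + 1)) := by
      apply Nat.card_le_card_of_injective
        (fun v => (⟨Ideal.absNorm v.1.asIdeal, by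
          have := (key v.1 v.2.2).2
          omega⟩ : Fin (N + 1)))
      intro v w hvw
      apply Subtype.ext
      apply HeightOneSpectrum.ext
      have h4 : Ideal.absNorm v.1.asIdeal = Ideal.absNorm w.1.asIdeal := congrArg Fin.val hvw
      rw [(key v.1 v.2.2).1, (key w.1 w.2.2).1, h4]
    rw [Nat.card_fin] at h3
    exact_mod_cast h3
  have h3 : Tendsto (fun n : ℕ => (N + 1 : ℝ) / (Nat.primeCounting n : ℝ)) atTop (𝓝 0) := by
    apply Tendsto.const_div_atTop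
    exact tendsto_natCast_atTop_atTop.comp Nat.tendsto_primeCounting
  have h4 := le_of_tendsto_of_tendsto' h1 h3 h2
  have hcl : IsClosed (U : Set (GF ℚ)) := U.isClosed_of_isOpen hU
  have hfin : Finite (GF ℚ ⧸ U) := Subgroup.quotient_finite_of_isOpen U hU
  have h5 : 0 < ((QuotientGroup.mk : GF ℚ → GF ℚ ⧸ U) '' (U : Set (GF ℚ))).ncard := by
    rw [Set.ncard_pos (Set.toFinite _)]
    exact ⟨_, 1, U.one_mem, rfl⟩
  have h6 : 0 < Nat.card (GF ℚ ⧸ U) := Nat.card_pos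
  have h7 : (0 : ℝ) < (((QuotientGroup.mk : GF ℚ → GF ℚ ⧸ U) '' (U : Set (GF ℚ))).ncard : ℝ) /
      (Nat.card (GF ℚ ⧸ U) : ℝ) := by positivity
  exact absurd h4 (not_le.2 h7)

theorem vv_surjective {q : ℕ} (hq : q.Prime) {P : Ideal (OO ℚ)} (hP : P.IsMaximal)
    (hqP : (q : OO ℚ) ∈ P) (v : HeightOneSpectrum (𝓞 K)) (hv : (q : 𝓞 K) ∈ v.asIdeal) :
    ∃ τ : GF ℚ, vv τ hq hP hqP = v := by
  obtain ⟨Q, σ, hQ, hQv, -⟩ := W571.FM.frob_cm v
  let P' : Ideal (OO ℚ) := Q.comap (ioO K).symm.toRingHom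
  have hP' : P'.IsMaximal := by
    apply Ideal.comap_isMaximal_of_surjective
    exact (ioO K).symm.surjective
  have hqP' : (q : OO ℚ) ∈ P' := by
    rw [Ideal.mem_comap, map_natCast]
    have h1 : (q : 𝓞 K) ∈ W571.FM.cm Q := by rw [hQv]; exact hv
    exact W571.FM.natCast_mem_cm.1 h1
  obtain ⟨g, hg⟩ := W571.FM.exists_smul P P' hP.isPrime hP'.isPrime
    ((W571.FM.cm_eq hq hP hqP).trans (W571.FM.cm_eq hq hP' hqP').symm)
  refine ⟨g⁻¹, ?_⟩
  apply HeightOneSpectrum.ext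
  rw [← hQv]
  ext x
  rw [mem_vv, ← hg]
  change (ioO K).symm (ioO K (algebraMap (𝓞 K) (OO K) x)) ∈ Q ↔ _
  rw [RingEquiv.symm_apply_apply]
  rfl

variable {ℓ : ℕ} [hℓ : Fact ℓ.Prime]

/-- the transfer of a character of the absolute Galois group of `K` -/
noncomputable def trans (δ : GK K →* ℚ_[ℓ]ˣ) : GF ℚ →* ℚ_[ℓ]ˣ :=
  MonoidHom.transfer (δ.comp (back (k := ℚ) (K := K)))

theorem continuous_trans {δ : GK K →* ℚ_[ℓ]ˣ} (hδ : Continuous fun g => (δ g : ℚ_[ℓ])) :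
    Continuous fun g => (trans δ g : ℚ_[ℓ]) := by
  apply continuous_transfer isOpen_HH
  exact hδ.comp continuous_back

theorem trans_of_trivial (δ : GK K →* ℚ_[ℓ]ˣ) [Fintype (GF ℚ ⧸ HH ℚ K)] {g : GF ℚ}
    (hg : ∀ τ : GF ℚ, τ⁻¹ * g * τ ∈ HH ℚ K) :
    trans δ g = ∏ c : GF ℚ ⧸ HH ℚ K, δ (back ⟨c.out⁻¹ * g * c.out, hg _⟩) := by
  rw [trans, transfer_of_trivial _ hg]
  rfl

theorem trans_inv_of_trivial (δ : GK K →* ℚ_[ℓ]ˣ) [Fintype (GF ℚ ⧸ HH ℚ K)] {g : GF ℚ}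
    (hg : ∀ τ : GF ℚ, τ⁻¹ * g * τ ∈ HH ℚ K) :
    trans δ g⁻¹ = ∏ c : GF ℚ ⧸ HH ℚ K, δ (back ⟨c.out⁻¹ * g * c.out, hg _⟩)⁻¹ := by
  rw [map_inv, trans_of_trivial δ hg, ← Finset.prod_inv_distrib]
  simp only [map_inv]

theorem char_field (δ χ : GK K →* ℚ_[ℓ]ˣ) (hδ : Continuous fun g => (δ g : ℚ_[ℓ]))
    (hχ : Continuous fun g => (χ g : ℚ_[ℓ])) {w d : ℕ} (hw : 0 < w)
    {S : Set (HeightOneSpectrum (𝓞 K))} (hS : S.Finite)
    (hgood : ∀ v ∉ S, ∀ σ : GK K, IsFrob v σ →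
      (χ σ⁻¹ : ℚ_[ℓ]) = (Ideal.absNorm v.asIdeal : ℚ_[ℓ]) ^ w ∧
      Pure ((Ideal.absNorm v.asIdeal : ℝ) ^ (w * d)) (δ σ⁻¹ : ℚ_[ℓ])) :
    ∃ n : ℕ, 0 < n ∧ ∀ g, trans δ g ^ (2 * n) = trans χ g ^ (d * n) := by
  classical
  have hfin : Finite (GF ℚ ⧸ HH ℚ K) := Subgroup.finite_quotient_of_finiteIndex
  have : Fintype (GF ℚ ⧸ HH ℚ K) := Fintype.ofFinite _
  have hidx : Fintype.card (GF ℚ ⧸ HH ℚ K) = Module.finrank ℚ K := by
    rw [← index_HH (k := ℚ) (K := K), Subgroup.index, Nat.card_eq_fintype_card]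
  have hpos : 0 < Module.finrank ℚ K := Module.finrank_pos
  refine char_main (trans δ) (trans χ) (continuous_trans hδ) (continuous_trans hχ)
    (w := w * Module.finrank ℚ K) (Nat.mul_pos hw hpos) ?_
  intro T
  -- bound for the bad primes
  obtain ⟨N, hN⟩ : ∃ N : ℕ, (∀ v ∈ S, Ideal.absNorm v.asIdeal ≤ N) ∧ ∀ q ∈ T, q ≤ N := by
    obtain ⟨N₁, hN₁⟩ := (hS.image fun v => Ideal.absNorm v.asIdeal).bddAbove
    obtain ⟨N₂, hN₂⟩ := T.bddAbove
    exact ⟨max N₁ N₂, fun v hv => (hN₁ ⟨v, hv, rfl⟩).trans (le_max_left _ _),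
      fun q hq => (hN₂ hq).trans (le_max_right _ _)⟩
  have hH : IsClosed (HH ℚ K : Set (GF ℚ)) := (HH ℚ K).isClosed_of_isOpen isOpen_HH
  have hU : IsOpen ((HH ℚ K).normalCore : Set (GF ℚ)) :=
    Subgroup.isOpen_of_isClosed_of_finiteIndex _ ((HH ℚ K).normalCore_isClosed hH)
  obtain ⟨q, hq, hqN, P, g, hP, hqP, hg, hgU⟩ := exists_frob_core (HH ℚ K).normalCore hU N
  have hgH : ∀ τ : GF ℚ, τ⁻¹ * g * τ ∈ HH ℚ K := by
    intro τ
    have := hgU τ⁻¹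
    rwa [inv_inv] at this
  refine ⟨q, hq, fun h => absurd (hN.2 q h) (not_le.2 hqN), g⁻¹, ?_, ?_⟩
  · rw [trans_inv_of_trivial χ hgH, Units.coe_prod]
    have h1 : ∀ c : GF ℚ ⧸ HH ℚ K, (χ (back ⟨c.out⁻¹ * g * c.out, hgH _⟩)⁻¹ : ℚ_[ℓ]) =
        (q : ℚ_[ℓ]) ^ w := by
      intro c
      have h2 := isFrob_back hq hP hqP hg (hgH c.out)
      have h3 := absNorm_vv hq hP hqP hg (hgH c.out)
      have h4 := (hgood _ (fun h => absurd (hN.1 _ h) (by rw [h3]; omega)) _ h2).1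
      rw [h3] at h4
      exact h4
    rw [Finset.prod_congr rfl fun c _ => h1 c, Finset.prod_const, Finset.card_univ, hidx, pow_mul]
  · rw [trans_inv_of_trivial δ hgH, Units.coe_prod]
    have h1 : ∀ c : GF ℚ ⧸ HH ℚ K, Pure ((q : ℝ) ^ (w * d))
        (δ (back ⟨c.out⁻¹ * g * c.out, hgH _⟩)⁻¹ : ℚ_[ℓ]) := by
      intro c
      have h2 := isFrob_back hq hP hqP hg (hgH c.out)
      have h3 := absNorm_vv hq hP hqP hg (hgH c.out)
      have h4 := (hgood _ (fun h => absurd (hN.1 _ h) (by rw [h3]; omega)) _ h2).2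
      rw [h3] at h4
      exact h4
    have h5 := Pure.prod (s := Finset.univ) fun c _ => h1 c
    rw [Finset.prod_const, Finset.card_univ, hidx, ← pow_mul] at h5
    have h6 : w * Module.finrank ℚ K * d = w * d * Module.finrank ℚ K := by ring
    rw [h6]
    exact h5

theorem vv_mul_right {τ h : GF ℚ} {q : ℕ} {hq : q.Prime} {P : Ideal (OO ℚ)} {hP : P.IsMaximal}
    {hqP : (q : OO ℚ) ∈ P} (hh : h ∈ HH ℚ K) :
    (vv (τ * h) hq hP hqP : HeightOneSpectrum (𝓞 K)) = vv τ hq hP hqP := by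
  apply HeightOneSpectrum.ext
  ext x
  rw [mem_vv, mem_vv, ← smul_smul, smul_ioO_of_mem hh]

theorem vv_mul_left {τ g : GF ℚ} {q : ℕ} {hq : q.Prime} {P : Ideal (OO ℚ)} {hP : P.IsMaximal}
    {hqP : (q : OO ℚ) ∈ P} (hg : FrobAt q P g) :
    (vv (g * τ) hq hP hqP : HeightOneSpectrum (𝓞 K)) = vv τ hq hP hqP := by
  apply HeightOneSpectrum.ext
  ext x
  rw [mem_vv, mem_vv, ← smul_smul]
  have h1 := hg (τ • ioO K (algebraMap (𝓞 K) (OO K) x))
  constructor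
  · intro h2
    have h3 := P.sub_mem h2 h1
    rw [sub_sub_cancel] at h3
    exact hP.isPrime.mem_of_pow_mem _ h3
  · intro h2
    have h3 := P.add_mem h1 (P.pow_mem_of_mem h2 q hq.pos)
    rwa [sub_add_cancel] at h3

theorem char_split (δ χ : GK K →* ℚ_[ℓ]ˣ) {n d : ℕ}
    (h : ∀ g, trans δ g ^ (2 * n) = trans χ g ^ (d * n)) {p : ℕ} (hp : p.Prime)
    {v : Fin (Module.finrank ℚ K) → HeightOneSpectrum (𝓞 K)} (hv : Function.Injective v)
    (hpv : ∀ i, (p : 𝓞 K) ∈ (v i).asIdeal) :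
    (∀ i, Ideal.absNorm (v i).asIdeal = p) ∧
    ∃ σ : Fin (Module.finrank ℚ K) → GK K, (∀ i, IsFrob (v i) (σ i)) ∧
      (∏ i, δ (σ i)⁻¹) ^ (2 * n) = (∏ i, χ (σ i)⁻¹) ^ (d * n) := by
  classical
  have hfin : Finite (GF ℚ ⧸ HH ℚ K) := Subgroup.finite_quotient_of_finiteIndex
  have : Fintype (GF ℚ ⧸ HH ℚ K) := Fintype.ofFinite _
  have hidx : Fintype.card (GF ℚ ⧸ HH ℚ K) = Module.finrank ℚ K := by
    rw [← index_HH (k := ℚ) (K := K), Subgroup.index, Nat.card_eq_fintype_card]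
  obtain ⟨⟨P, hP, hpP, g, hg⟩, -⟩ := sFROB p hp
  choose τ hτ using fun i => vv_surjective hp hP hpP (v i) (hpv i)
  have hcos : ∀ a b : GF ℚ, (a : GF ℚ ⧸ HH ℚ K) = (b : GF ℚ ⧸ HH ℚ K) →
      (vv a hp hP hpP : HeightOneSpectrum (𝓞 K)) = vv b hp hP hpP := by
    intro a b hab
    rw [QuotientGroup.eq] at hab
    have h1 := vv_mul_right (τ := a) (hq := hp) (hP := hP) (hqP := hpP) hab
    rw [mul_inv_cancel_left] at h1
    exact h1.symm
  have hinj : Function.Injective fun i => ((τ i : GF ℚ) : GF ℚ ⧸ HH ℚ K) := by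
    intro i j hij
    apply hv
    rw [← hτ i, ← hτ j]
    exact hcos _ _ hij
  have hbij : Function.Bijective fun i => ((τ i : GF ℚ) : GF ℚ ⧸ HH ℚ K) := by
    rw [Fintype.bijective_iff_injective_and_card]
    exact ⟨hinj, by rw [Fintype.card_fin, hidx]⟩
  have hvvinj : ∀ a b : GF ℚ, (vv a hp hP hpP : HeightOneSpectrum (𝓞 K)) = vv b hp hP hpP →
      (a : GF ℚ ⧸ HH ℚ K) = (b : GF ℚ ⧸ HH ℚ K) := by
    intro a b hab
    obtain ⟨i, hi⟩ := hbij.2 (a : GF ℚ ⧸ HH ℚ K)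
    obtain ⟨j, hj⟩ := hbij.2 (b : GF ℚ ⧸ HH ℚ K)
    simp only at hi hj
    have h1 := hcos _ _ hi
    have h2 := hcos _ _ hj
    rw [hτ] at h1 h2
    have h3 : i = j := hv (by rw [h1, h2, hab])
    rw [← hi, ← hj, h3]
  have hgH : ∀ τ : GF ℚ, τ⁻¹ * g * τ ∈ HH ℚ K := by
    intro τ
    have h1 := hvvinj (g * τ) τ (vv_mul_left hg)
    have h2 := QuotientGroup.eq.1 h1.symm
    rwa [← mul_assoc] at h2
  let e : Fin (Module.finrank ℚ K) ≃ (GF ℚ ⧸ HH ℚ K) := Equiv.ofBijective _ hbij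
  have he : ∀ i, (vv (e i).out hp hP hpP : HeightOneSpectrum (𝓞 K)) = v i := by
    intro i
    rw [← hτ i]
    apply hcos
    exact Quotient.out_eq _
  refine ⟨fun i => ?_, fun i => back ⟨(e i).out⁻¹ * g * (e i).out, hgH _⟩, fun i => ?_, ?_⟩
  · rw [← he i]
    exact absNorm_vv hp hP hpP hg (hgH _)
  · have h1 := isFrob_back hp hP hpP hg (hgH (e i).out)
    rw [he i] at h1
    exact h1
  · have h1 := h g⁻¹
    rw [trans_inv_of_trivial δ hgH, trans_inv_of_trivial χ hgH] at h1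
    rw [← e.prod_comp, ← e.prod_comp] at h1
    exact h1

end Pool.Agent.Y142
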