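import Pool.Agent.W569.FM.Stmts
import Pool.Agent.W352.ChAbs.Frob

/-!
# The transfer for absolute Galois groups of number fields
-/

set_option autoImplicit false

namespace Pool.Agent.Y142

open NumberField Filter Topology IsDedekindDomain Pool.Agent.W569.FM Pool.Agent.W401.Cheb

section group

variable {G : Type*} [Group G] {H : Subgroup G} [H.FiniteIndex]

theorem transfer_of_trivial {A : Type*} [CommGroup A] (ϕ : H →* A)
    [inst : Fintype (G ⧸ H)] {g : G}
    (hg : ∀ τ : G, τ⁻¹ * g * τ ∈ H) :
    MonoidHom.transfer ϕ g = ∏ q : G ⧸ H, ϕ ⟨q.out⁻¹ * g * q.out, hg _⟩ := by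
  obtain rfl : inst = H.fintypeQuotientOfFiniteIndex := Subsingleton.elim _ _
  have hT : ∀ q : G ⧸ H, ((Quotient.out q : G) : G ⧸ H) = q := fun q => Quotient.out_eq q
  let T : H.LeftTransversal := ⟨Set.range fun q : G ⧸ H => (Quotient.out q : G),
    Subgroup.isComplement_range_left hT⟩
  rw [MonoidHom.transfer_def ϕ T g]
  have h1 : ∀ q : G ⧸ H, (T.2.leftQuotientEquiv q : G) = q.out := fun q =>
    Subgroup.IsComplement.leftQuotientEquiv_apply hT q
  have h2 : ∀ q : G ⧸ H, g⁻¹ • q = q := by
    intro q
    induction q using QuotientGroup.induction_on with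
    | H τ =>
      rw [MulAction.Quotient.smul_mk, QuotientGroup.eq]
      have h3 := H.inv_mem (hg τ)
      simpa [mul_assoc] using hg τ
  have h3 : ∀ q : G ⧸ H, ((g • T).2.leftQuotientEquiv q : G) = g * q.out := by
    intro q
    rw [Subgroup.smul_apply_eq_smul_apply_inv_smul, h2, h1, smul_eq_mul]
  unfold Subgroup.leftTransversals.diff
  simp only
  refine Finset.prod_congr rfl fun q _ => ?_
  congr 1
  apply Subtype.ext
  simp only
  rw [h1, h3, mul_assoc]

theorem continuous_transfer [TopologicalSpace G] [IsTopologicalGroup G] {F : Type*} [Field F]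
    [TopologicalSpace F] [IsTopologicalRing F] (hH : IsOpen (H : Set G)) (ϕ : H →* Fˣ)
    (hϕ : Continuous fun h => (ϕ h : F)) : Continuous fun g => (MonoidHom.transfer ϕ g : F) := by
  classical
  have : Finite (G ⧸ H) := Subgroup.finite_quotient_of_finiteIndex
  have : Fintype (G ⧸ H) := Fintype.ofFinite _
  let ψ : G → F := fun x => if h : x ∈ H then (ϕ ⟨x, h⟩ : F) else 1
  have hψ : ∀ x ∈ H, ContinuousAt ψ x := by
    have h1 : ContinuousOn ψ (H : Set G) := by
      rw [continuousOn_iff_continuous_domRestrict]
      refine hϕ.congr fun h => ?_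
      have : (h : G) ∈ H := h.2
      simp [ψ, this]
    intro x hx
    exact h1.continuousAt (hH.mem_nhds hx)
  have hcl : IsClosed (H : Set G) := H.isClosed_of_isOpen hH
  have hN : IsOpen (H.normalCore : Set G) :=
    Subgroup.isOpen_of_isClosed_of_finiteIndex _ (H.normalCore_isClosed hcl)
  rw [continuous_iff_continuousAt]
  intro g₀
  have h1 : (fun g => (MonoidHom.transfer ϕ g : F)) =ᶠ[𝓝 g₀] fun g =>
      (MonoidHom.transfer ϕ g₀ : F) * ∏ q : G ⧸ H, ψ (q.out⁻¹ * (g₀⁻¹ * g) * q.out) := by
    have h2 : {g : G | g₀⁻¹ * g ∈ H.normalCore} ∈ 𝓝 g₀ := by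
      apply (hN.preimage (continuous_const.mul continuous_id)).mem_nhds
      simp [H.normalCore.one_mem]
    filter_upwards [h2] with g hg
    have hg' : ∀ τ : G, τ⁻¹ * (g₀⁻¹ * g) * τ ∈ H := by
      intro τ
      have := hg τ⁻¹
      rwa [inv_inv] at this
    have h3 : MonoidHom.transfer ϕ g =
        MonoidHom.transfer ϕ g₀ * MonoidHom.transfer ϕ (g₀⁻¹ * g) := by
      rw [← map_mul, mul_inv_cancel_left]
    rw [h3, transfer_of_trivial ϕ hg', Units.val_mul, Units.coe_prod]
    congr 1
    refine Finset.prod_congr rfl fun q _ => ?_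
    simp only [ψ]
    rw [dif_pos (hg' _)]
  refine ContinuousAt.congr ?_ h1.symm
  apply ContinuousAt.mul continuousAt_const
  apply tendsto_finsetProd
  intro q _
  have h3 : ψ (q.out⁻¹ * (g₀⁻¹ * g₀) * q.out) = ψ 1 := by simp
  have h4 : ContinuousAt (fun g : G => q.out⁻¹ * (g₀⁻¹ * g) * q.out) g₀ :=
    ((continuous_const.mul (continuous_const.mul continuous_id)).mul
      continuous_const).continuousAt
  have h5 : ContinuousAt ψ (q.out⁻¹ * (g₀⁻¹ * g₀) * q.out) := by
    have h6 : q.out⁻¹ * (g₀⁻¹ * g₀) * q.out = 1 := by simp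
    rw [h6]
    exact hψ 1 H.one_mem
  exact ContinuousAt.comp (f := fun g : G => q.out⁻¹ * (g₀⁻¹ * g) * q.out) h5 h4

end group

section field

variable (k K : Type) [Field k] [CharZero k] [Field K] [Algebra k K] [FiniteDimensional k K]

theorem isAlgClosure_of : IsAlgClosure k (AlgebraicClosure K) where
  isAlgClosed := inferInstance
  isAlgebraic := Algebra.IsAlgebraic.trans k K (AlgebraicClosure K)

/-- an isomorphism of the algebraic closures -/
noncomputable def io : AlgebraicClosure K ≃ₐ[k] AlgebraicClosure k :=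
  haveI := isAlgClosure_of k K
  IsAlgClosure.equiv k (AlgebraicClosure K) (AlgebraicClosure k)

/-- the embedding of `K` in the algebraic closure of `k` -/
noncomputable def emb : K →ₐ[k] AlgebraicClosure k :=
  ((io k K : AlgebraicClosure K →ₐ[k] AlgebraicClosure k)).comp
    (IsScalarTower.toAlgHom k K (AlgebraicClosure K))

theorem emb_apply (x : K) : emb k K x = io k K (algebraMap K (AlgebraicClosure K) x) := rfl

/-- the subgroup of the absolute Galois group of `k` given by `K` -/
noncomputable def HH : Subgroup (GF k) := (emb k K).fieldRange.fixingSubgroup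

variable {k K}

theorem mem_HH {g : GF k} : g ∈ HH k K ↔ ∀ x : K, g (emb k K x) = emb k K x := by
  rw [HH, IntermediateField.mem_fixingSubgroup_iff]
  constructor
  · intro h x
    exact h _ ⟨x, rfl⟩
  · rintro h _ ⟨x, rfl⟩
    exact h x

theorem finiteDimensional_range : FiniteDimensional k (emb k K).fieldRange :=
  (AlgEquiv.ofInjectiveField (emb k K)).toLinearEquiv.finiteDimensional

theorem index_HH : (HH k K).index = Module.finrank k K := by
  rw [HH, ← IntermediateField.finrank_eq_fixingSubgroup_index]
  exact (AlgEquiv.ofInjectiveField (emb k K)).toLinearEquiv.finrank_eq.symm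

instance finiteIndex_HH : (HH k K).FiniteIndex := ⟨by
  rw [index_HH]
  exact Module.finrank_pos.ne'⟩

theorem isOpen_HH : IsOpen (HH k K : Set (GF k)) :=
  haveI := finiteDimensional_range (k := k) (K := K)
  IntermediateField.fixingSubgroup_isOpen _

/-- elements of `HH K` as elements of the absolute Galois group of `K` -/
noncomputable def back : HH k K →* GF K where
  toFun g := AlgEquiv.ofRingEquiv
    (f := ((io k K).trans ((g : GF k).trans (io k K).symm)).toRingEquiv)
    (fun x => by
      change (io k K).symm ((g : GF k) (io k K (algebraMap K (AlgebraicClosure K) x))) = _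
      rw [← emb_apply, mem_HH.1 g.2 x, emb_apply, AlgEquiv.symm_apply_apply])
  map_one' := by
    apply AlgEquiv.ext
    intro x
    exact (io k K).symm_apply_apply x
  map_mul' g h := by
    apply AlgEquiv.ext
    intro x
    change (io k K).symm ((g : GF k) ((h : GF k) (io k K x))) =
      (io k K).symm ((g : GF k) (io k K ((io k K).symm ((h : GF k) (io k K x)))))
    rw [AlgEquiv.apply_symm_apply]

theorem back_apply (g : HH k K) (x : AlgebraicClosure K) :
    io k K (back g x) = (g : GF k) (io k K x) := by
  change io k K ((io k K).symm ((g : GF k) (io k K x))) = _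
  rw [AlgEquiv.apply_symm_apply]

theorem continuous_back : Continuous (back : HH k K → GF K) := by
  apply continuous_of_continuousAt_one
  rw [ContinuousAt, map_one]
  intro A hA
  rw [krullTopology_mem_nhds_one_iff] at hA
  obtain ⟨E, hE, hEA⟩ := hA
  have hE2 : FiniteDimensional k E := Module.Finite.trans K E
  let E₀ : IntermediateField k (AlgebraicClosure k) :=
    (E.restrictScalars k).map (io k K : AlgebraicClosure K →ₐ[k] AlgebraicClosure k)
  have hE3 : FiniteDimensional k (E.restrictScalars k) := hE2
  have hE₀ : FiniteDimensional k E₀ :=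
    ((E.restrictScalars k).equivMap
      (io k K : AlgebraicClosure K →ₐ[k] AlgebraicClosure k)).toLinearEquiv.finiteDimensional
  have h1 : {g : HH k K | (g : GF k) ∈ E₀.fixingSubgroup} ∈ 𝓝 (1 : HH k K) := by
    apply (E₀.fixingSubgroup_isOpen.preimage continuous_subtype_val).mem_nhds
    exact E₀.fixingSubgroup.one_mem
  rw [Filter.mem_map]
  filter_upwards [h1] with g hg
  apply hEA
  change back g ∈ E.fixingSubgroup
  rw [IntermediateField.mem_fixingSubgroup_iff]
  intro x hx
  apply (io k K).injective
  rw [back_apply]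
  have hg' : (g : GF k) ∈ E₀.fixingSubgroup := hg
  rw [IntermediateField.mem_fixingSubgroup_iff] at hg'
  exact hg' _ ⟨x, hx, rfl⟩

end field

end Pool.Agent.Y142
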