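import Pool.Agent.TH831.OT.KW3
import Pool.Agent.W215.FM.Gen
import Pool.Agent.W327.FM.TameAbs
import Pool.Agent.W258.FM.TameFin
import Pool.Agent.W571.FM.Frob

/-!
# The theorem of Kronecker and Weber for `ℤ_ℓ`-extensions of the rational numbers

The continuous homomorphisms from the absolute Galois group of `ℚ` to `ℤ_ℓ` are proportional.
-/

set_option autoImplicit false

namespace Pool.Agent.Y142

open NumberField Filter Topology Pool.Agent.W569.FM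

variable {ℓ : ℕ} [hℓ : Fact ℓ.Prime]

theorem sGEN : S_GEN := W215.FM.main

theorem sTAME : S_TAME := W327.FM.main W258.FM.main

theorem sFROB : S_FROB := W571.FM.main

theorem isOpen_pow (n : ℕ) : IsOpen {x : ℤ_[ℓ] | (ℓ : ℤ_[ℓ]) ^ n ∣ x} := by
  have h1 : {x : ℤ_[ℓ] | (ℓ : ℤ_[ℓ]) ^ n ∣ x} = Metric.closedBall 0 ((ℓ : ℝ) ^ (-(n : ℤ))) := by
    ext x
    rw [Set.mem_ofPred_eq, mem_closedBall_zero_iff, PadicInt.norm_le_pow_iff_mem_span_pow,
      Ideal.mem_span_singleton]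
  rw [h1]
  apply IsUltrametricDist.isOpen_closedBall
  have : (0 : ℝ) < ℓ := by exact_mod_cast hℓ.out.pos
  positivity

/-- reduction modulo `ℓ ^ n` -/
noncomputable def red (n : ℕ) (f : GF ℚ →* Multiplicative ℤ_[ℓ]) :
    GF ℚ →* Multiplicative (ZMod (ℓ ^ n)) :=
  (AddMonoidHom.toMultiplicative (PadicInt.toZModPow n : ℤ_[ℓ] →+* ZMod (ℓ ^ n)).toAddMonoidHom).comp f

theorem red_eq_one {n : ℕ} {f : GF ℚ →* Multiplicative ℤ_[ℓ]} {g : GF ℚ} :
    red n f g = 1 ↔ (ℓ : ℤ_[ℓ]) ^ n ∣ Multiplicative.toAdd (f g) := by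
  have h : (Multiplicative.toAdd (f g)) ∈ RingHom.ker (PadicInt.toZModPow n : ℤ_[ℓ] →+* ZMod (ℓ ^ n)) ↔
    (ℓ : ℤ_[ℓ]) ^ n ∣ Multiplicative.toAdd (f g) := by
    rw [PadicInt.ker_toZModPow, Ideal.mem_span_singleton]
  rw [← h, RingHom.mem_ker]
  constructor
  · intro h1
    exact congrArg Multiplicative.toAdd h1
  · intro h1
    apply Multiplicative.toAdd.injective
    exact h1

theorem isOpen_ker_red (n : ℕ) {f : GF ℚ →* Multiplicative ℤ_[ℓ]} (hf : Continuous f) :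
    IsOpen ((red n f).ker : Set (GF ℚ)) := by
  have h1 : ((red n f).ker : Set (GF ℚ)) =
      (fun g => Multiplicative.toAdd (f g)) ⁻¹' {x : ℤ_[ℓ] | (ℓ : ℤ_[ℓ]) ^ n ∣ x} := by
    ext g
    exact red_eq_one
  rw [h1]
  exact (isOpen_pow n).preimage (continuous_toAdd.comp hf)

omit hℓ in
theorem isPGroup_zmod (n : ℕ) : IsPGroup ℓ (Multiplicative (ZMod (ℓ ^ n))) := by
  intro g
  refine ⟨n, ?_⟩
  apply Multiplicative.toAdd.injective
  rw [toAdd_pow, toAdd_one, nsmul_eq_mul, ZMod.natCast_self, zero_mul]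

theorem eq_zero_of_dvd {x : ℤ_[ℓ]} (h : ∀ n : ℕ, (ℓ : ℤ_[ℓ]) ^ n ∣ x) : x = 0 := by
  rw [← PadicInt.ext_of_toZModPow]
  intro n
  rw [map_zero, ← RingHom.mem_ker, PadicInt.ker_toZModPow, Ideal.mem_span_singleton]
  exact h n

/-- homomorphisms to `ℤ_ℓ` are unramified outside `ℓ` -/
theorem unram {f : GF ℚ →* Multiplicative ℤ_[ℓ]} (hf : Continuous f) {q : ℕ} (hq : q.Prime)
    (hqℓ : q ≠ ℓ) {P : Ideal (OO ℚ)} (hP : P.IsMaximal) (hqP : (q : OO ℚ) ∈ P) {τ : GF ℚ}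
    (hτ : InInertia P τ) : f τ = 1 := by
  obtain ⟨⟨P₀, hP₀, hqP₀, σ, hσ⟩, hconj⟩ := sFROB q hq
  obtain ⟨g, hg⟩ := hconj P₀ P hP₀ hP hqP₀ hqP
  have hτ₀ := hg τ hτ
  have h1 : ∀ n : ℕ, (ℓ : ℤ_[ℓ]) ^ n ∣ ((q - 1 : ℕ) : ℤ_[ℓ]) * Multiplicative.toAdd (f τ) := by
    intro n
    have hfin : Finite (Multiplicative (ZMod (ℓ ^ n))) := by
      have : NeZero (ℓ ^ n) := ⟨pow_ne_zero _ hℓ.out.ne_zero⟩
      exact (inferInstance : Finite (ZMod (ℓ ^ n)))
    obtain ⟨h2, -⟩ := sTAME ℓ q hℓ.out hq (Ne.symm hqℓ) (Multiplicative (ZMod (ℓ ^ n)))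
      (isPGroup_zmod n) (red n f) (isOpen_ker_red n hf) P₀ hP₀ hqP₀
    have h3 := h2 _ hτ₀ σ hσ
    have h4 : red n f (g⁻¹ * τ * g) = red n f τ := conj_value (red n f) g τ
    have h5 : red n f (σ * (g⁻¹ * τ * g) * σ⁻¹) = red n f τ := by
      rw [map_mul, map_mul, h4, mul_comm (red n f σ), mul_assoc, ← map_mul, mul_inv_cancel, map_one,
        mul_one]
    rw [h4, h5] at h3
    have h6 : red n f (τ ^ (q - 1)) = 1 := by
      rw [map_pow]
      have h7 : (red n f τ) ^ (q - 1) * red n f τ = 1 * red n f τ := by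
        rw [← pow_succ, Nat.sub_add_cancel hq.one_le, one_mul]
        exact h3.symm
      exact mul_right_cancel h7
    rw [red_eq_one, map_pow, toAdd_pow, nsmul_eq_mul] at h6
    exact h6
  have h2 := eq_zero_of_dvd h1
  have h3 : ((q - 1 : ℕ) : ℤ_[ℓ]) ≠ 0 := by
    have := hq.two_le
    exact_mod_cast (by omega : q - 1 ≠ 0)
  apply Multiplicative.toAdd.injective
  rw [toAdd_one]
  exact (mul_eq_zero.1 h2).resolve_left h3

/-- homomorphisms to `ℤ / ℓ` which are unramified outside `ℓ` are proportional -/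
theorem kw_mod (hℓ2 : ℓ ≠ 2) {f l : GF ℚ →* Multiplicative (ZMod ℓ)}
    (hf : IsOpen (f.ker : Set (GF ℚ))) (hl : IsOpen (l.ker : Set (GF ℚ)))
    (hfu : ∀ q : ℕ, q.Prime → q ≠ ℓ → ∀ P : Ideal (OO ℚ), P.IsMaximal → (q : OO ℚ) ∈ P →
      ∀ τ : GF ℚ, InInertia P τ → f τ = 1)
    (hlu : ∀ q : ℕ, q.Prime → q ≠ ℓ → ∀ P : Ideal (OO ℚ), P.IsMaximal → (q : OO ℚ) ∈ P →
      ∀ τ : GF ℚ, InInertia P τ → l τ = 1)
    (hl1 : ∃ g, l g ≠ 1) :
    ∃ c : ZMod ℓ, ∀ g, Multiplicative.toAdd (f g) = c * Multiplicative.toAdd (l g) := by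
  classical
  -- the primes
  have hex : ∀ q : ℕ, ∃ P : Ideal (OO ℚ), q.Prime → P.IsMaximal ∧ (q : OO ℚ) ∈ P := by
    intro q
    by_cases hq : q.Prime
    · obtain ⟨⟨P, h1, h2, -⟩, -⟩ := sFROB q hq
      exact ⟨P, fun _ => ⟨h1, h2⟩⟩
    · exact ⟨⊤, fun h => absurd h hq⟩
  choose P hP using hex
  obtain ⟨hPm, hPℓ⟩ := hP ℓ hℓ.out
  -- the root of unity
  have hn0 : ℓ ^ 2 ≠ 0 := pow_ne_zero _ hℓ.out.ne_zero
  have : NeZero (ℓ ^ 2) := ⟨hn0⟩
  obtain ⟨ζ, hζ⟩ := HasEnoughRootsOfUnity.exists_primitiveRoot (AlgebraicClosure ℚ) (ℓ ^ 2)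
  let w : OO ℚ := ⟨ζ, hζ.isIntegral (Nat.pos_of_ne_zero hn0)⟩
  have hwζ : algebraMap (OO ℚ) (AlgebraicClosure ℚ) w = ζ := rfl
  have hw : IsPrimitiveRoot w (ℓ ^ 2) :=
    IsPrimitiveRoot.of_map_of_injective (f := algebraMap (OO ℚ) (AlgebraicClosure ℚ)) hζ
      RingOfIntegers.coe_injective
  -- the action
  let ψ : GF ℚ →* (ZMod (ℓ ^ 2))ˣ := hζ.autToPow ℚ
  have hψ : ∀ τ, ψ τ = 1 → τ • w = w := by
    intro τ hτ
    apply RingOfIntegers.coe_injective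
    have h1 : ζ ^ ((ψ τ : (ZMod (ℓ ^ 2))ˣ) : ZMod (ℓ ^ 2)).val = τ ζ := hζ.autToPow_spec ℚ τ
    rw [hτ] at h1
    have h3 : Fact (1 < ℓ ^ 2) := ⟨one_lt_pow₀ hℓ.out.one_lt (by norm_num)⟩
    rw [Units.val_one, ZMod.val_one, pow_one] at h1
    rw [TH831.OT.coe_smul', hwζ]
    exact h1.symm
  -- a generator of the image of inertia
  have hcyc : IsCyclic (ZMod (ℓ ^ 2))ˣ := ZMod.isCyclic_units_of_prime_pow ℓ hℓ.out hℓ2 2
  obtain ⟨⟨_, ⟨τ₀, hτ₀, rfl⟩⟩, hgen⟩ :=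
    (inferInstance : IsCyclic ((W327.FM.iner (P ℓ)).map ψ)).exists_generator
  have hkey : ∀ τ ∈ W327.FM.iner (P ℓ), ∃ n : ℤ, f τ = f τ₀ ^ n ∧ l τ = l τ₀ ^ n := by
    intro τ hτ
    obtain ⟨n, hn⟩ := Subgroup.mem_zpowers_iff.1 (hgen ⟨ψ τ, τ, hτ, rfl⟩)
    have hn' : ψ τ₀ ^ n = ψ τ := congrArg Subtype.val hn
    have h1 : (τ₀ ^ n)⁻¹ * τ ∈ W327.FM.iner (P ℓ) :=
      Subgroup.mul_mem _ (Subgroup.inv_mem _ (Subgroup.zpow_mem _ hτ₀ n)) hτ
    have h2 : ψ ((τ₀ ^ n)⁻¹ * τ) = 1 := by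
      rw [map_mul, map_inv, map_zpow, hn', inv_mul_cancel]
    refine ⟨n, ?_, ?_⟩
    · have h3 := TH831.OT.kw hPm hPℓ hℓ2 hw f hf h1 (hψ _ h2)
      rw [map_mul, map_inv, map_zpow, inv_mul_eq_one] at h3
      exact h3.symm
    · have h3 := TH831.OT.kw hPm hPℓ hℓ2 hw l hl h1 (hψ _ h2)
      rw [map_mul, map_inv, map_zpow, inv_mul_eq_one] at h3
      exact h3.symm
  have hlτ₀ : Multiplicative.toAdd (l τ₀) ≠ 0 := by
    intro h0
    have h0' : l τ₀ = 1 := by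
      apply Multiplicative.toAdd.injective
      rw [h0, toAdd_one]
    obtain ⟨g, hg⟩ := hl1
    apply hg
    refine trivial_of_trivial sGEN sFROB l hl P hP ?_ g
    intro q hq τ hτ
    by_cases hqℓ : q = ℓ
    · subst hqℓ
      obtain ⟨n, -, h2⟩ := hkey τ hτ
      rw [h2, h0', one_zpow]
    · exact hlu q hq hqℓ (P q) (hP q hq).1 (hP q hq).2 τ hτ
  set c := Multiplicative.toAdd (f τ₀) / Multiplicative.toAdd (l τ₀) with hc
  refine ⟨c, ?_⟩
  let h : GF ℚ →* Multiplicative (ZMod ℓ) :=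
    { toFun := fun g => Multiplicative.ofAdd (Multiplicative.toAdd (f g) - c * Multiplicative.toAdd (l g))
      map_one' := by simp
      map_mul' := fun a b => by
        rw [← ofAdd_add]
        congr 1
        simp only [map_mul, toAdd_mul]
        ring }
  have hho : IsOpen (h.ker : Set (GF ℚ)) := by
    have h1 : IsOpen ((f.ker ⊓ l.ker : Subgroup (GF ℚ)) : Set (GF ℚ)) := by
      rw [Subgroup.coe_inf]
      exact hf.inter hl
    refine Subgroup.isOpen_mono ?_ h1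
    rintro g ⟨hg1, hg2⟩
    have hg1' : f g = 1 := hg1
    have hg2' : l g = 1 := hg2
    show Multiplicative.ofAdd (Multiplicative.toAdd (f g) - c * Multiplicative.toAdd (l g)) = 1
    rw [hg1', hg2']
    simp
  have h1 : ∀ g, h g = 1 := by
    refine trivial_of_trivial sGEN sFROB h hho P hP ?_
    intro q hq τ hτ
    show Multiplicative.ofAdd (Multiplicative.toAdd (f τ) - c * Multiplicative.toAdd (l τ)) = 1
    by_cases hqℓ : q = ℓ
    · subst hqℓ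
      obtain ⟨n, h1, h2⟩ := hkey τ hτ
      rw [h1, h2, toAdd_zpow, toAdd_zpow, hc]
      have : Multiplicative.toAdd (f τ₀) / Multiplicative.toAdd (l τ₀) *
          (n • Multiplicative.toAdd (l τ₀)) = n • Multiplicative.toAdd (f τ₀) := by
        rw [zsmul_eq_mul, zsmul_eq_mul]
        field_simp
      rw [this, sub_self, ofAdd_zero]
    · rw [hfu q hq hqℓ (P q) (hP q hq).1 (hP q hq).2 τ hτ,
        hlu q hq hqℓ (P q) (hP q hq).1 (hP q hq).2 τ hτ]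
      simp
  intro g
  have h2 := congrArg Multiplicative.toAdd (h1 g)
  exact sub_eq_zero.1 h2

/-- division by a power of `ℓ` -/
theorem exists_divide {f : GF ℚ →* Multiplicative ℤ_[ℓ]} (hf : Continuous f) (a : ℕ)
    (h : ∀ g, (ℓ : ℤ_[ℓ]) ^ a ∣ Multiplicative.toAdd (f g)) :
    ∃ f' : GF ℚ →* Multiplicative ℤ_[ℓ], Continuous f' ∧
      ∀ g, Multiplicative.toAdd (f g) = (ℓ : ℤ_[ℓ]) ^ a * Multiplicative.toAdd (f' g) := by
  choose d hd using h
  have hℓ0 : (ℓ : ℤ_[ℓ]) ^ a ≠ 0 := pow_ne_zero _ (by exact_mod_cast hℓ.out.ne_zero)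
  refine ⟨{ toFun := fun g => Multiplicative.ofAdd (d g), map_one' := ?_, map_mul' := ?_ }, ?_, hd⟩
  · have h1 := hd 1
    rw [map_one, toAdd_one] at h1
    have h2 := (mul_eq_zero.1 h1.symm).resolve_left hℓ0
    rw [h2, ofAdd_zero]
  · intro x y
    rw [← ofAdd_add]
    congr 1
    apply mul_left_cancel₀ hℓ0
    rw [← hd, map_mul, toAdd_mul, hd, hd, mul_add]
  · have h1 : Continuous d := by
      have h2 : Continuous fun g => ((d g : ℤ_[ℓ]) : ℚ_[ℓ]) := by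
        have hℓ1 : (ℓ : ℚ_[ℓ]) ^ a ≠ 0 := pow_ne_zero _ (by exact_mod_cast hℓ.out.ne_zero)
        have h3 : (fun g => ((d g : ℤ_[ℓ]) : ℚ_[ℓ])) =
            fun g => ((Multiplicative.toAdd (f g) : ℤ_[ℓ]) : ℚ_[ℓ]) / (ℓ : ℚ_[ℓ]) ^ a := by
          funext g
          rw [eq_div_iff hℓ1, hd g]
          push_cast
          ring
        rw [h3]
        exact (continuous_subtype_val.comp (continuous_toAdd.comp hf)).div_const _
      exact continuous_induced_rng.2 h2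
    exact h1

/-- reduction modulo `ℓ` -/
noncomputable def redZ (f : GF ℚ →* Multiplicative ℤ_[ℓ]) : GF ℚ →* Multiplicative (ZMod ℓ) :=
  (AddMonoidHom.toMultiplicative (PadicInt.toZMod : ℤ_[ℓ] →+* ZMod ℓ).toAddMonoidHom).comp f

theorem toZMod_eq_zero {x : ℤ_[ℓ]} : PadicInt.toZMod x = 0 ↔ (ℓ : ℤ_[ℓ]) ∣ x := by
  rw [← RingHom.mem_ker, PadicInt.ker_toZMod, PadicInt.maximalIdeal_eq_span_p,
    Ideal.mem_span_singleton]

theorem redZ_eq_one {f : GF ℚ →* Multiplicative ℤ_[ℓ]} {g : GF ℚ} :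
    redZ f g = 1 ↔ (ℓ : ℤ_[ℓ]) ∣ Multiplicative.toAdd (f g) := by
  rw [← toZMod_eq_zero]
  constructor
  · intro h1
    exact congrArg Multiplicative.toAdd h1
  · intro h1
    apply Multiplicative.toAdd.injective
    exact h1

theorem isOpen_ker_redZ {f : GF ℚ →* Multiplicative ℤ_[ℓ]} (hf : Continuous f) :
    IsOpen ((redZ f).ker : Set (GF ℚ)) := by
  have h1 : ((redZ f).ker : Set (GF ℚ)) =
      (fun g => Multiplicative.toAdd (f g)) ⁻¹' {x : ℤ_[ℓ] | (ℓ : ℤ_[ℓ]) ^ 1 ∣ x} := by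
    ext g
    rw [Set.mem_preimage, Set.mem_ofPred_eq, pow_one]
    exact redZ_eq_one
  rw [h1]
  exact (isOpen_pow 1).preimage (continuous_toAdd.comp hf)

theorem redZ_unram {f : GF ℚ →* Multiplicative ℤ_[ℓ]} (hf : Continuous f) (q : ℕ) (hq : q.Prime)
    (hqℓ : q ≠ ℓ) (P : Ideal (OO ℚ)) (hP : P.IsMaximal) (hqP : (q : OO ℚ) ∈ P) (τ : GF ℚ)
    (hτ : InInertia P τ) : redZ f τ = 1 := by
  have h := unram hf hq hqℓ hP hqP hτ
  show (AddMonoidHom.toMultiplicative _) (f τ) = 1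
  rw [h, map_one]

variable (ℓ) in
/-- homomorphisms to `ℤ_ℓ` are proportional modulo `ℓ` -/
def HMod : Prop := ∀ f l : GF ℚ →* Multiplicative ℤ_[ℓ], Continuous f → Continuous l →
  (∃ g, ¬ (ℓ : ℤ_[ℓ]) ∣ Multiplicative.toAdd (l g)) →
  ∃ d : ZMod ℓ, ∀ g, Multiplicative.toAdd (redZ f g) = d * Multiplicative.toAdd (redZ l g)

theorem hmod_odd (hℓ2 : ℓ ≠ 2) : HMod ℓ := by
  intro f l hf hl hl1
  exact kw_mod hℓ2 (isOpen_ker_redZ hf) (isOpen_ker_redZ hl) (redZ_unram hf)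
        (redZ_unram hl) (by
          obtain ⟨g, hg⟩ := hl1
          exact ⟨g, fun h => hg (redZ_eq_one.1 h)⟩)

theorem kw_primitive (hmod : HMod ℓ) {f l : GF ℚ →* Multiplicative ℤ_[ℓ]} (hf : Continuous f)
    (hl : Continuous l) (hl1 : ∃ g, ¬ (ℓ : ℤ_[ℓ]) ∣ Multiplicative.toAdd (l g)) :
    ∃ c : ℤ_[ℓ], ∀ g, Multiplicative.toAdd (f g) = c * Multiplicative.toAdd (l g) := by
  have key : ∀ n : ℕ, ∃ (c : ℤ_[ℓ]) (f' : GF ℚ →* Multiplicative ℤ_[ℓ]), Continuous f' ∧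
      ∀ g, Multiplicative.toAdd (f g) =
        c * Multiplicative.toAdd (l g) + (ℓ : ℤ_[ℓ]) ^ n * Multiplicative.toAdd (f' g) := by
    intro n
    induction n with
    | zero => exact ⟨0, f, hf, fun g => by simp⟩
    | succ n ih =>
      obtain ⟨c, f', hf', hc⟩ := ih
      obtain ⟨d, hd⟩ := hmod f' l hf' hl hl1
      set d' : ℤ_[ℓ] := (d.val : ℤ_[ℓ]) with hd'
      have hdd : PadicInt.toZMod d' = d := by
        rw [hd', map_natCast, ZMod.natCast_zmod_val]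
      let h : GF ℚ →* Multiplicative ℤ_[ℓ] :=
        { toFun := fun g => Multiplicative.ofAdd
            (Multiplicative.toAdd (f' g) - d' * Multiplicative.toAdd (l g))
          map_one' := by simp
          map_mul' := fun a b => by
            rw [← ofAdd_add]
            congr 1
            simp only [map_mul, toAdd_mul]
            ring }
      have hh : Continuous h := by
        have h1 : Continuous fun g => (Multiplicative.toAdd (f' g) - d' * Multiplicative.toAdd (l g)) :=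
          (continuous_toAdd.comp hf').sub ((continuous_toAdd.comp hl).const_mul d')
        exact h1
      have hdvd : ∀ g, (ℓ : ℤ_[ℓ]) ^ 1 ∣ Multiplicative.toAdd (h g) := by
        intro g
        rw [pow_one, ← toZMod_eq_zero]
        show PadicInt.toZMod (Multiplicative.toAdd (f' g) - d' * Multiplicative.toAdd (l g)) = 0
        rw [map_sub, map_mul, hdd]
        exact sub_eq_zero.2 (hd g)
      obtain ⟨f'', hf'', hc''⟩ := exists_divide hh 1 hdvd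
      refine ⟨c + (ℓ : ℤ_[ℓ]) ^ n * d', f'', hf'', fun g => ?_⟩
      have h1 := hc'' g
      have h2 : Multiplicative.toAdd (h g) =
        Multiplicative.toAdd (f' g) - d' * Multiplicative.toAdd (l g) := rfl
      rw [h2] at h1
      rw [hc g]
      rw [pow_one] at h1
      rw [pow_succ]
      linear_combination (ℓ : ℤ_[ℓ]) ^ n * h1
  obtain ⟨g₀, hg₀⟩ := hl1
  have hu : IsUnit (Multiplicative.toAdd (l g₀)) := by
    by_contra hnu
    apply hg₀
    rw [← Ideal.mem_span_singleton, ← PadicInt.maximalIdeal_eq_span_p,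
      IsLocalRing.mem_maximalIdeal]
    exact hnu
  obtain ⟨u, hu⟩ := hu
  refine ⟨Multiplicative.toAdd (f g₀) * ((u⁻¹ : ℤ_[ℓ]ˣ) : ℤ_[ℓ]), fun g => ?_⟩
  rw [← sub_eq_zero]
  apply eq_zero_of_dvd
  intro n
  obtain ⟨c, f', -, hc⟩ := key n
  refine ⟨Multiplicative.toAdd (f' g) - Multiplicative.toAdd (f' g₀) * ((u⁻¹ : ℤ_[ℓ]ˣ) : ℤ_[ℓ]) *
    Multiplicative.toAdd (l g), ?_⟩
  rw [hc g, hc g₀, ← hu]
  have h1 : (u : ℤ_[ℓ]) * ((u⁻¹ : ℤ_[ℓ]ˣ) : ℤ_[ℓ]) = 1 := Units.mul_inv u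
  linear_combination (-(c * Multiplicative.toAdd (l g))) * h1

/-- **Kronecker-Weber**: continuous homomorphisms from the absolute Galois group of `ℚ` to `ℤ_ℓ` are
proportional -/
theorem kw_padic (hmod : HMod ℓ) {f l : GF ℚ →* Multiplicative ℤ_[ℓ]} (hf : Continuous f)
    (hl : Continuous l) (hl1 : ∃ g, l g ≠ 1) :
    ∃ (a : ℕ) (c : ℤ_[ℓ]), ∀ g,
      (ℓ : ℤ_[ℓ]) ^ a * Multiplicative.toAdd (f g) = c * Multiplicative.toAdd (l g) := by
  classical
  obtain ⟨g₁, hg₁⟩ := hl1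
  have h0 : Multiplicative.toAdd (l g₁) ≠ 0 := fun h => hg₁ (by
    apply Multiplicative.toAdd.injective
    rw [h, toAdd_one])
  have hex : ∃ n : ℕ, ¬ ∀ g, (ℓ : ℤ_[ℓ]) ^ n ∣ Multiplicative.toAdd (l g) := by
    by_contra hcon
    push Not at hcon
    exact h0 (eq_zero_of_dvd fun n => hcon n g₁)
  have hfind := Nat.find_spec hex
  set n := Nat.find hex with hn
  have hn0 : n ≠ 0 := by
    intro h
    rw [h] at hfind
    exact hfind fun g => by simp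
  have hprev : ∀ g, (ℓ : ℤ_[ℓ]) ^ (n - 1) ∣ Multiplicative.toAdd (l g) := by
    have := Nat.find_min hex (m := n - 1) (by omega)
    push Not at this
    exact this
  obtain ⟨l', hl', hll'⟩ := exists_divide hl (n - 1) hprev
  obtain ⟨c, hc⟩ := kw_primitive hmod hf hl' (by
    by_contra hcon
    push Not at hcon
    apply hfind
    intro g
    rw [hll' g, show n = (n - 1) + 1 by omega, pow_succ, Nat.add_sub_cancel]
    exact mul_dvd_mul_left _ (hcon g))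
  refine ⟨n - 1, c, fun g => ?_⟩
  rw [hc g, hll' g]
  ring

end Pool.Agent.Y142
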